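import Mathlib

/-!
# P325pa: projection games, products, the collision form

Parallel repetition of projection games and unique games, package P325pa (paper proof:
`/team-store/P325pa_proof.md`).
-/

open Finset
open scoped BigOperators Classical

namespace Pool.Agent.P325pa

/-- A projection game: finitely many edges (at least one), every edge `e` has a left end `src e`, a
right end `dst e` and a map `map e` from the labels of the left side to the labels of the right side. -/
structure Game where
  /-- left vertices -/
  V : Type
  /-- right vertices -/
  U : Type
  /-- edges -/
  E : Type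
  /-- labels of the left vertices -/
  A : Type
  /-- labels of the right vertices -/
  B : Type
  [finV : Fintype V]
  [finU : Fintype U]
  [finE : Fintype E]
  [finA : Fintype A]
  [finB : Fintype B]
  [neE : Nonempty E]
  [neA : Nonempty A]
  [neB : Nonempty B]
  src : E → V
  dst : E → U
  map : E → A → B

attribute [instance] Game.finV Game.finU Game.finE Game.finA Game.finB Game.neE Game.neA Game.neB

/-- A unique game: all maps are bijections. -/
def IsUnique (G : Game) : Prop := ∀ e, Function.Bijective (G.map e)

/-- The fraction of the edges satisfied by the labelings `x` (left) and `y` (right). -/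
noncomputable def satFrac (G : Game) (x : G.V → G.A) (y : G.U → G.B) : ℝ :=
  (∑ e, if G.map e (x (G.src e)) = y (G.dst e) then (1 : ℝ) else 0) / Fintype.card G.E

/-- The value: the largest fraction of the edges that can be satisfied. -/
noncomputable def value (G : Game) : ℝ :=
  ⨆ p : (G.V → G.A) × (G.U → G.B), satFrac G p.1 p.2

/-- The product of two games: both are played at once (one question of each game is given to each
player, both constraints have to be satisfied). -/
def prod (G H : Game) : Game where
  V := G.V × H.V
  U := G.U × H.U
  E := G.E × H.E
  A := G.A × H.A
  B := G.B × H.B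
  src p := (G.src p.1, H.src p.2)
  dst p := (G.dst p.1, H.dst p.2)
  map p a := (G.map p.1 a.1, H.map p.2 a.2)

/-- The game with one edge and one label. -/
def one : Game where
  V := Unit
  U := Unit
  E := Unit
  A := Unit
  B := Unit
  src := id
  dst := id
  map _ a := a

/-- The product of a list of games. -/
def tensor : List Game → Game
  | [] => one
  | G :: L => prod G (tensor L)

/-- The parallel repetition: `k` copies of `G` are played at once. -/
def pow (G : Game) : ℕ → Game
  | 0 => one
  | k + 1 => prod G (pow G k)

/-- The number of edges at a right vertex. -/
noncomputable def deg (G : Game) (u : G.U) : ℕ := (univ.filter (fun e => G.dst e = u)).card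

/-- The mass of `f` that arrives at the label `b` of the right vertex `u`. -/
noncomputable def push (G : Game) (f : G.V → G.A → ℝ) (u : G.U) (b : G.B) : ℝ :=
  ∑ e, if G.dst e = u then ∑ a, (if G.map e a = b then f (G.src e) a else 0) else 0

/-- The squared norm of the mass that arrives on the right side. -/
noncomputable def form (G : Game) (f : G.V → G.A → ℝ) : ℝ :=
  ∑ u, (∑ b, push G f u b ^ 2) / ((Fintype.card G.E : ℝ) * deg G u)

/-- The function with the mass `t v` on the label `x v`. -/
noncomputable def pt (G : Game) (t : G.V → ℝ) (x : G.V → G.A) : G.V → G.A → ℝ :=
  fun v a => if a = x v then t v else 0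

/-- The collision value. -/
noncomputable def coll (G : Game) : ℝ := ⨆ x : G.V → G.A, form G (pt G 1 x)

/-- A feasible family: nonnegative, for every left vertex the total masses of the labels form a
vector of norm at most `1`. -/
def Feas (G : Game) {Z : Type} [Fintype Z] (f : Z → G.V → G.A → ℝ) : Prop :=
  (∀ z v a, 0 ≤ f z v a) ∧ ∀ v, ∑ z, (∑ a, f z v a) ^ 2 ≤ 1

/-- `c` bounds the (squared) relaxation of Dinur and Steurer. -/
def VBound (G : Game) (c : ℝ) : Prop :=
  ∀ (Z : Type) [Fintype Z] (f : Z → G.V → G.A → ℝ), Feas G f → ∑ z, form G (f z) ≤ c

/-- The function of the theorem: `val+ ^ 2 ≤ hh (val)`. -/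
noncomputable def hh (t : ℝ) : ℝ := 2 * t / (1 + t ^ 2)

end Pool.Agent.P325pa
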