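import Mathlib
import Pool.Agent.Lib.P325pa.Defs

/-!
# P325pa.Basic (0.7 h): values and collision values

`satFrac` is a sum of zeros and ones over the number of edges. `value_prod_le`: let `(x, y)` be a labeling of
`prod G H`. For every edge `e` of `G` the labeling `v' ↦ (x (src e, v')).2`, `u' ↦ (y (dst e, u')).2` of `H` satisfies
every `e'` for which `(e, e')` is satisfied; so `∑ e', [(e, e') satisfied] ≤ card H.E * value H` and
`satFrac (prod G H) x y ≤ value H` (`Fintype.sum_prod_type`, `Fintype.card_prod`).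
`value_sq_le`: for a labeling `(x, y)`: `∑ e, [e satisfied] = ∑ u, push G (pt G 1 x) u (y u)` (`push` with `pt G 1 x`
counts the edges `e` at `u` with `map e (x (src e)) = b`), and with `m = card E`, `∑ u, deg u = m`:
`(∑ u, push u (y u)) ^ 2 ≤ (∑ u, deg u) * ∑ u, push u (y u) ^ 2 / deg u ≤ m ^ 2 * form G (pt G 1 x)`
(Cauchy-Schwarz, `Finset.sum_sq_le_sum_mul_sum_of_sq_eq_mul`; vertices of degree `0` have `push = 0`; compare
`Pool.Agent.Lib.P325r.Basic`). `coll_one_le`: one edge, `form one (pt one 1 x) = 1`.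
-/

open Finset
open scoped BigOperators Classical

namespace Pool.Agent.P325pa

theorem satFrac_nonneg (G : Game) (x : G.V → G.A) (y : G.U → G.B) : 0 ≤ satFrac G x y := by
  unfold satFrac
  refine div_nonneg (Finset.sum_nonneg fun e _ => ?_) (Nat.cast_nonneg _)
  split_ifs <;> norm_num

theorem satFrac_le_one (G : Game) (x : G.V → G.A) (y : G.U → G.B) : satFrac G x y ≤ 1 := by
  unfold satFrac
  have hc : (0 : ℝ) < Fintype.card G.E := Nat.cast_pos.mpr Fintype.card_pos
  rw [div_le_one hc]
  calc (∑ e, if G.map e (x (G.src e)) = y (G.dst e) then (1 : ℝ) else 0)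
      ≤ ∑ _e : G.E, (1 : ℝ) := Finset.sum_le_sum fun e _ => by split_ifs <;> norm_num
    _ = Fintype.card G.E := by simp

theorem le_value (G : Game) (x : G.V → G.A) (y : G.U → G.B) : satFrac G x y ≤ value G := by
  unfold value
  have hb : BddAbove (Set.range fun p : (G.V → G.A) × (G.U → G.B) => satFrac G p.1 p.2) := by
    refine ⟨1, ?_⟩
    rintro _ ⟨p, rfl⟩
    exact satFrac_le_one G p.1 p.2
  exact le_ciSup hb (x, y)

theorem value_le (G : Game) (c : ℝ) (h : ∀ x y, satFrac G x y ≤ c) : value G ≤ c := by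
  unfold value
  exact ciSup_le fun p => h p.1 p.2

theorem value_nonneg (G : Game) : 0 ≤ value G :=
  (satFrac_nonneg G (fun _ => Classical.arbitrary _) (fun _ => Classical.arbitrary _)).trans
    (le_value G _ _)

theorem value_le_one (G : Game) : value G ≤ 1 := value_le G 1 (satFrac_le_one G)

theorem value_prod_le (G H : Game) : value (prod G H) ≤ value H := by
  refine value_le _ _ fun x y => ?_
  have hG : (0 : ℝ) < Fintype.card G.E := Nat.cast_pos.mpr Fintype.card_pos
  have hH : (0 : ℝ) < Fintype.card H.E := Nat.cast_pos.mpr Fintype.card_pos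
  have hcard : (Fintype.card (prod G H).E : ℝ) = Fintype.card G.E * Fintype.card H.E := by
    have : Fintype.card (prod G H).E = Fintype.card (G.E × H.E) := rfl
    rw [this, Fintype.card_prod]
    push_cast
    rfl
  have hsum : (∑ e : (prod G H).E, if (prod G H).map e (x ((prod G H).src e)) = y ((prod G H).dst e)
      then (1 : ℝ) else 0) ≤ ∑ _e : G.E, (Fintype.card H.E : ℝ) * value H := by
    let F : G.E × H.E → ℝ := fun e =>
      if (prod G H).map e (x ((prod G H).src e)) = y ((prod G H).dst e) then (1 : ℝ) else 0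
    have h1 : (∑ e : (prod G H).E, if (prod G H).map e (x ((prod G H).src e)) =
        y ((prod G H).dst e) then (1 : ℝ) else 0) = ∑ e : G.E, ∑ e' : H.E, F (e, e') :=
      Fintype.sum_prod_type F
    rw [h1]
    refine Finset.sum_le_sum fun e _ => ?_
    have h2 := le_value H (fun v' => (x (G.src e, v')).2) (fun u' => (y (G.dst e, u')).2)
    unfold satFrac at h2
    rw [div_le_iff₀ hH] at h2
    rw [mul_comm]
    refine le_trans (Finset.sum_le_sum fun e' _ => ?_) h2
    show (if (prod G H).map (e, e') (x ((prod G H).src (e, e'))) = y ((prod G H).dst (e, e'))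
      then (1 : ℝ) else 0) ≤ _
    by_cases hc : (prod G H).map (e, e') (x ((prod G H).src (e, e'))) = y ((prod G H).dst (e, e'))
    · have hc2 : H.map e' (x (G.src e, H.src e')).2 = (y (G.dst e, H.dst e')).2 :=
        congrArg Prod.snd hc
      rw [if_pos hc, if_pos hc2]
    · rw [if_neg hc]
      split_ifs <;> norm_num
  unfold satFrac
  rw [hcard, div_le_iff₀ (mul_pos hG hH)]
  refine hsum.trans (le_of_eq ?_)
  rw [Finset.sum_const, Finset.card_univ, nsmul_eq_mul]
  ring

theorem form_nonneg (G : Game) (f : G.V → G.A → ℝ) : 0 ≤ form G f := by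
  unfold form
  refine Finset.sum_nonneg fun u _ => div_nonneg (Finset.sum_nonneg fun b _ => sq_nonneg _) ?_
  positivity

theorem form_le_coll (G : Game) (x : G.V → G.A) : form G (pt G 1 x) ≤ coll G := by
  unfold coll
  exact le_ciSup (Set.finite_range fun x : G.V → G.A => form G (pt G 1 x)).bddAbove x

theorem coll_nonneg (G : Game) : 0 ≤ coll G :=
  (form_nonneg G _).trans (form_le_coll G fun _ => Classical.arbitrary _)

namespace BasicAux

theorem push_pt (G : Game) (x : G.V → G.A) (u : G.U) (b : G.B) :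
    push G (pt G 1 x) u b =
      ∑ e, if G.dst e = u then (if G.map e (x (G.src e)) = b then (1 : ℝ) else 0) else 0 := by
  unfold push pt
  refine Finset.sum_congr rfl fun e _ => ?_
  split_ifs with h1 h2
  · rw [Finset.sum_eq_single (x (G.src e))]
    · simp [h2]
    · intro a _ ha
      simp [ha]
    · intro h
      exact absurd (Finset.mem_univ _) h
  · refine Finset.sum_eq_zero fun a _ => ?_
    by_cases ha : a = x (G.src e)
    · rw [ha, if_neg h2]
    · simp [ha]
  · rfl

theorem sum_deg (G : Game) : (∑ u, (deg G u : ℝ)) = (Fintype.card G.E : ℝ) := by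
  have h := Finset.card_eq_sum_card_fiberwise (s := (Finset.univ : Finset G.E))
    (t := (Finset.univ : Finset G.U)) (f := G.dst) (fun e _ => Finset.mem_coe.mpr (Finset.mem_univ _))
  have h2 : (Fintype.card G.E : ℕ) = ∑ u, deg G u := h
  rw [h2]
  push_cast
  rfl

theorem satFrac_sq_le (G : Game) (x : G.V → G.A) (y : G.U → G.B) :
    satFrac G x y ^ 2 ≤ form G (pt G 1 x) := by
  have hm : (0 : ℝ) < Fintype.card G.E := Nat.cast_pos.mpr Fintype.card_pos
  set m : ℝ := (Fintype.card G.E : ℝ) with hmdef
  set p : G.U → ℝ := fun u => push G (pt G 1 x) u (y u) with hp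
  have hN : (∑ e, if G.map e (x (G.src e)) = y (G.dst e) then (1 : ℝ) else 0) = ∑ u, p u := by
    have h1 : ∀ u, p u = ∑ e, if G.dst e = u then
        (if G.map e (x (G.src e)) = y (G.dst e) then (1 : ℝ) else 0) else 0 := by
      intro u
      rw [hp]
      show push G (pt G 1 x) u (y u) = _
      rw [push_pt]
      refine Finset.sum_congr rfl fun e _ => ?_
      split_ifs with h1 h2 h3 h4
      · rfl
      · exact absurd (h1 ▸ h2) (h1 ▸ h3)
      · exact absurd (h1 ▸ h4) (h1 ▸ h2)
      · rfl
      · rfl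
    rw [Finset.sum_congr rfl fun u _ => h1 u, Finset.sum_comm]
    refine Finset.sum_congr rfl fun e _ => ?_
    rw [Finset.sum_ite_eq]
    simp
  have hzero : ∀ u, deg G u = 0 → p u = 0 := by
    intro u hu
    rw [hp]
    show push G (pt G 1 x) u (y u) = 0
    rw [push_pt]
    unfold deg at hu
    rw [Finset.card_eq_zero, Finset.filter_eq_empty_iff] at hu
    refine Finset.sum_eq_zero fun e _ => ?_
    rw [if_neg (hu (Finset.mem_univ e))]
  have hcs := Finset.sum_sq_le_sum_mul_sum_of_sq_le_mul (Finset.univ : Finset G.U)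
    (r := p) (f := fun u => (deg G u : ℝ)) (g := fun u => p u ^ 2 / deg G u)
    (fun u _ => Nat.cast_nonneg _) (fun u _ => by positivity)
    (fun u _ => by
      by_cases h : deg G u = 0
      · rw [hzero u h, h]; simp
      · have : (deg G u : ℝ) ≠ 0 := Nat.cast_ne_zero.mpr h
        exact le_of_eq (by field_simp))
  rw [sum_deg G, ← hmdef] at hcs
  have hle : (∑ u, p u ^ 2 / deg G u) ≤ m * form G (pt G 1 x) := by
    unfold form
    rw [Finset.mul_sum]
    refine Finset.sum_le_sum fun u _ => ?_
    have hsq : p u ^ 2 ≤ ∑ b, push G (pt G 1 x) u b ^ 2 :=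
      Finset.single_le_sum (f := fun b => push G (pt G 1 x) u b ^ 2)
        (fun b _ => sq_nonneg _) (Finset.mem_univ (y u))
    rw [← hmdef]
    rw [show m * ((∑ b, push G (pt G 1 x) u b ^ 2) / (m * deg G u)) =
      (∑ b, push G (pt G 1 x) u b ^ 2) / deg G u by
        rw [mul_div_assoc', mul_div_mul_left _ _ hm.ne']]
    exact div_le_div_of_nonneg_right hsq (Nat.cast_nonneg _)
  unfold satFrac
  rw [hN, ← hmdef, div_pow, div_le_iff₀ (by positivity)]
  calc (∑ u, p u) ^ 2 ≤ m * ∑ u, p u ^ 2 / deg G u := hcs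
    _ ≤ m * (m * form G (pt G 1 x)) := mul_le_mul_of_nonneg_left hle hm.le
    _ = form G (pt G 1 x) * m ^ 2 := by ring

end BasicAux

theorem coll_one_le : coll one ≤ 1 := by
  unfold coll
  have hne : Nonempty (one.V → one.A) := ⟨fun _ => Classical.arbitrary _⟩
  have hss : ∀ a b : Unit, a = b := fun a b => Subsingleton.elim a b
  refine ciSup_le fun x => ?_
  have hE : Fintype.card one.E = 1 := by
    show Fintype.card Unit = 1
    simp
  have hd : ∀ u, deg one u = 1 := by
    intro u
    have h1 := BasicAux.sum_deg one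
    have hs : Subsingleton one.U := ⟨hss⟩
    rw [Fintype.sum_subsingleton _ u, hE] at h1
    exact_mod_cast h1
  have hp : ∀ u b, push one (pt one 1 x) u b = 1 := by
    intro u b
    rw [BasicAux.push_pt]
    have h1 : ∀ e ∈ (Finset.univ : Finset one.E), (if one.dst e = u then
        (if one.map e (x (one.src e)) = b then (1 : ℝ) else 0) else 0) = 1 := fun e _ => by
      split_ifs with h1 h2
      · rfl
      · exact absurd (hss (one.map e (x (one.src e))) b) h2
      · exact absurd (hss (one.dst e) u) h1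
    rw [Finset.sum_congr rfl h1, Finset.sum_const, Finset.card_univ, hE]
    simp
  have hf : form one (pt one 1 x) = ∑ _u : Unit, (∑ _b : Unit, (1 : ℝ) ^ 2) / ((1 : ℝ) * 1) := by
    unfold form
    rw [hE]
    refine Finset.sum_congr rfl fun u _ => ?_
    rw [hd u, Nat.cast_one]
    congr 1
    exact Finset.sum_congr rfl fun b _ => by rw [hp u b]
  rw [hf]
  simp

theorem value_sq_le (G : Game) : value G ^ 2 ≤ coll G := by
  have h : value G ≤ Real.sqrt (coll G) := value_le G _ fun x y =>
    Real.le_sqrt_of_sq_le ((BasicAux.satFrac_sq_le G x y).trans (form_le_coll G x))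
  calc value G ^ 2 ≤ Real.sqrt (coll G) ^ 2 := pow_le_pow_left₀ (value_nonneg G) h 2
    _ = coll G := Real.sq_sqrt (coll_nonneg G)

end Pool.Agent.P325pa
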