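import Mathlib

/-!
# P325pa.Shift (0.8 h): generic shifts

`exists_shift`: in a system of equations `x (src e) + c e = y (dst e)` over `ZMod (n + 1)` with generic shifts `c` no
labeling satisfies more equations than there are vertices. Proof: `m = card E`, `N = card V + card U`; if `m ≤ N` any `c`
works. Let `m ≥ N + 1`, `n = 2 ^ m`, `K = n + 1`. If the claim fails, for every `c` there are `x`, `y` and a set `F` of
exactly `N + 1` edges such that `c e = y (dst e) - x (src e)` for all `e ∈ F`. For fixed `(x, y, F)` there are
`K ^ (m - N - 1)` such `c` (`Fintype.piFinset (fun e => if e ∈ F then {g e} else univ)`, `Fintype.card_piFinset`). So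
`K ^ m ≤ K ^ N * 2 ^ m * K ^ (m - N - 1)` (`Finset.card_biUnion_le`, at most `2 ^ m` sets `F`, `K ^ N` pairs `(x, y)`), hence
`K ≤ 2 ^ m`, a contradiction.
-/

open Finset
open scoped BigOperators Classical

namespace Pool.Agent.P325pa

theorem exists_shift {V U E : Type} [Fintype V] [Fintype U] [Fintype E] (src : E → V)
    (dst : E → U) :
    ∃ (n : ℕ) (c : E → ZMod (n + 1)), ∀ (x : V → ZMod (n + 1)) (y : U → ZMod (n + 1)),
      (univ.filter fun e => x (src e) + c e = y (dst e)).card ≤
        Fintype.card V + Fintype.card U := by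
  obtain ⟨N, hN⟩ : ∃ N, N = Fintype.card V + Fintype.card U := ⟨_, rfl⟩
  rw [← hN]
  rcases Nat.lt_or_ge N (Fintype.card E) with hlt | hle
  · refine ⟨2 ^ Fintype.card E, ?_⟩
    by_contra hcon
    push Not at hcon
    obtain ⟨K, hK⟩ : ∃ K, K = 2 ^ Fintype.card E + 1 := ⟨_, rfl⟩
    have hcov : (univ : Finset (E → ZMod (2 ^ Fintype.card E + 1))) ⊆
        ((univ : Finset (V → ZMod (2 ^ Fintype.card E + 1))) ×ˢ
          ((univ : Finset (U → ZMod (2 ^ Fintype.card E + 1))) ×ˢ
          ((univ : Finset E).powersetCard (N + 1)))).biUnion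
        (fun t => Fintype.piFinset (fun e => if e ∈ t.2.2 then {t.2.1 (dst e) - t.1 (src e)}
          else univ)) := by
      intro c _
      obtain ⟨x, y, hxy⟩ := hcon c
      obtain ⟨F, hF1, hF2⟩ := Finset.exists_subset_card_eq (Nat.succ_le_of_lt hxy)
      rw [mem_biUnion]
      refine ⟨(x, y, F), ?_, ?_⟩
      · rw [mem_product, mem_product, mem_powersetCard]
        exact ⟨mem_univ _, mem_univ _, subset_univ _, hF2⟩
      · rw [Fintype.mem_piFinset]
        intro e
        by_cases he : e ∈ F
        · simp only [he, if_true, mem_singleton]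
          have h1 := (mem_filter.1 (hF1 he)).2
          rw [← h1]
          ring
        · simp only [he, if_false, mem_univ]
    have h1 := card_le_card hcov
    have h2 := h1.trans card_biUnion_le
    have h3 : ∀ t ∈ ((univ : Finset (V → ZMod (2 ^ Fintype.card E + 1))) ×ˢ
          ((univ : Finset (U → ZMod (2 ^ Fintype.card E + 1))) ×ˢ
          ((univ : Finset E).powersetCard (N + 1)))),
        (Fintype.piFinset (fun e => if e ∈ t.2.2 then {t.2.1 (dst e) - t.1 (src e)}
          else (univ : Finset (ZMod (2 ^ Fintype.card E + 1))))).card =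
          K ^ (Fintype.card E - (N + 1)) := by
      intro t ht
      rw [mem_product, mem_product, mem_powersetCard] at ht
      rw [Fintype.card_piFinset]
      have e1 : ∀ e, (if e ∈ t.2.2 then ({t.2.1 (dst e) - t.1 (src e)} :
          Finset (ZMod (2 ^ Fintype.card E + 1))) else univ).card =
          if e ∈ t.2.2 then 1 else K := by
        intro e
        split_ifs
        · exact card_singleton _
        · rw [card_univ, ZMod.card, hK]
      rw [prod_congr rfl (fun e _ => e1 e), prod_ite, prod_const_one, one_mul, prod_const]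
      congr 1
      have e2 : (univ.filter fun e => ¬ e ∈ t.2.2) = t.2.2ᶜ := by
        ext e
        simp
      rw [e2, card_compl, ht.2.2.2]
    rw [sum_congr rfl h3, sum_const, card_product, card_product, card_powersetCard, card_univ,
      card_univ, card_univ, card_univ, Fintype.card_fun, Fintype.card_fun, Fintype.card_fun,
      ZMod.card, smul_eq_mul, ← hK] at h2
    have h4 : (Fintype.card E).choose (N + 1) ≤ 2 ^ Fintype.card E := Nat.choose_le_two_pow _ _
    have h5 : K ^ Fintype.card V * (K ^ Fintype.card U * (Fintype.card E).choose (N + 1)) *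
        K ^ (Fintype.card E - (N + 1)) ≤ K ^ Fintype.card V * (K ^ Fintype.card U *
        2 ^ Fintype.card E) * K ^ (Fintype.card E - (N + 1)) := by gcongr
    have h6 := h2.trans h5
    have h7 : K ^ Fintype.card E = K ^ N * K ^ (Fintype.card E - (N + 1)) * K := by
      rw [← pow_add, ← pow_succ]
      congr 1
      omega
    have h8 : K ^ Fintype.card V * (K ^ Fintype.card U * 2 ^ Fintype.card E) *
        K ^ (Fintype.card E - (N + 1)) = K ^ N * K ^ (Fintype.card E - (N + 1)) *
        2 ^ Fintype.card E := by
      rw [hN, pow_add]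
      ring
    rw [h7, h8] at h6
    have hK0 : 0 < K := by rw [hK]; exact Nat.succ_pos _
    have h9 := Nat.le_of_mul_le_mul_left h6 (Nat.mul_pos (pow_pos hK0 _) (pow_pos hK0 _))
    omega
  · refine ⟨0, fun _ => 0, fun x y => ?_⟩
    exact (card_le_univ _).trans hle

end Pool.Agent.P325pa
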