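import Mathlib

/-!
# P325pa.WordDef: reduced words and the involutions

`W d R`: reduced words (no letter twice in a row) of length at most `R + 1` over `Fin (d + 1)`. `stp i` removes the first
letter if it is `i`, and puts `i` in front if it is not and the length is at most `R`.
-/

open Finset
open scoped BigOperators Classical

namespace Pool.Agent.P325pa

/-- no letter twice in a row -/
def red {L : Type} : List L → Prop
  | [] => True
  | [_] => True
  | i :: j :: l => i ≠ j ∧ red (j :: l)

/-- reduced words of length at most `R + 1` -/
def W (d R : ℕ) : Type := {w : List (Fin (d + 1)) // red w ∧ w.length ≤ R + 1}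

/-- the empty word -/
def nilW (d R : ℕ) : W d R := ⟨[], trivial, Nat.zero_le _⟩

/-- left multiplication by a letter, with cancellation -/
def cns {L : Type} [DecidableEq L] (i : L) (p : List L) : List L :=
  if p.head? = some i then p.tail else i :: p

/-- the word `cns i w`, or `w` if it is too long -/
noncomputable def stp {d R : ℕ} (i : Fin (d + 1)) (w : W d R) : W d R :=
  if h : red (cns i w.1) ∧ (cns i w.1).length ≤ R + 1 then ⟨cns i w.1, h⟩ else w

end Pool.Agent.P325pa
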