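import Mathlib
import Pool.Agent.Lib.P325pa.WordDef

/-!
# P325pa.Word: the permutations of the ball

`W` is finite. `cns i p` is reduced if `p` is, `cns i (cns i p) = p` for reduced `p`; so `stp i (stp i w) = w`.
`sg i : Equiv.Perm (W d R)` is this involution, `act p = (p.map sg).prod`.
-/

open Finset
open scoped BigOperators Classical

namespace Pool.Agent.P325pa

instance instFiniteW (d R : ℕ) : Finite (W d R) := by
  have h : Finite {l : List (Fin (d + 1)) | l.length ≤ R + 1} :=
    (List.finite_length_le (Fin (d + 1)) (R + 1)).to_subtype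
  exact Finite.of_injective
    (fun w : W d R => (⟨w.1, w.2.2⟩ : {l : List (Fin (d + 1)) | l.length ≤ R + 1}))
    (fun a b hab => Subtype.ext (by
      have h' := congrArg (fun z : {l : List (Fin (d + 1)) | l.length ≤ R + 1} => z.1) hab
      exact h'))

noncomputable instance instFintypeW (d R : ℕ) : Fintype (W d R) := Fintype.ofFinite _

theorem red_of_cons {L : Type} {i : L} {p : List L} (h : red (i :: p)) : red p := by
  cases p with
  | nil => trivial
  | cons j q => exact h.2

theorem head_of_cons {L : Type} {i : L} {p : List L} (h : red (i :: p)) : p.head? ≠ some i := by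
  cases p with
  | nil => simp
  | cons j q =>
    intro h'
    have : j = i := by simpa using h'
    exact h.1 this.symm

theorem red_cons {L : Type} {i : L} {p : List L} (h : red p) (hi : p.head? ≠ some i) :
    red (i :: p) := by
  cases p with
  | nil => trivial
  | cons j q =>
    refine ⟨fun hij => hi ?_, h⟩
    rw [hij]
    rfl

theorem cns_cons {L : Type} [DecidableEq L] (i : L) (p : List L) : cns i (i :: p) = p := by
  have h : (i :: p).head? = some i := rfl
  unfold cns
  rw [if_pos h]
  rfl

theorem cns_ne {L : Type} [DecidableEq L] {i : L} {p : List L} (h : p.head? ≠ some i) :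
    cns i p = i :: p := by
  unfold cns
  rw [if_neg h]

theorem eq_cons_of_head {L : Type} {i : L} {p : List L} (h : p.head? = some i) :
    ∃ q, p = i :: q := by
  cases p with
  | nil => simp at h
  | cons j q =>
    have : j = i := by simpa using h
    exact ⟨q, by rw [this]⟩

theorem red_cns {L : Type} [DecidableEq L] (i : L) (p : List L) (h : red p) : red (cns i p) := by
  by_cases hi : p.head? = some i
  · obtain ⟨q, rfl⟩ := eq_cons_of_head hi
    rw [cns_cons]
    exact red_of_cons h
  · rw [cns_ne hi]
    exact red_cons h hi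

theorem cns_cns {L : Type} [DecidableEq L] (i : L) (p : List L) (h : red p) :
    cns i (cns i p) = p := by
  by_cases hi : p.head? = some i
  · obtain ⟨q, rfl⟩ := eq_cons_of_head hi
    rw [cns_cons, cns_ne (head_of_cons h)]
  · rw [cns_ne hi, cns_cons]

theorem stp_of_le {d R : ℕ} (i : Fin (d + 1)) (w : W d R) (h : (cns i w.1).length ≤ R + 1) :
    (stp i w).1 = cns i w.1 := by
  unfold stp
  rw [dif_pos ⟨red_cns i w.1 w.2.1, h⟩]

theorem stp_of_not {d R : ℕ} (i : Fin (d + 1)) (w : W d R) (h : ¬ (cns i w.1).length ≤ R + 1) :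
    stp i w = w := by
  unfold stp
  rw [dif_neg fun h' => h h'.2]

theorem stp_stp {d R : ℕ} (i : Fin (d + 1)) (w : W d R) : stp i (stp i w) = w := by
  by_cases h : (cns i w.1).length ≤ R + 1
  · have h1 := stp_of_le i w h
    have h2 : cns i (stp i w).1 = w.1 := by rw [h1, cns_cns i w.1 w.2.1]
    apply Subtype.ext
    rw [stp_of_le i (stp i w) (by rw [h2]; exact w.2.2), h2]
  · rw [stp_of_not i w h, stp_of_not i w h]

/-- the involution of the letter `i` -/
noncomputable def sg {d R : ℕ} (i : Fin (d + 1)) : Equiv.Perm (W d R) :=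
  ⟨stp i, stp i, fun w => stp_stp i w, fun w => stp_stp i w⟩

/-- the permutation of a word -/
noncomputable def act {d R : ℕ} (p : List (Fin (d + 1))) : Equiv.Perm (W d R) := (p.map sg).prod

theorem sg_mul_self {d R : ℕ} (i : Fin (d + 1)) : (sg i : Equiv.Perm (W d R)) * sg i = 1 := by
  ext1 w
  exact stp_stp i w

theorem act_cons {d R : ℕ} (i : Fin (d + 1)) (p : List (Fin (d + 1))) :
    (act (i :: p) : Equiv.Perm (W d R)) = sg i * act p := by
  unfold act
  rw [List.map_cons, List.prod_cons]

theorem act_cns {d R : ℕ} (i : Fin (d + 1)) (p : List (Fin (d + 1))) :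
    (act (cns i p) : Equiv.Perm (W d R)) = sg i * act p := by
  by_cases hi : p.head? = some i
  · obtain ⟨q, rfl⟩ := eq_cons_of_head hi
    rw [cns_cons, act_cons, ← mul_assoc, sg_mul_self, one_mul]
  · rw [cns_ne hi, act_cons]

theorem act_nil {d R : ℕ} (p : List (Fin (d + 1))) (h : red p) (hl : p.length ≤ R + 1) :
    ((act p : Equiv.Perm (W d R)) (nilW d R)).1 = p := by
  induction p with
  | nil => rfl
  | cons i p ih =>
    have hl' : p.length + 1 ≤ R + 1 := by simpa using hl
    have hp := ih (red_of_cons h) (by omega)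
    rw [act_cons, Equiv.Perm.mul_apply]
    have hc : cns i ((act p : Equiv.Perm (W d R)) (nilW d R)).1 = i :: p := by
      rw [hp, cns_ne (head_of_cons h)]
    have hs : (stp i ((act p : Equiv.Perm (W d R)) (nilW d R))).1 = i :: p := by
      rw [stp_of_le i _ (by rw [hc]; simpa using hl), hc]
    exact hs

end Pool.Agent.P325pa
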