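import Mathlib
import Pool.Agent.Lib.P325pa.Word

/-!
# P325pa.Sums (0.9 h): sums over reduced words

Let `N n i` be the number of reduced words of length `n` (letters `Fin (d + 1)`) that do not start with `i`:
`N 0 i = 1`, `N (n + 1) i = ∑ (j ≠ i), N n j` (first letter `j`, the rest does not start with `j`), so `N n i = d ^ n`.
The words of length `n + 1` that start with `i` are `i :: q`, `q` of length `n` not starting with `i`: `d ^ n` of them.
`sum_up`: `∑ n < R, d ^ n * (1 / d ^ n) = R`. `sum_dn`: `∑ n < R, d ^ n * (1 / d ^ (n + 1)) = R / d`.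
`sum_all`: words of length `≤ R`: the empty word, and for `1 ≤ n ≤ R` there are `(d + 1) d ^ (n - 1)`:
`1 + R (d + 1) / d ≤ (R + 1) (d + 1) / d`.
(All sums are over the type `W d R`; the words of length `n ≤ R + 1` in it are all reduced words of length `n`.
It may be convenient to count with a recursive `Finset (List _)` and `Finset.card_biUnion`, or to prove the sums by
induction on `R` with `Finset.sum_bij`.)
-/

open Finset
open scoped BigOperators Classical

namespace Pool.Agent.P325pa

namespace SumsAux

variable {d : ℕ}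

/-- the reduced words of length `n` -/
noncomputable def RW (d : ℕ) : ℕ → Finset (List (Fin (d + 1)))
  | 0 => {[]}
  | n + 1 => Finset.univ.biUnion fun i =>
      ((RW d n).filter fun q => q.head? ≠ some i).image (List.cons i)

theorem RW_succ (n : ℕ) : RW d (n + 1) = Finset.univ.biUnion fun i =>
    ((RW d n).filter fun q => q.head? ≠ some i).image (List.cons i) := rfl

theorem red_cons_iff {L : Type} (i : L) (q : List L) :
    red (i :: q) ↔ q.head? ≠ some i ∧ red q := by
  cases q with
  | nil => simp [red]
  | cons j l =>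
    constructor
    · intro h
      have h' : i ≠ j ∧ red (j :: l) := h
      refine ⟨?_, h'.2⟩
      simpa using fun hc : j = i => h'.1 hc.symm
    · intro h
      have h1 : j ≠ i := by simpa using h.1
      exact (show i ≠ j ∧ red (j :: l) from ⟨fun hc => h1 hc.symm, h.2⟩)

theorem mem_RW (n : ℕ) (l : List (Fin (d + 1))) : l ∈ RW d n ↔ red l ∧ l.length = n := by
  induction n generalizing l with
  | zero =>
    unfold RW
    rw [Finset.mem_singleton, List.length_eq_zero_iff]
    constructor
    · intro h
      subst h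
      exact ⟨trivial, rfl⟩
    · exact fun h => h.2
  | succ n ih =>
    rw [RW_succ, Finset.mem_biUnion]
    constructor
    · rintro ⟨i, _, hi⟩
      rw [Finset.mem_image] at hi
      obtain ⟨q, hq, rfl⟩ := hi
      rw [Finset.mem_filter, ih] at hq
      exact ⟨(red_cons_iff i q).mpr ⟨hq.2, hq.1.1⟩, by rw [List.length_cons, hq.1.2]⟩
    · rintro ⟨h1, h2⟩
      cases l with
      | nil => simp at h2
      | cons i q =>
        have h3 := (red_cons_iff i q).mp h1
        have h4 : q.length = n := by simpa using h2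
        exact ⟨i, Finset.mem_univ _, Finset.mem_image.mpr ⟨q,
          Finset.mem_filter.mpr ⟨(ih q).mpr ⟨h3.2, h4⟩, h3.1⟩, rfl⟩⟩

theorem card_img (n : ℕ) (i : Fin (d + 1)) (s : Finset (List (Fin (d + 1)))) :
    (s.image (List.cons i)).card = s.card :=
  Finset.card_image_of_injective _ (List.cons_injective)

theorem disj (n : ℕ) (i j : Fin (d + 1)) (hij : i ≠ j) (s t : Finset (List (Fin (d + 1)))) :
    Disjoint (s.image (List.cons i)) (t.image (List.cons j)) := by
  rw [Finset.disjoint_left]
  intro l hl hl2
  rw [Finset.mem_image] at hl hl2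
  obtain ⟨q, _, rfl⟩ := hl
  obtain ⟨q', _, h⟩ := hl2
  exact hij (List.cons.inj h).1.symm

theorem filter_ne (n : ℕ) (i : Fin (d + 1)) :
    (RW d (n + 1)).filter (fun q => q.head? ≠ some i) = (Finset.univ.erase i).biUnion fun j =>
      ((RW d n).filter fun q => q.head? ≠ some j).image (List.cons j) := by
  ext l
  rw [Finset.mem_filter, Finset.mem_biUnion, RW_succ, Finset.mem_biUnion]
  constructor
  · rintro ⟨⟨j, _, hj⟩, h⟩
    refine ⟨j, Finset.mem_erase.mpr ⟨?_, Finset.mem_univ _⟩, hj⟩
    rintro rfl
    rw [Finset.mem_image] at hj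
    obtain ⟨q, _, rfl⟩ := hj
    exact h rfl
  · rintro ⟨j, hj, hl⟩
    refine ⟨⟨j, Finset.mem_univ _, hl⟩, ?_⟩
    rw [Finset.mem_image] at hl
    obtain ⟨q, _, rfl⟩ := hl
    intro hc
    exact (Finset.mem_erase.mp hj).1 (Option.some.inj hc)

theorem card_ne (n : ℕ) (i : Fin (d + 1)) :
    ((RW d n).filter fun q => q.head? ≠ some i).card = d ^ n := by
  induction n generalizing i with
  | zero =>
    unfold RW
    rw [Finset.filter_true_of_mem]
    · simp
    · intro q hq
      rw [Finset.mem_singleton] at hq
      subst hq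
      simp
  | succ n ih =>
    rw [filter_ne, Finset.card_biUnion]
    · rw [Finset.sum_congr rfl fun j _ => (card_img n j _).trans (ih j), Finset.sum_const,
        Finset.card_erase_of_mem (Finset.mem_univ _), Finset.card_univ, Fintype.card_fin]
      simp [pow_succ, mul_comm]
    · intro j _ k _ hjk
      exact disj n j k hjk _ _

theorem card_eq (n : ℕ) (i : Fin (d + 1)) :
    ((RW d (n + 1)).filter fun q => q.head? = some i).card = d ^ n := by
  have h : (RW d (n + 1)).filter (fun q => q.head? = some i) =
      ((RW d n).filter fun q => q.head? ≠ some i).image (List.cons i) := by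
    ext l
    rw [Finset.mem_filter, RW_succ, Finset.mem_biUnion]
    constructor
    · rintro ⟨⟨j, _, hj⟩, h⟩
      have hj' := hj
      rw [Finset.mem_image] at hj
      obtain ⟨q, _, rfl⟩ := hj
      have hji : j = i := Option.some.inj h
      rw [← hji]
      exact hj'
    · intro hl
      refine ⟨⟨i, Finset.mem_univ _, hl⟩, ?_⟩
      rw [Finset.mem_image] at hl
      obtain ⟨q, _, rfl⟩ := hl
      rfl
  rw [h, card_img n, card_ne]

theorem card_all (n : ℕ) : (RW d (n + 1)).card = (d + 1) * d ^ n := by
  rw [RW, Finset.card_biUnion]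
  · rw [Finset.sum_congr rfl fun j _ => (card_img n j _).trans (card_ne n j), Finset.sum_const,
      Finset.card_univ, Fintype.card_fin, smul_eq_mul]
  · intro j _ k _ hjk
    exact disj n j k hjk _ _

theorem sum_W (d R : ℕ) (F : List (Fin (d + 1)) → ℝ) :
    ∑ w : W d R, F w.1 = ∑ n ∈ Finset.range (R + 2), ∑ l ∈ RW d n, F l := by
  rw [← Finset.sum_biUnion]
  · symm
    exact @Finset.sum_subtype _ _ _ (fun w : List (Fin (d + 1)) => red w ∧ w.length ≤ R + 1)
      (instFintypeW d R) ((Finset.range (R + 2)).biUnion (RW d)) (fun l => by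
        rw [Finset.mem_biUnion]
        constructor
        · rintro ⟨n, hn, hl⟩
          rw [mem_RW] at hl
          rw [Finset.mem_range] at hn
          exact ⟨hl.1, by omega⟩
        · rintro ⟨h1, h2⟩
          exact ⟨l.length, Finset.mem_range.mpr (by omega), (mem_RW _ _).mpr ⟨h1, rfl⟩⟩) F
  · intro m _ n _ hmn
    rw [Function.onFun, Finset.disjoint_left]
    intro l hl hl2
    rw [mem_RW] at hl hl2
    exact hmn (hl.2.symm.trans hl2.2)

end SumsAux

theorem sum_up (d R : ℕ) (hd : 1 ≤ d) (i : Fin (d + 1)) :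
    ∑ w : W d R, (if w.1.length < R ∧ w.1.head? ≠ some i then 1 / (d : ℝ) ^ w.1.length else 0)
      = R := by
  have hd0 : (d : ℝ) ≠ 0 := by
    have : d ≠ 0 := by omega
    exact_mod_cast this
  rw [SumsAux.sum_W d R fun l => if l.length < R ∧ l.head? ≠ some i then 1 / (d : ℝ) ^ l.length else 0]
  have h : ∀ n ∈ Finset.range (R + 2), (∑ l ∈ SumsAux.RW d n,
      if l.length < R ∧ l.head? ≠ some i then 1 / (d : ℝ) ^ l.length else 0) =
      if n < R then (1 : ℝ) else 0 := by
    intro n _
    by_cases hn : n < R
    · rw [if_pos hn]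
      have h1 : (∑ l ∈ SumsAux.RW d n, if l.length < R ∧ l.head? ≠ some i then 1 / (d : ℝ) ^ l.length
          else 0) = ∑ l ∈ (SumsAux.RW d n).filter (fun q => q.head? ≠ some i), 1 / (d : ℝ) ^ n := by
        rw [Finset.sum_filter]
        refine Finset.sum_congr rfl fun l hl => ?_
        have hlen := ((SumsAux.mem_RW n l).mp hl).2
        by_cases hh : l.head? = some i
        · rw [if_neg (fun hc => hc.2 hh), if_neg (fun hc => hc hh)]
        · rw [if_pos ⟨by rw [hlen]; exact hn, hh⟩, if_pos hh, hlen]
      rw [h1, Finset.sum_const, SumsAux.card_ne, nsmul_eq_mul]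
      push_cast
      field_simp
    · rw [if_neg hn]
      refine Finset.sum_eq_zero fun l hl => ?_
      have hlen := ((SumsAux.mem_RW n l).mp hl).2
      rw [if_neg (fun hc => hn (by rw [← hlen]; exact hc.1))]
  rw [Finset.sum_congr rfl h, Finset.sum_range_succ, Finset.sum_range_succ,
    if_neg (by omega), if_neg (by omega), add_zero, add_zero,
    Finset.sum_congr rfl fun n hn => if_pos (Finset.mem_range.mp hn)]
  simp

theorem sum_dn (d R : ℕ) (hd : 1 ≤ d) (i : Fin (d + 1)) :
    ∑ w : W d R, (if w.1.length ≤ R ∧ w.1.head? = some i then 1 / (d : ℝ) ^ w.1.length else 0)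
      = R / d := by
  have hd0 : (d : ℝ) ≠ 0 := by
    have : d ≠ 0 := by omega
    exact_mod_cast this
  rw [SumsAux.sum_W d R fun l => if l.length ≤ R ∧ l.head? = some i then 1 / (d : ℝ) ^ l.length else 0,
    Finset.sum_range_succ']
  have h0 : (∑ l ∈ SumsAux.RW d 0,
      if l.length ≤ R ∧ l.head? = some i then 1 / (d : ℝ) ^ l.length else 0) = 0 := by
    refine Finset.sum_eq_zero fun l hl => ?_
    have hlen := ((SumsAux.mem_RW 0 l).mp hl).2
    rw [List.length_eq_zero_iff] at hlen
    subst hlen
    rw [if_neg (fun hc => by simp at hc)]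
  have h : ∀ n ∈ Finset.range (R + 1), (∑ l ∈ SumsAux.RW d (n + 1),
      if l.length ≤ R ∧ l.head? = some i then 1 / (d : ℝ) ^ l.length else 0) =
      if n < R then (1 : ℝ) / d else 0 := by
    intro n _
    by_cases hn : n < R
    · rw [if_pos hn]
      have h1 : (∑ l ∈ SumsAux.RW d (n + 1), if l.length ≤ R ∧ l.head? = some i then
          1 / (d : ℝ) ^ l.length else 0) =
          ∑ l ∈ (SumsAux.RW d (n + 1)).filter (fun q => q.head? = some i), 1 / (d : ℝ) ^ (n + 1) := by
        rw [Finset.sum_filter]
        refine Finset.sum_congr rfl fun l hl => ?_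
        have hlen := ((SumsAux.mem_RW (n + 1) l).mp hl).2
        by_cases hh : l.head? = some i
        · rw [if_pos ⟨by omega, hh⟩, if_pos hh, hlen]
        · rw [if_neg (fun hc => hh hc.2), if_neg hh]
      rw [h1, Finset.sum_const, SumsAux.card_eq, nsmul_eq_mul]
      push_cast
      field_simp
      ring
    · rw [if_neg hn]
      refine Finset.sum_eq_zero fun l hl => ?_
      have hlen := ((SumsAux.mem_RW (n + 1) l).mp hl).2
      rw [if_neg (fun hc => hn (by have := hc.1; omega))]
  rw [h0, Finset.sum_congr rfl h, Finset.sum_range_succ, if_neg (by omega), add_zero, add_zero,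
    Finset.sum_congr rfl fun n hn => if_pos (Finset.mem_range.mp hn)]
  rw [Finset.sum_const, Finset.card_range, nsmul_eq_mul]
  ring

theorem sum_all (d R : ℕ) (hd : 1 ≤ d) :
    ∑ w : W d R, (if w.1.length ≤ R then 1 / (d : ℝ) ^ w.1.length else 0)
      ≤ (R + 1) * (d + 1) / d := by
  have hd0 : (0 : ℝ) < d := by
    have : 0 < d := by omega
    exact_mod_cast this
  rw [SumsAux.sum_W d R fun l => if l.length ≤ R then 1 / (d : ℝ) ^ l.length else 0,
    Finset.sum_range_succ']
  have h0 : (∑ l ∈ SumsAux.RW d 0, if l.length ≤ R then 1 / (d : ℝ) ^ l.length else 0) = 1 := by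
    rw [SumsAux.RW, Finset.sum_singleton]
    simp
  have h : ∀ n ∈ Finset.range (R + 1), (∑ l ∈ SumsAux.RW d (n + 1),
      if l.length ≤ R then 1 / (d : ℝ) ^ l.length else 0) =
      if n < R then ((d : ℝ) + 1) / d else 0 := by
    intro n _
    by_cases hn : n < R
    · rw [if_pos hn]
      have h1 : (∑ l ∈ SumsAux.RW d (n + 1), if l.length ≤ R then
          1 / (d : ℝ) ^ l.length else 0) = ∑ l ∈ SumsAux.RW d (n + 1), 1 / (d : ℝ) ^ (n + 1) := by
        refine Finset.sum_congr rfl fun l hl => ?_
        have hlen := ((SumsAux.mem_RW (n + 1) l).mp hl).2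
        rw [if_pos (by omega), hlen]
      rw [h1, Finset.sum_const, SumsAux.card_all, nsmul_eq_mul]
      push_cast
      field_simp
      ring
    · rw [if_neg hn]
      refine Finset.sum_eq_zero fun l hl => ?_
      have hlen := ((SumsAux.mem_RW (n + 1) l).mp hl).2
      rw [if_neg (by omega)]
  rw [h0, Finset.sum_congr rfl h, Finset.sum_range_succ, if_neg (by omega), add_zero,
    Finset.sum_congr rfl fun n hn => if_pos (Finset.mem_range.mp hn)]
  rw [Finset.sum_const, Finset.card_range, nsmul_eq_mul, ← mul_div_assoc, div_add_one hd0.ne']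
  refine div_le_div_of_nonneg_right ?_ hd0.le
  nlinarith

end Pool.Agent.P325pa
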