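import Mathlib
import Pool.Agent.Lib.P325pa.Defs

/-!
# P325pa.SysDef: systems of items

An item system of order `k` for a game `G` (parameters `d`, `m`): a finite set `Z` of items, masses `P v`, `Q u` with sum
at most `1`, labels `α v z`, `β u z`. `up e z = some i` says: at the edge `e` the item `z` is consistent and the masses of
the two ends are in the ratio `d ^ (2 i - k)`.
-/

open Finset
open scoped BigOperators Classical

namespace Pool.Agent.P325pa

/-- an item system -/
structure Sys (G : Game) (d m : ℝ) (k : ℕ) where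
  /-- items -/
  Z : Type
  [fZ : Fintype Z]
  [nZ : Nonempty Z]
  P : G.V → Z → ℝ
  Q : G.U → Z → ℝ
  P0 : ∀ v z, 0 ≤ P v z
  Q0 : ∀ u z, 0 ≤ Q u z
  P1 : ∀ v, ∑ z, P v z ≤ 1
  Q1 : ∀ u, ∑ z, Q u z ≤ 1
  α : G.V → Z → G.A
  β : G.U → Z → G.B
  up : G.E → Z → Option ℕ
  ok : ∀ e z i, up e z = some i → G.map e (α (G.src e) z) = β (G.dst e) z
  rel : ∀ e z i, up e z = some i →
    i ≤ k ∧ P (G.src e) z * d ^ (k - i) = Q (G.dst e) z * d ^ i
  mass : ∀ e i, i ≤ k → (k.choose i : ℝ) * d ^ i * m ^ k ≤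
    ∑ z, if up e z = some i then P (G.src e) z else 0

attribute [instance] Sys.fZ Sys.nZ

end Pool.Agent.P325pa
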