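import Mathlib
import Pool.Agent.Lib.P325pa.SysDef
import Pool.Agent.Lib.P325pa.Word
import Pool.Agent.Lib.P325pa.Sums
import Pool.Agent.Lib.P325pa.Shift
import Pool.Agent.Lib.P325pa.Basic

/-!
# P325pa.Cay (1.2 h): the base game

`cay n c`: both sides are `Perm (W d R)`, edges `(g, i)` from `g` to `g * sg i`, labels `ZMod (n + 1)`, constraint
`x g + c (g, i) = y (g * sg i)`. VALUE: `exists_shift` gives `n`, `c` with at most `2 N` satisfied edges of `(d + 1) N`,
`N = card (Perm (W d R))`. SYSTEM (order `1`, `m = R / ((R + 1) (d + 1))`, `C = d / ((R + 1) (d + 1))`): items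
`Z = Perm (W d R)` (centres). For a vertex `g` (either side) and an item `ω` let `p = wrd g ω = ((g⁻¹ * ω) nilW).1` (reduced,
length `≤ R + 1`) and `acc g ω := p.length ≤ R ∧ ω = g * act p`. Masses (both sides) `C / d ^ p.length` if `acc g ω`,
else `0`. Labels: `lab true g p` on the left, `lab false g p` on the right, `p = wrd g ω`.
`up (g, i) ω`: if `acc g ω` then (if `p.head? = some i` then `some 0` else if `p.length < R` then `some 1` else `none`)
else `none`.
For `e = (g, i)`, `h = g * sg i`, `acc g ω`, `p = wrd g ω`: `h⁻¹ * ω = sg i * act p = act (cns i p)` (`act_cns`,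
`sg_mul_self`), so by `act_nil` `wrd h ω = cns i p` (length `≤ R + 1`) and `acc h ω` if its length is `≤ R`.
`p = i :: q`: `lab true g (i :: q) + c (g, i) = lab false h q`; otherwise `lab false h (i :: p) = lab true (h * sg i) p +
c (h * sg i, i) = lab true g p + c (g, i)`. `rel`: lengths differ by `1`. `mass`: the map `w ↦ g * act w.1` is a bijection
from the words `w : W d R` of length `≤ R` to the accepted items (inverse `ω ↦ (g⁻¹ * ω) nilW`), so the sums are
`C * sum_up = C R = d m` (`i = 1`), `C * sum_dn = C R / d = m` (`i = 0`), and `P1`, `Q1` are `C * sum_all ≤ 1`.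
-/

open Finset
open scoped BigOperators Classical

namespace Pool.Agent.P325pa

/-- the label propagated from the centre along a word (`true`: left vertex) -/
noncomputable def lab {d R n : ℕ} (c : Equiv.Perm (W d R) × Fin (d + 1) → ZMod (n + 1)) :
    Bool → Equiv.Perm (W d R) → List (Fin (d + 1)) → ZMod (n + 1)
  | _, _, [] => 0
  | true, g, i :: p => lab c false (g * sg i) p - c (g, i)
  | false, h, i :: p => lab c true (h * sg i) p + c (h * sg i, i)

/-- the game on the Cayley graph -/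
noncomputable def cay {d R : ℕ} (n : ℕ) (c : Equiv.Perm (W d R) × Fin (d + 1) → ZMod (n + 1)) :
    Game where
  V := Equiv.Perm (W d R)
  U := Equiv.Perm (W d R)
  E := Equiv.Perm (W d R) × Fin (d + 1)
  A := ZMod (n + 1)
  B := ZMod (n + 1)
  src e := e.1
  dst e := e.1 * sg e.2
  map e a := a + c e

namespace CayAux

/-- the word of the item seen from the vertex -/
noncomputable def wrd {d R : ℕ} (g ω : Equiv.Perm (W d R)) : List (Fin (d + 1)) :=
  ((g⁻¹ * ω) (nilW d R)).1

/-- the item is accepted at the vertex -/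
def Acc {d R : ℕ} (g ω : Equiv.Perm (W d R)) : Prop :=
  (wrd g ω).length ≤ R ∧ ω = g * act (wrd g ω)

theorem wrd_red {d R : ℕ} (g ω : Equiv.Perm (W d R)) : red (wrd g ω) :=
  ((g⁻¹ * ω) (nilW d R)).2.1

theorem wrd_mul_act {d R : ℕ} (g : Equiv.Perm (W d R)) (p : List (Fin (d + 1))) (h : red p)
    (hl : p.length ≤ R + 1) : wrd g (g * act p) = p := by
  unfold wrd
  rw [inv_mul_cancel_left]
  exact act_nil p h hl

theorem sum_acc {d R : ℕ} (g : Equiv.Perm (W d R)) (F : List (Fin (d + 1)) → ℝ) :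
    ∑ ω, (if Acc g ω then F (wrd g ω) else 0) =
      ∑ w : W d R, if w.1.length ≤ R then F w.1 else 0 := by
  rw [← Finset.sum_filter, ← Finset.sum_filter]
  refine (Finset.sum_nbij' (fun w : W d R => g * act w.1)
    (fun ω => (g⁻¹ * ω) (nilW d R)) ?_ ?_ ?_ ?_ ?_).symm
  · intro w hw
    rw [mem_filter] at hw ⊢
    have h := wrd_mul_act g w.1 w.2.1 w.2.2
    refine ⟨mem_univ _, ?_, ?_⟩
    · rw [h]; exact hw.2
    · rw [h]
  · intro ω hω
    rw [mem_filter] at hω ⊢
    exact ⟨mem_univ _, hω.2.1⟩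
  · intro w _
    exact Subtype.ext (wrd_mul_act g w.1 w.2.1 w.2.2)
  · intro ω hω
    rw [mem_filter] at hω
    exact hω.2.2.symm
  · intro w _
    rw [wrd_mul_act g w.1 w.2.1 w.2.2]

/-- one step along an edge -/
theorem step {d R : ℕ} {g ω : Equiv.Perm (W d R)} (i : Fin (d + 1)) (h : Acc g ω) :
    wrd (g * sg i) ω = cns i (wrd g ω) ∧ ω = g * sg i * act (cns i (wrd g ω)) := by
  have h1 : ω = g * sg i * act (cns i (wrd g ω)) := by
    rw [act_cns, mul_assoc, ← mul_assoc (sg i) (sg i), sg_mul_self, one_mul]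
    exact h.2
  refine ⟨?_, h1⟩
  have h2 : red (cns i (wrd g ω)) := red_cns i _ (wrd_red g ω)
  have h3 : (cns i (wrd g ω)).length ≤ R + 1 := by
    have := h.1
    unfold cns
    split_ifs
    · rw [List.length_tail]; omega
    · rw [List.length_cons]; omega
  conv_lhs => rw [h1]
  exact wrd_mul_act _ _ h2 h3

theorem head_eq {L : Type} {p : List L} {i : L} (h : p.head? = some i) : ∃ q, p = i :: q := by
  cases p with
  | nil => simp at h
  | cons a q =>
    rw [List.head?_cons, Option.some.injEq] at h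
    exact ⟨q, by rw [h]⟩

theorem step_dn {d R : ℕ} {g ω : Equiv.Perm (W d R)} {i : Fin (d + 1)} (h : Acc g ω)
    {q : List (Fin (d + 1))} (hq : wrd g ω = i :: q) :
    wrd (g * sg i) ω = q ∧ Acc (g * sg i) ω := by
  have h1 := step i h
  have h2 : cns i (wrd g ω) = q := by
    rw [hq]
    unfold cns
    rw [if_pos (by rw [List.head?_cons]), List.tail_cons]
  rw [h2] at h1
  refine ⟨h1.1, ?_, ?_⟩
  · rw [h1.1]
    have h3 := h.1
    rw [hq, List.length_cons] at h3
    omega
  · rw [h1.1]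
    exact h1.2

theorem step_up {d R : ℕ} {g ω : Equiv.Perm (W d R)} {i : Fin (d + 1)} (h : Acc g ω)
    (hq : ¬ (wrd g ω).head? = some i) (hl : (wrd g ω).length < R) :
    wrd (g * sg i) ω = i :: wrd g ω ∧ Acc (g * sg i) ω := by
  have h1 := step i h
  have h2 : cns i (wrd g ω) = i :: wrd g ω := by
    unfold cns
    rw [if_neg hq]
  rw [h2] at h1
  refine ⟨h1.1, ?_, ?_⟩
  · rw [h1.1, List.length_cons]
    omega
  · rw [h1.1]
    exact h1.2

/-- the masses -/
noncomputable def ms {d R : ℕ} (C : ℝ) (g ω : Equiv.Perm (W d R)) : ℝ :=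
  if Acc g ω then C / (d : ℝ) ^ (wrd g ω).length else 0

/-- the direction of an item at an edge -/
noncomputable def upp {d R : ℕ} (e : Equiv.Perm (W d R) × Fin (d + 1))
    (ω : Equiv.Perm (W d R)) : Option ℕ :=
  if Acc e.1 ω then
    (if (wrd e.1 ω).head? = some e.2 then some 0
      else if (wrd e.1 ω).length < R then some 1 else none)
  else none

theorem upp_zero {d R : ℕ} (e : Equiv.Perm (W d R) × Fin (d + 1)) (ω : Equiv.Perm (W d R)) :
    upp e ω = some 0 ↔ Acc e.1 ω ∧ (wrd e.1 ω).head? = some e.2 := by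
  unfold upp
  by_cases h1 : Acc e.1 ω
  · by_cases h2 : (wrd e.1 ω).head? = some e.2
    · simp [h1, h2]
    · by_cases h3 : (wrd e.1 ω).length < R
      · simp [h1, h2, h3]
      · simp [h1, h2, h3]
  · simp [h1]

theorem upp_one {d R : ℕ} (e : Equiv.Perm (W d R) × Fin (d + 1)) (ω : Equiv.Perm (W d R)) :
    upp e ω = some 1 ↔ Acc e.1 ω ∧ ¬ (wrd e.1 ω).head? = some e.2 ∧ (wrd e.1 ω).length < R := by
  unfold upp
  by_cases h1 : Acc e.1 ω
  · by_cases h2 : (wrd e.1 ω).head? = some e.2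
    · simp [h1, h2]
    · by_cases h3 : (wrd e.1 ω).length < R
      · simp [h1, h2, h3]
      · simp [h1, h2, h3]
  · simp [h1]

theorem upp_cases {d R : ℕ} {e : Equiv.Perm (W d R) × Fin (d + 1)} {ω : Equiv.Perm (W d R)}
    {i : ℕ} (h : upp e ω = some i) : i = 0 ∨ i = 1 := by
  unfold upp at h
  split_ifs at h
  · left; exact (Option.some.inj h).symm
  · right; exact (Option.some.inj h).symm

theorem ms_nonneg {d R : ℕ} {C : ℝ} (hC : 0 ≤ C) (g ω : Equiv.Perm (W d R)) : 0 ≤ ms C g ω := by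
  unfold ms
  split_ifs
  · positivity
  · exact le_rfl

theorem ms_sum {d R : ℕ} (hd : 1 ≤ d) (g : Equiv.Perm (W d R)) :
    ∑ ω, ms ((d : ℝ) / (((R : ℝ) + 1) * ((d : ℝ) + 1))) g ω ≤ 1 := by
  have hd0 : (0 : ℝ) < d := by exact_mod_cast hd
  have h := sum_acc g (fun p => ((d : ℝ) / (((R : ℝ) + 1) * ((d : ℝ) + 1))) / (d : ℝ) ^ p.length)
  have h1 : ∑ ω, ms ((d : ℝ) / (((R : ℝ) + 1) * ((d : ℝ) + 1))) g ω =
      ((d : ℝ) / (((R : ℝ) + 1) * ((d : ℝ) + 1))) *
        ∑ w : W d R, (if w.1.length ≤ R then 1 / (d : ℝ) ^ w.1.length else 0) := by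
    unfold ms
    rw [h, mul_sum]
    refine sum_congr rfl fun w _ => ?_
    split_ifs
    · rw [mul_one_div]
    · rw [mul_zero]
  rw [h1]
  calc ((d : ℝ) / (((R : ℝ) + 1) * ((d : ℝ) + 1))) *
        ∑ w : W d R, (if w.1.length ≤ R then 1 / (d : ℝ) ^ w.1.length else 0)
      ≤ ((d : ℝ) / (((R : ℝ) + 1) * ((d : ℝ) + 1))) * ((R + 1) * (d + 1) / d) :=
        mul_le_mul_of_nonneg_left (sum_all d R hd) (by positivity)
    _ = 1 := by field_simp

theorem mass_zero {d R : ℕ} (hd : 1 ≤ d) (e : Equiv.Perm (W d R) × Fin (d + 1)) :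
    ∑ ω, (if upp e ω = some 0 then
      ms ((d : ℝ) / (((R : ℝ) + 1) * ((d : ℝ) + 1))) e.1 ω else 0) =
      (R : ℝ) / (((R : ℝ) + 1) * ((d : ℝ) + 1)) := by
  have hd0 : (0 : ℝ) < d := by exact_mod_cast hd
  have h := sum_acc e.1 (fun p => if p.head? = some e.2 then
    ((d : ℝ) / (((R : ℝ) + 1) * ((d : ℝ) + 1))) / (d : ℝ) ^ p.length else 0)
  have h1 : ∑ ω, (if upp e ω = some 0 then
      ms ((d : ℝ) / (((R : ℝ) + 1) * ((d : ℝ) + 1))) e.1 ω else 0) =
      ((d : ℝ) / (((R : ℝ) + 1) * ((d : ℝ) + 1))) *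
        ∑ w : W d R, (if w.1.length ≤ R ∧ w.1.head? = some e.2
          then 1 / (d : ℝ) ^ w.1.length else 0) := by
    rw [mul_sum]
    have h2 : ∀ ω, (if upp e ω = some 0 then
        ms ((d : ℝ) / (((R : ℝ) + 1) * ((d : ℝ) + 1))) e.1 ω else 0) =
        if Acc e.1 ω then (if (wrd e.1 ω).head? = some e.2 then
          ((d : ℝ) / (((R : ℝ) + 1) * ((d : ℝ) + 1))) / (d : ℝ) ^ (wrd e.1 ω).length
          else 0) else 0 := by
      intro ω
      by_cases ha : Acc e.1 ω
      · by_cases hb : (wrd e.1 ω).head? = some e.2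
        · rw [if_pos ((upp_zero e ω).2 ⟨ha, hb⟩), if_pos ha, if_pos hb, ms, if_pos ha]
        · rw [if_neg (fun hu => hb ((upp_zero e ω).1 hu).2), if_pos ha, if_neg hb]
      · rw [if_neg (fun hu => ha ((upp_zero e ω).1 hu).1), if_neg ha]
    rw [sum_congr rfl (fun ω _ => h2 ω), h]
    refine sum_congr rfl fun w _ => ?_
    by_cases ha : w.1.length ≤ R
    · by_cases hb : w.1.head? = some e.2
      · rw [if_pos ha, if_pos hb, if_pos ⟨ha, hb⟩, mul_one_div]
      · rw [if_pos ha, if_neg hb, if_neg (fun hc => hb hc.2), mul_zero]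
    · rw [if_neg ha, if_neg (fun hc => ha hc.1), mul_zero]
  rw [h1, sum_dn d R hd e.2]
  field_simp

theorem mass_one {d R : ℕ} (hd : 1 ≤ d) (e : Equiv.Perm (W d R) × Fin (d + 1)) :
    ∑ ω, (if upp e ω = some 1 then
      ms ((d : ℝ) / (((R : ℝ) + 1) * ((d : ℝ) + 1))) e.1 ω else 0) =
      (d : ℝ) * ((R : ℝ) / (((R : ℝ) + 1) * ((d : ℝ) + 1))) := by
  have h := sum_acc e.1 (fun p => if p.length < R ∧ p.head? ≠ some e.2 then
    ((d : ℝ) / (((R : ℝ) + 1) * ((d : ℝ) + 1))) / (d : ℝ) ^ p.length else 0)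
  have h1 : ∑ ω, (if upp e ω = some 1 then
      ms ((d : ℝ) / (((R : ℝ) + 1) * ((d : ℝ) + 1))) e.1 ω else 0) =
      ((d : ℝ) / (((R : ℝ) + 1) * ((d : ℝ) + 1))) *
        ∑ w : W d R, (if w.1.length < R ∧ w.1.head? ≠ some e.2
          then 1 / (d : ℝ) ^ w.1.length else 0) := by
    rw [mul_sum]
    have h2 : ∀ ω, (if upp e ω = some 1 then
        ms ((d : ℝ) / (((R : ℝ) + 1) * ((d : ℝ) + 1))) e.1 ω else 0) =
        if Acc e.1 ω then (if (wrd e.1 ω).length < R ∧ (wrd e.1 ω).head? ≠ some e.2 then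
          ((d : ℝ) / (((R : ℝ) + 1) * ((d : ℝ) + 1))) / (d : ℝ) ^ (wrd e.1 ω).length
          else 0) else 0 := by
      intro ω
      by_cases ha : Acc e.1 ω
      · by_cases hb : (wrd e.1 ω).length < R ∧ (wrd e.1 ω).head? ≠ some e.2
        · rw [if_pos ((upp_one e ω).2 ⟨ha, hb.2, hb.1⟩), if_pos ha, if_pos hb, ms, if_pos ha]
        · rw [if_neg (fun hu => hb ⟨((upp_one e ω).1 hu).2.2, ((upp_one e ω).1 hu).2.1⟩),
            if_pos ha, if_neg hb]
      · rw [if_neg (fun hu => ha ((upp_one e ω).1 hu).1), if_neg ha]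
    rw [sum_congr rfl (fun ω _ => h2 ω), h]
    refine sum_congr rfl fun w _ => ?_
    by_cases hb : w.1.length < R ∧ w.1.head? ≠ some e.2
    · rw [if_pos hb.1.le, if_pos hb, if_pos hb, mul_one_div]
    · rw [if_neg hb, if_neg hb, mul_zero, ite_self]
  rw [h1, sum_up d R hd e.2]
  ring

theorem label {d R n : ℕ} (c : Equiv.Perm (W d R) × Fin (d + 1) → ZMod (n + 1))
    {e : Equiv.Perm (W d R) × Fin (d + 1)} {ω : Equiv.Perm (W d R)} {i : ℕ}
    (h : upp e ω = some i) :
    lab c true e.1 (wrd e.1 ω) + c e = lab c false (e.1 * sg e.2) (wrd (e.1 * sg e.2) ω) := by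
  obtain ⟨g, j⟩ := e
  rcases upp_cases h with rfl | rfl
  · obtain ⟨h1, h2⟩ := (upp_zero _ _).1 h
    obtain ⟨q, hq⟩ := head_eq h2
    rw [(step_dn h1 hq).1]
    show lab c true g (wrd g ω) + c (g, j) = lab c false (g * sg j) q
    have hq' : wrd g ω = j :: q := hq
    rw [hq']
    show lab c false (g * sg j) q - c (g, j) + c (g, j) = _
    rw [sub_add_cancel]
  · obtain ⟨h1, h2, h3⟩ := (upp_one _ _).1 h
    rw [(step_up h1 h2 h3).1]
    show lab c true g (wrd g ω) + c (g, j) =
      lab c true (g * sg j * sg j) (wrd g ω) + c (g * sg j * sg j, j)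
    rw [mul_assoc, sg_mul_self, mul_one]

theorem ratio {d R : ℕ} (hd : 1 ≤ d) (C : ℝ) {e : Equiv.Perm (W d R) × Fin (d + 1)}
    {ω : Equiv.Perm (W d R)} {i : ℕ} (h : upp e ω = some i) :
    i ≤ 1 ∧ ms C e.1 ω * (d : ℝ) ^ (1 - i) = ms C (e.1 * sg e.2) ω * (d : ℝ) ^ i := by
  have hd0 : (d : ℝ) ≠ 0 := by
    have : (0 : ℝ) < d := by exact_mod_cast hd
    exact this.ne'
  rcases upp_cases h with rfl | rfl
  · obtain ⟨h1, h2⟩ := (upp_zero _ _).1 h
    obtain ⟨q, hq⟩ := head_eq h2
    obtain ⟨h3, h4⟩ := step_dn h1 hq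
    refine ⟨zero_le_one, ?_⟩
    rw [ms, ms, if_pos h1, if_pos h4, h3, hq, List.length_cons]
    rw [pow_succ]
    field_simp
    simp
  · obtain ⟨h1, h2, h3⟩ := (upp_one _ _).1 h
    obtain ⟨h4, h5⟩ := step_up h1 h2 h3
    refine ⟨le_rfl, ?_⟩
    rw [ms, ms, if_pos h1, if_pos h5, h4, List.length_cons]
    rw [pow_succ]
    field_simp
    simp

end CayAux

open CayAux

theorem exists_base (d R : ℕ) (hd : 1 ≤ d) :
    ∃ G : Game, IsUnique G ∧ value G ≤ 2 / (d + 1) ∧
      Nonempty (Sys G d (R / ((R + 1) * (d + 1))) 1) := by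
  obtain ⟨n, c, hc⟩ := exists_shift
    (fun e : Equiv.Perm (W d R) × Fin (d + 1) => e.1)
    (fun e : Equiv.Perm (W d R) × Fin (d + 1) => e.1 * sg e.2)
  refine ⟨cay n c, ?_, ?_, ⟨?_⟩⟩
  · intro e
    exact (Equiv.addRight (c e)).bijective
  · refine value_le _ _ fun x y => ?_
    have h1 := hc x y
    have hN : (0 : ℝ) < Fintype.card (Equiv.Perm (W d R)) := Nat.cast_pos.mpr Fintype.card_pos
    have hcE : (Fintype.card (cay n c).E : ℝ) =
        Fintype.card (Equiv.Perm (W d R)) * ((d : ℝ) + 1) := by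
      have : Fintype.card (cay n c).E = Fintype.card (Equiv.Perm (W d R) × Fin (d + 1)) := rfl
      rw [this, Fintype.card_prod, Fintype.card_fin]
      push_cast
      rfl
    have hsum : (∑ e, if (cay n c).map e (x ((cay n c).src e)) = y ((cay n c).dst e)
        then (1 : ℝ) else 0) ≤ 2 * Fintype.card (Equiv.Perm (W d R)) := by
      rw [Finset.sum_boole]
      have h2 : ((univ.filter fun e : (cay n c).E =>
          (cay n c).map e (x ((cay n c).src e)) = y ((cay n c).dst e)).card : ℝ) ≤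
          ((Fintype.card (Equiv.Perm (W d R)) + Fintype.card (Equiv.Perm (W d R)) : ℕ) : ℝ) := by
        refine Nat.cast_le.2 (le_trans ?_ h1)
        refine card_le_card_of_injOn id ?_ Function.injective_id.injOn
        intro e he
        have he' := (mem_filter.1 he).2
        exact mem_coe.2 (mem_filter.2 ⟨mem_univ _, he'⟩)
      refine h2.trans (le_of_eq ?_)
      push_cast
      ring
    unfold satFrac
    rw [hcE, div_le_div_iff₀ (by positivity) (by positivity)]
    calc _ ≤ 2 * (Fintype.card (Equiv.Perm (W d R)) : ℝ) * ((d : ℝ) + 1) :=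
          mul_le_mul_of_nonneg_right hsum (by positivity)
      _ = _ := by ring
  · exact
      { Z := Equiv.Perm (W d R)
        P := ms ((d : ℝ) / (((R : ℝ) + 1) * ((d : ℝ) + 1)))
        Q := ms ((d : ℝ) / (((R : ℝ) + 1) * ((d : ℝ) + 1)))
        P0 := fun g ω => ms_nonneg (by positivity) g ω
        Q0 := fun g ω => ms_nonneg (by positivity) g ω
        P1 := fun g => ms_sum hd g
        Q1 := fun g => ms_sum hd g
        α := fun g ω => lab c true g (wrd g ω)
        β := fun g ω => lab c false g (wrd g ω)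
        up := fun e ω => upp e ω
        ok := fun e ω i h => label c h
        rel := fun e ω i h => ratio hd _ h
        mass := fun e i hi => by
          have hi' : i = 0 ∨ i = 1 := by omega
          rcases hi' with rfl | rfl
          · refine le_of_eq ?_
            refine Eq.trans ?_ (mass_zero hd e).symm
            simp
          · refine le_of_eq ?_
            refine Eq.trans ?_ (mass_one hd e).symm
            simp }

end Pool.Agent.P325pa
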