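import Mathlib

/-!
# P325pa.Cube: a volume

`region_volume`: the set of all `r ∈ (0,1)^Z` with `r j < r i ^ c j` for all `j ≠ i` has volume at least
`1 / (1 + C)`, `C = ∑ (j ≠ i), c j`.
-/

open Finset MeasureTheory
open scoped BigOperators Classical

namespace Pool.Agent.P325pa

/-- the region in which item `i` wins -/
def region {Z : Type} (i : Z) (c : Z → ℝ) : Set (Z → ℝ) :=
  {r | (∀ j, 0 < r j ∧ r j < 1) ∧ ∀ j, j ≠ i → r j < r i ^ c j}

theorem region_measurable {Z : Type} [Fintype Z] (i : Z) (c : Z → ℝ) :
    MeasurableSet (region i c) := by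
  have h : region i c = (⋂ j, ({r : Z → ℝ | 0 < r j} ∩ {r : Z → ℝ | r j < 1})) ∩
      ⋂ j, ⋂ (_ : j ≠ i), {r : Z → ℝ | r j < r i ^ c j} := by
    ext r
    simp only [region, Set.mem_ofPred_eq, Set.mem_inter_iff, Set.mem_iInter]
  rw [h]
  refine MeasurableSet.inter (MeasurableSet.iInter fun j => MeasurableSet.inter ?_ ?_)
    (MeasurableSet.iInter fun j => MeasurableSet.iInter fun _ => ?_)
  · exact measurableSet_lt measurable_const (measurable_pi_apply j)
  · exact measurableSet_lt (measurable_pi_apply j) measurable_const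
  · exact measurableSet_lt (measurable_pi_apply j) ((measurable_pi_apply i).pow_const (c j))

theorem lintegral_pow_ge (C : ℝ) (hC : 0 ≤ C) :
    ENNReal.ofReal (1 / (1 + C)) ≤ ∫⁻ t in Set.Ioo (0 : ℝ) 1, ENNReal.ofReal (t ^ C) := by
  have hint : IntervalIntegrable (fun t : ℝ => t ^ C) volume 0 1 :=
    intervalIntegral.intervalIntegrable_rpow' (by linarith)
  have hI : IntegrableOn (fun t : ℝ => t ^ C) (Set.Ioo 0 1) volume :=
    ((intervalIntegrable_iff_integrableOn_Ioc_of_le zero_le_one).1 hint).mono_set
      Set.Ioo_subset_Ioc_self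
  have h1 : ∫ t in Set.Ioo (0 : ℝ) 1, t ^ C = 1 / (1 + C) := by
    rw [← integral_Ioc_eq_integral_Ioo, ← intervalIntegral.integral_of_le zero_le_one,
      integral_rpow (Or.inl (by linarith))]
    rw [Real.one_rpow, Real.zero_rpow (by linarith), sub_zero, add_comm]
  rw [← h1, ofReal_integral_eq_lintegral_ofReal hI]
  exact (ae_restrict_iff' measurableSet_Ioo).2
    (Filter.Eventually.of_forall fun t ht => Real.rpow_nonneg ht.1.le _)

theorem region_volume {Z : Type} [Fintype Z] (i : Z) (c : Z → ℝ) (hc : ∀ j, 0 ≤ c j) :
    ENNReal.ofReal (1 / (1 + ∑ j ∈ univ.erase i, c j)) ≤ volume (region i c) := by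
  have hS := region_measurable i c
  have hC : 0 ≤ ∑ j ∈ univ.erase i, c j := sum_nonneg fun j _ => hc j
  have hm : Measurable ((region i c).indicator (1 : (Z → ℝ) → ENNReal)) :=
    measurable_one.indicator hS
  have h1 : volume (region i c) =
      ∫⁻ r, (region i c).indicator (1 : (Z → ℝ) → ENNReal) r ∂(Measure.pi fun _ : Z => volume) := by
    rw [lintegral_indicator_one hS]; rfl
  have h2 := lmarginal_erase (μ := fun _ : Z => (volume : Measure ℝ)) (s := (univ : Finset Z))
    ((region i c).indicator (1 : (Z → ℝ) → ENNReal)) hm (mem_univ i) (fun _ => (0 : ℝ))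
  rw [h1, lintegral_eq_lmarginal_univ (fun _ => (0 : ℝ))]
  refine le_trans ?_ (le_of_eq h2.symm)
  refine (lintegral_pow_ge _ hC).trans ?_
  rw [← lintegral_indicator measurableSet_Ioo]
  refine lintegral_mono fun t => ?_
  by_cases ht : t ∈ Set.Ioo (0 : ℝ) 1
  · rw [Set.indicator_of_mem ht]
    have hbox : (Measure.pi fun _ : ((univ : Finset Z).erase i : Finset Z) => (volume : Measure ℝ))
        (Set.pi Set.univ fun j : ((univ : Finset Z).erase i : Finset Z) => Set.Ioo 0 (t ^ c j)) =
        ENNReal.ofReal (t ^ ∑ j ∈ univ.erase i, c j) := by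
      rw [Measure.pi_pi]
      simp only [Real.volume_Ioo, sub_zero]
      rw [← ENNReal.ofReal_prod_of_nonneg fun j _ => Real.rpow_nonneg ht.1.le _]
      congr 1
      rw [Real.rpow_sum_of_pos ht.1]
      exact Finset.prod_coe_sort (univ.erase i) fun j => t ^ c j
    rw [← hbox]
    have hmb : MeasurableSet (Set.pi Set.univ
        fun j : ((univ : Finset Z).erase i : Finset Z) => Set.Ioo 0 (t ^ c j)) :=
      MeasurableSet.univ_pi fun j => measurableSet_Ioo
    rw [← lintegral_indicator_one hmb]
    unfold lmarginal
    refine lintegral_mono fun y => ?_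
    by_cases hy : y ∈ Set.pi Set.univ
        fun j : ((univ : Finset Z).erase i : Finset Z) => Set.Ioo 0 (t ^ c j)
    · have hmem : Function.updateFinset (Function.update (fun _ => (0 : ℝ)) i t)
          (univ.erase i) y ∈ region i c := by
        have hv : ∀ (j : Z) (hj : j ∈ univ.erase i), Function.updateFinset
            (Function.update (fun _ => (0 : ℝ)) i t) (univ.erase i) y j = y ⟨j, hj⟩ := by
          intro j hj
          simp only [Function.updateFinset, dif_pos hj]
        have hvi : Function.updateFinset
            (Function.update (fun _ => (0 : ℝ)) i t) (univ.erase i) y i = t := by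
          have : i ∉ (univ : Finset Z).erase i := by simp
          simp only [Function.updateFinset, dif_neg this, Function.update_self]
        refine ⟨fun j => ?_, fun j hj => ?_⟩
        · by_cases hji : j = i
          · subst hji
            rw [hvi]
            exact ht
          · have hj' : j ∈ (univ : Finset Z).erase i := by simp [hji]
            rw [hv j hj']
            have := hy ⟨j, hj'⟩ (Set.mem_univ _)
            refine ⟨this.1, lt_of_lt_of_le this.2 ?_⟩
            exact Real.rpow_le_one ht.1.le ht.2.le (hc j)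
        · have hj' : j ∈ (univ : Finset Z).erase i := by simp [hj]
          rw [hv j hj', hvi]
          exact (hy ⟨j, hj'⟩ (Set.mem_univ _)).2
      rw [Set.indicator_of_mem hy, Set.indicator_of_mem hmem]
      simp
    · rw [Set.indicator_of_notMem hy]
      exact bot_le
  · rw [Set.indicator_of_notMem ht]
    exact bot_le

end Pool.Agent.P325pa
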