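import Mathlib
import Pool.Agent.Lib.P325pa.Cube

/-!
# P325pa.Samp (1 h): sampling with exponential clocks

`r j`, `j ∈ Z`, are independent uniform variables in `(0,1)`. A vertex `x` with the masses `P x j ≥ 0` chooses the item
`i` (`P x i > 0`) such that `r j < r i ^ (P x j / P x i)` for all `j ≠ i` (this is the minimum of `-log (r j) / P x j`);
there is at most one such `i`: if `i` and `i'` both win, `r i' < r i ^ (P i' / P i)` and `r i < r i' ^ (P i / P i')`,
raise the second to the power `P i' / P i`: contradiction. If there is none, choose anything.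
For an edge `e` and an item `i` with `P (s e) i, P (t e) i > 0` let `c j = max (P (s e) j / P (s e) i) (P (t e) j / P (t e) i)`.
If `r ∈ region i c` then both ends choose `i` (`r i ^ max .. ≤ r i ^ ..` as `0 < r i < 1`). By `region_volume` the volume is
at least `1 / (1 + ∑ (j ≠ i), c j) = 1 / dd .. i` (`c i = 1`).
So with `g r = ∑ e, w e * ∑ i, [ok e i, both positive] * indicator (region i (c e i)) r`:
`∫ g over (0,1)^Z ≥ ∑ e, w e * ∑ i, [..] (dd ..)⁻¹` and `g r ≤ ∑ e, w e * [z_r (s e) = z_r (t e), ok]` for every `r` of the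
cube (for fixed `e` at most one `i` has `r ∈ region i (c e i)`, namely `z_r (s e)`). There is an `r` with
`g r ≥ ∫ g` (`MeasureTheory.exists_integral_le` for a probability measure, e.g. `volume.restrict (cube)`; if the
left side of the claim is `≤ 0` any `z` works).
-/

open Finset MeasureTheory
open scoped BigOperators Classical

namespace Pool.Agent.P325pa

/-- the denominator of the success probability at the item `i` -/
noncomputable def dd {Z : Type} [Fintype Z] (P Q : Z → ℝ) (i : Z) : ℝ :=
  ∑ j, max (P j / P i) (Q j / Q i)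

namespace SampAux

variable {Z : Type}

/-- the item `i` wins -/
def Win (p r : Z → ℝ) (i : Z) : Prop := 0 < p i ∧ ∀ j, j ≠ i → r j < r i ^ (p j / p i)

lemma win_unique {p r : Z → ℝ} (hr : ∀ j, 0 < r j ∧ r j < 1) {i i' : Z} (h : Win p r i)
    (h' : Win p r i') : i = i' := by
  by_contra hne
  have h1 := h.2 i' (Ne.symm hne)
  have h2 := h'.2 i hne
  have hi := h.1
  have hi' := h'.1
  have hq : 0 < p i' / p i := div_pos hi' hi
  have h3 := Real.rpow_lt_rpow (hr i).1.le h2 hq
  rw [← Real.rpow_mul (hr i').1.le] at h3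
  have h4 : p i / p i' * (p i' / p i) = 1 := by field_simp
  rw [h4, Real.rpow_one] at h3
  exact lt_irrefl _ (h1.trans h3)

/-- the chosen item -/
noncomputable def zz [Nonempty Z] (p r : Z → ℝ) : Z :=
  if h : ∃ i, Win p r i then h.choose else Classical.arbitrary Z

lemma zz_eq [Nonempty Z] {p r : Z → ℝ} (hr : ∀ j, 0 < r j ∧ r j < 1) {i : Z} (h : Win p r i) :
    zz p r = i := by
  have hex : ∃ i, Win p r i := ⟨i, h⟩
  unfold zz
  rw [dif_pos hex]
  exact win_unique hr hex.choose_spec h

/-- the exponents -/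
noncomputable def cc (p q : Z → ℝ) (i : Z) : Z → ℝ := fun j => max (p j / p i) (q j / q i)

lemma win_left {p q r : Z → ℝ} {i : Z} (hr : r ∈ region i (cc p q i)) (hp : 0 < p i) :
    Win p r i := by
  refine ⟨hp, fun j hj => (hr.2 j hj).trans_le ?_⟩
  exact Real.rpow_le_rpow_of_exponent_ge (hr.1 i).1 (hr.1 i).2.le (le_max_left _ _)

lemma win_right {p q r : Z → ℝ} {i : Z} (hr : r ∈ region i (cc p q i)) (hq : 0 < q i) :
    Win q r i := by
  refine ⟨hq, fun j hj => (hr.2 j hj).trans_le ?_⟩
  exact Real.rpow_le_rpow_of_exponent_ge (hr.1 i).1 (hr.1 i).2.le (le_max_right _ _)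

/-- the open unit cube -/
def cube (Z : Type) : Set (Z → ℝ) := Set.pi Set.univ fun _ => Set.Ioo 0 1

lemma region_subset (i : Z) (c : Z → ℝ) : region i c ⊆ cube Z := fun r hr j _ => hr.1 j

variable [Fintype Z]

lemma cube_vol : (volume : Measure (Z → ℝ)) (cube Z) = 1 := by
  unfold cube
  rw [volume_pi_pi]
  simp

/-- the uniform measure on the cube -/
noncomputable def mu (Z : Type) [Fintype Z] : Measure (Z → ℝ) := volume.restrict (cube Z)

instance : IsProbabilityMeasure (mu Z) := ⟨by
  unfold mu
  rw [Measure.restrict_apply_univ, cube_vol]⟩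

lemma dd_le {p q : Z → ℝ} (hp : ∀ i, 0 ≤ p i) (hq : ∀ i, 0 ≤ q i) {i : Z} (hpi : 0 < p i)
    (hqi : 0 < q i) : (dd p q i)⁻¹ ≤ (mu Z).real (region i (cc p q i)) := by
  have hc : ∀ j, 0 ≤ cc p q i j := fun j => le_max_of_le_left (div_nonneg (hp j) hpi.le)
  have h1 := region_volume i (cc p q i) hc
  have h2 : dd p q i = 1 + ∑ j ∈ univ.erase i, cc p q i j := by
    unfold dd
    rw [← Finset.add_sum_erase univ _ (mem_univ i), div_self hpi.ne', div_self hqi.ne', max_self]
    rfl
  have h3 : (mu Z) (region i (cc p q i)) = volume (region i (cc p q i)) := by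
    unfold mu
    rw [Measure.restrict_apply (region_measurable i _),
      Set.inter_eq_left.mpr (region_subset i _)]
  rw [← h3] at h1
  rw [h2, ← one_div]
  exact (ENNReal.ofReal_le_iff_le_toReal (measure_ne_top _ _)).mp h1

end SampAux

theorem sample {X Z E : Type} [Fintype Z] [Nonempty Z] [Fintype E] (s t : E → X)
    (P : X → Z → ℝ) (hP : ∀ x i, 0 ≤ P x i) (w : E → ℝ) (hw : ∀ e, 0 ≤ w e) (ok : E → Z → Prop) :
    ∃ z : X → Z, ∑ e, w e * ∑ i, (if ok e i ∧ 0 < P (s e) i ∧ 0 < P (t e) i then
        (dd (P (s e)) (P (t e)) i)⁻¹ else 0) ≤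
      ∑ e, w e * (if z (s e) = z (t e) ∧ ok e (z (s e)) then 1 else 0) := by
  have hind : ∀ (i : Z) (c : Z → ℝ),
      Integrable (fun r => (region i c).indicator (fun _ => (1 : ℝ)) r) (SampAux.mu Z) :=
    fun i c => (integrable_const (1 : ℝ)).indicator (region_measurable i c)
  let T : E → Z → (Z → ℝ) → ℝ := fun e i r =>
    if ok e i ∧ 0 < P (s e) i ∧ 0 < P (t e) i then
      (region i (SampAux.cc (P (s e)) (P (t e)) i)).indicator (fun _ => (1 : ℝ)) r else 0
  have hT : ∀ e i, Integrable (T e i) (SampAux.mu Z) := by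
    intro e i
    by_cases h : ok e i ∧ 0 < P (s e) i ∧ 0 < P (t e) i
    · have : T e i = fun r => (region i (SampAux.cc (P (s e)) (P (t e)) i)).indicator
          (fun _ => (1 : ℝ)) r := by
        funext r
        exact if_pos h
      rw [this]
      exact hind _ _
    · have : T e i = fun _ => (0 : ℝ) := by
        funext r
        exact if_neg h
      rw [this]
      exact integrable_const _
  have hTi : ∀ e i, (if ok e i ∧ 0 < P (s e) i ∧ 0 < P (t e) i then
        (dd (P (s e)) (P (t e)) i)⁻¹ else 0) ≤ ∫ r, T e i r ∂(SampAux.mu Z) := by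
    intro e i
    by_cases h : ok e i ∧ 0 < P (s e) i ∧ 0 < P (t e) i
    · have : T e i = fun r => (region i (SampAux.cc (P (s e)) (P (t e)) i)).indicator
          (fun _ => (1 : ℝ)) r := by
        funext r
        exact if_pos h
      rw [if_pos h, this, integral_indicator (region_measurable i _), setIntegral_const,
        smul_eq_mul, mul_one]
      exact SampAux.dd_le (hP _) (hP _) h.2.1 h.2.2
    · have : T e i = fun _ => (0 : ℝ) := by
        funext r
        exact if_neg h
      rw [if_neg h, this]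
      simp
  have hg : Integrable (fun r => ∑ e, w e * ∑ i, T e i r) (SampAux.mu Z) :=
    integrable_finset_sum _ fun e _ => (integrable_finset_sum _ fun i _ => hT e i).const_mul _
  obtain ⟨r, hr⟩ := exists_integral_le hg
  refine ⟨fun x => SampAux.zz (P x) r, ?_⟩
  have h1 : ∑ e, w e * ∑ i, (if ok e i ∧ 0 < P (s e) i ∧ 0 < P (t e) i then
        (dd (P (s e)) (P (t e)) i)⁻¹ else 0) ≤
      ∫ r, (∑ e, w e * ∑ i, T e i r) ∂(SampAux.mu Z) := by
    rw [integral_finset_sum _ fun e _ => (integrable_finset_sum _ fun i _ => hT e i).const_mul _]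
    refine sum_le_sum fun e _ => ?_
    rw [integral_const_mul, integral_finset_sum _ fun i _ => hT e i]
    exact mul_le_mul_of_nonneg_left (sum_le_sum fun i _ => hTi e i) (hw e)
  refine (h1.trans hr).trans (sum_le_sum fun e _ => mul_le_mul_of_nonneg_left ?_ (hw e))
  have key : ∀ i, T e i r ≠ 0 → (SampAux.zz (P (s e)) r = i ∧ SampAux.zz (P (t e)) r = i) ∧
      ok e i ∧ T e i r = 1 := by
    intro i hi
    by_cases h : ok e i ∧ 0 < P (s e) i ∧ 0 < P (t e) i
    · have h2 : T e i r = (region i (SampAux.cc (P (s e)) (P (t e)) i)).indicator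
          (fun _ => (1 : ℝ)) r := if_pos h
      by_cases hm : r ∈ region i (SampAux.cc (P (s e)) (P (t e)) i)
      · refine ⟨⟨SampAux.zz_eq hm.1 (SampAux.win_left hm h.2.1),
          SampAux.zz_eq hm.1 (SampAux.win_right hm h.2.2)⟩, h.1, ?_⟩
        rw [h2, Set.indicator_of_mem hm]
      · exfalso
        apply hi
        rw [h2, Set.indicator_of_notMem hm]
    · exact absurd (if_neg h) hi
  have h3 : ∑ i, T e i r = T e (SampAux.zz (P (s e)) r) r := by
    refine Finset.sum_eq_single _ (fun i _ hi => ?_) fun h => absurd (mem_univ _) h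
    by_contra hne
    exact hi (key i hne).1.1.symm
  rw [h3]
  by_cases h0 : T e (SampAux.zz (P (s e)) r) r = 0
  · rw [h0]
    split_ifs
    · exact zero_le_one
    · exact le_refl 0
  · obtain ⟨⟨k1, k2⟩, k3, k4⟩ := key _ h0
    rw [k4, if_pos ⟨k2.symm, k3⟩]

end Pool.Agent.P325pa
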