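import Mathlib
import Pool.Agent.Lib.P325pa.Defs
import Pool.Agent.Lib.P325pa.Samp

/-!
# P325pa.Core (1.2 h): the main inequality at one right vertex

`n = card I`, `A z β = (∑ e, [b e z = β] f e z) / n`, `a z = ∑ β, A z β ^ 2`, `y = ∑ z, a z`. If `y = 0` take `P = 0`,
`M = 1` (all terms of `J` are `0`). Let `y > 0`, `P z = a z / y` (`∑ P = 1`), `Q e z = f e z ^ 2` (`∑ z, Q e z ≤ 1`),
`D e z = dd P (Q e) z`, `Y z β = (∑ e, [b e z = β, 0 < P z, 0 < Q e z] (D e z)⁻¹) / n`, `β z` a maximiser of `Y z`,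
`J = ∑ z, Y z (β z)`, `M = (∑ e, ∑ z, ∑ z', max (P z' * Q e z) (P z * Q e z')) / n`.
(1) `P z > 0`: `D e z ≥ 1` when `Q e z > 0` (the term `z' = z`); Cauchy-Schwarz
 `(A z β) ^ 2 ≤ Y z β * (∑ e, [b e z = β, Q e z > 0] Q e z * D e z) / n`; sum over `β`:
 `a z ≤ Y z (β z) * Z z`, `Z z = (∑ e, [Q e z > 0] Q e z * D e z) / n`, and
 `P z * Q e z * D e z = ∑ z', max (P z' * Q e z) (P z * Q e z')`, so `∑ z, P z * Z z ≤ M`.
 `a z = √(a z) * √(y * P z) ≤ √y * √(Y z (β z)) * √(P z * Z z)`, Cauchy-Schwarz: `y = ∑ a z ≤ √y * √J * √M`, so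
 `y ≤ J * M`.
(2) `κ = (∑ e, ∑ z, ∑ z', min (..) (..)) / n`: `M + κ = (∑ e, 2 (∑ P) (∑ Q e)) / n ≤ 2` (`max_add_min`).
 `∑ z z', √(max * min) = ∑ z z', √(P z' Q e z P z Q e z') = (∑ z, √(P z) f e z) ^ 2 =: aff e ^ 2`, Cauchy-Schwarz:
 `((∑ e, aff e ^ 2) / n) ^ 2 ≤ M * κ`. And `(∑ e, aff e ^ 2) / n ≥ ((∑ e, aff e) / n) ^ 2`,
 `(∑ e, aff e) / n = ∑ z, √(P z) * (∑ β, A z β) ≥ ∑ z, √(a z / y) * √(a z) = √y`
 (`(∑ β, A z β) ^ 2 ≥ ∑ β, A z β ^ 2` for nonnegative terms). So `y ^ 2 ≤ M * κ ≤ M * (2 - M)`.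
-/

open Finset
open scoped BigOperators Classical

namespace Pool.Agent.P325pa

/-- the success probability at one right vertex -/
noncomputable def JJ {I Z B : Type} [Fintype I] [Fintype Z] (f : I → Z → ℝ) (b : I → Z → B)
    (P : Z → ℝ) (β : Z → B) : ℝ :=
  (∑ e, ∑ z, (if b e z = β z ∧ 0 < P z ∧ 0 < f e z ^ 2 then
    (dd P (fun z' => f e z' ^ 2) z)⁻¹ else 0)) / Fintype.card I

namespace CoreAux

variable {I Z B : Type} [Fintype I] [Nonempty I] [Fintype Z] [Fintype B] [Nonempty B]

/-- the mass at the label `β` -/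
private noncomputable def AA (f : I → Z → ℝ) (b : I → Z → B) (z : Z) (β : B) : ℝ :=
  (∑ e, if b e z = β then f e z else 0) / Fintype.card I

/-- the success at `z` with the label `β` -/
private noncomputable def YY (f : I → Z → ℝ) (b : I → Z → B) (P : Z → ℝ) (z : Z) (β : B) : ℝ :=
  (∑ e, if b e z = β ∧ 0 < P z ∧ 0 < f e z ^ 2 then
    (dd P (fun z' => f e z' ^ 2) z)⁻¹ else 0) / Fintype.card I

/-- the sum of the maxima at `z` -/
private noncomputable def MM (f : I → Z → ℝ) (P : Z → ℝ) (z : Z) : ℝ :=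
  (∑ e, ∑ z', max (P z' * f e z ^ 2) (P z * f e z' ^ 2)) / Fintype.card I

private theorem card_pos' : (0 : ℝ) < Fintype.card I := by
  exact_mod_cast Fintype.card_pos

private theorem AA_nn {f : I → Z → ℝ} (hf0 : ∀ e z, 0 ≤ f e z) (b : I → Z → B) (z : Z) (β : B) :
    0 ≤ AA f b z β := by
  unfold AA
  refine div_nonneg (Finset.sum_nonneg fun e _ => ?_) card_pos'.le
  split_ifs
  · exact hf0 e z
  · exact le_rfl

private theorem dd_nn {P Q : Z → ℝ} (hP : ∀ z, 0 ≤ P z) (hQ : ∀ z, 0 ≤ Q z) (z : Z) :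
    0 ≤ dd P Q z := by
  unfold dd
  exact Finset.sum_nonneg fun j _ => le_max_of_le_left (div_nonneg (hP j) (hP z))

private theorem dd_pos {P Q : Z → ℝ} (hP : ∀ z, 0 ≤ P z) (hQ : ∀ z, 0 ≤ Q z) {z : Z}
    (hz : 0 < P z) : 0 < dd P Q z := by
  have h1 : max (P z / P z) (Q z / Q z) ≤ dd P Q z := by
    unfold dd
    exact Finset.single_le_sum (f := fun j => max (P j / P z) (Q j / Q z))
      (fun j _ => le_max_of_le_left (div_nonneg (hP j) (hP z))) (Finset.mem_univ z)
  have h2 : P z / P z = 1 := div_self hz.ne'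
  have h3 : (1 : ℝ) ≤ max (P z / P z) (Q z / Q z) := by rw [h2]; exact le_max_left _ _
  linarith

private theorem YY_nn {f : I → Z → ℝ} {b : I → Z → B} {P : Z → ℝ} (hP : ∀ z, 0 ≤ P z) (z : Z)
    (β : B) : 0 ≤ YY f b P z β := by
  unfold YY
  refine div_nonneg (Finset.sum_nonneg fun e _ => ?_) card_pos'.le
  split_ifs
  · exact inv_nonneg.2 (dd_nn hP (fun z => sq_nonneg _) z)
  · exact le_rfl

private theorem MM_nn {f : I → Z → ℝ} {P : Z → ℝ} (hP : ∀ z, 0 ≤ P z) (z : Z) :
    0 ≤ MM f P z := by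
  unfold MM
  refine div_nonneg (Finset.sum_nonneg fun e _ => Finset.sum_nonneg fun z' _ => ?_) card_pos'.le
  exact le_max_of_le_left (mul_nonneg (hP z') (sq_nonneg _))

/-- the term of `Zz` -/
private noncomputable def ww (f : I → Z → ℝ) (P : Z → ℝ) (e : I) (z : Z) : ℝ :=
  if 0 < f e z ^ 2 then f e z ^ 2 * dd P (fun z' => f e z' ^ 2) z else 0

private theorem ww_nn {f : I → Z → ℝ} {P : Z → ℝ} (hP : ∀ z, 0 ≤ P z) (e : I) (z : Z) :
    0 ≤ ww f P e z := by
  unfold ww
  split_ifs
  · exact mul_nonneg (sq_nonneg _) (dd_nn hP (fun z => sq_nonneg _) z)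
  · exact le_rfl

private theorem A_sq {f : I → Z → ℝ} {b : I → Z → B} {P : Z → ℝ} (hP : ∀ z, 0 ≤ P z) {z : Z}
    (hz : 0 < P z) (β : B) : AA f b z β ^ 2 ≤
      YY f b P z β * ((∑ e, if b e z = β then ww f P e z else 0) / Fintype.card I) := by
  have hn := card_pos' (I := I)
  have h1 : (∑ e, if b e z = β then f e z else 0) ^ 2 ≤
      (∑ e, if b e z = β ∧ 0 < P z ∧ 0 < f e z ^ 2 then
        (dd P (fun z' => f e z' ^ 2) z)⁻¹ else 0) *
      ∑ e, if b e z = β then ww f P e z else 0 := by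
    refine Finset.sum_sq_le_sum_mul_sum_of_sq_le_mul _ (fun e _ => ?_) (fun e _ => ?_)
      (fun e _ => ?_)
    · split_ifs
      · exact inv_nonneg.2 (dd_nn hP (fun z => sq_nonneg _) z)
      · exact le_rfl
    · split_ifs
      · exact ww_nn hP e z
      · exact le_rfl
    · by_cases hb : b e z = β
      · by_cases hQ : 0 < f e z ^ 2
        · rw [if_pos hb, if_pos ⟨hb, hz, hQ⟩, if_pos hb]
          unfold ww
          rw [if_pos hQ]
          have hd := dd_pos (P := P) (Q := fun z' => f e z' ^ 2) hP (fun z => sq_nonneg _) hz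
          have : (dd P (fun z' => f e z' ^ 2) z)⁻¹ * (f e z ^ 2 * dd P (fun z' => f e z' ^ 2) z)
              = f e z ^ 2 * ((dd P (fun z' => f e z' ^ 2) z)⁻¹ * dd P (fun z' => f e z' ^ 2) z) := by
            ring
          rw [this, inv_mul_cancel₀ hd.ne', mul_one]
        · have h0 : f e z ^ 2 = 0 := le_antisymm (not_lt.1 hQ) (sq_nonneg _)
          rw [if_pos hb, if_neg (fun h => hQ h.2.2), h0, zero_mul]
      · rw [if_neg hb, if_neg hb, mul_zero]
        norm_num
  unfold AA YY
  rw [div_pow, div_mul_div_comm, ← pow_two]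
  exact div_le_div_of_nonneg_right h1 (by positivity)

private theorem P_ww {f : I → Z → ℝ} {P : Z → ℝ} (hP : ∀ z, 0 ≤ P z) {z : Z}
    (hz : 0 < P z) (e : I) : P z * ww f P e z ≤
      ∑ z', max (P z' * f e z ^ 2) (P z * f e z' ^ 2) := by
  unfold ww
  split_ifs with hQ
  · unfold dd
    rw [← mul_assoc, Finset.mul_sum]
    refine Finset.sum_le_sum fun z' _ => le_of_eq ?_
    rw [mul_max_of_nonneg _ _ (by positivity)]
    obtain ⟨Q, hQd⟩ : ∃ Q, Q = f e z ^ 2 := ⟨_, rfl⟩
    beta_reduce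
    rw [← hQd] at hQ ⊢
    congr 1
    · field_simp
    · field_simp
  · rw [mul_zero]
    exact Finset.sum_nonneg fun z' _ => le_max_of_le_left (mul_nonneg (hP z') (sq_nonneg _))

end CoreAux

open CoreAux in
theorem core {I Z B : Type} [Fintype I] [Nonempty I] [Fintype Z] [Fintype B] [Nonempty B]
    (f : I → Z → ℝ) (hf0 : ∀ e z, 0 ≤ f e z) (hf1 : ∀ e, ∑ z, f e z ^ 2 ≤ 1) (b : I → Z → B) :
    ∃ (P : Z → ℝ) (β : Z → B) (M : ℝ), (∀ z, 0 ≤ P z) ∧
      ∑ z, ∑ β', ((∑ e, if b e z = β' then f e z else 0) / Fintype.card I) ^ 2 ≤ JJ f b P β * M ∧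
      (∑ z, ∑ β', ((∑ e, if b e z = β' then f e z else 0) / Fintype.card I) ^ 2) ^ 2 + M ^ 2
        ≤ 2 * M := by
  have hn := card_pos' (I := I)
  obtain ⟨a, ha⟩ : ∃ a : Z → ℝ, a = fun z => ∑ β', AA f b z β' ^ 2 := ⟨_, rfl⟩
  obtain ⟨y, hy⟩ : ∃ y : ℝ, y = ∑ z, a z := ⟨_, rfl⟩
  have hyy : ∑ z, ∑ β', ((∑ e, if b e z = β' then f e z else 0) / (Fintype.card I : ℝ)) ^ 2 = y := by
    rw [hy, ha]; rfl
  rw [hyy]
  have a0 : ∀ z, 0 ≤ a z := fun z => by
    rw [ha]; exact Finset.sum_nonneg fun β' _ => sq_nonneg _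
  have y0 : 0 ≤ y := by rw [hy]; exact Finset.sum_nonneg fun z _ => a0 z
  rcases y0.eq_or_lt with hy0 | hypos
  · refine ⟨fun _ => 0, fun _ => Classical.arbitrary B, 0, fun _ => le_rfl, ?_, ?_⟩
    · rw [← hy0]; simp
    · rw [← hy0]; norm_num
  obtain ⟨P, hPd⟩ : ∃ P : Z → ℝ, P = fun z => a z / y := ⟨_, rfl⟩
  have hP : ∀ z, 0 ≤ P z := fun z => by rw [hPd]; exact div_nonneg (a0 z) y0
  have haP : ∀ z, a z = y * P z := fun z => by rw [hPd]; field_simp
  have hP1 : ∑ z, P z = 1 := by
    rw [hPd, ← Finset.sum_div, ← hy]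
    exact div_self hypos.ne'
  have hmax : ∀ z, ∃ β, ∀ β', YY f b P z β' ≤ YY f b P z β := fun z =>
    Finite.exists_max (YY f b P z)
  choose βm hβm using hmax
  have hJ : JJ f b P βm = ∑ z, YY f b P z (βm z) := by
    unfold JJ YY
    rw [Finset.sum_comm, Finset.sum_div]
  obtain ⟨M, hM⟩ : ∃ M : ℝ, M = ∑ z, MM f P z := ⟨_, rfl⟩
  have M0 : 0 ≤ M := by rw [hM]; exact Finset.sum_nonneg fun z _ => MM_nn hP z
  refine ⟨P, βm, M, hP, ?_, ?_⟩
  · -- (1)
    have key : ∀ z, a z ^ 2 ≤ (y * YY f b P z (βm z)) * MM f P z := by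
      intro z
      by_cases hz : 0 < P z
      · have h1 : a z ≤ YY f b P z (βm z) *
            ((∑ e, ww f P e z) / Fintype.card I) := by
          have e1 : a z = ∑ β', AA f b z β' ^ 2 := by rw [ha]
          rw [e1]
          calc ∑ β', AA f b z β' ^ 2
              ≤ ∑ β', YY f b P z (βm z) *
                ((∑ e, if b e z = β' then ww f P e z else 0) / Fintype.card I) := by
                refine Finset.sum_le_sum fun β' _ => (A_sq hP hz β').trans ?_
                refine mul_le_mul_of_nonneg_right (hβm z β') ?_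
                refine div_nonneg (Finset.sum_nonneg fun e _ => ?_) hn.le
                split_ifs
                · exact ww_nn hP e z
                · exact le_rfl
            _ = YY f b P z (βm z) * ((∑ e, ww f P e z) / Fintype.card I) := by
                rw [← Finset.mul_sum, ← Finset.sum_div, Finset.sum_comm]
                congr 2
                refine Finset.sum_congr rfl fun e _ => ?_
                rw [Finset.sum_ite_eq]
                simp
        have h2 : P z * ((∑ e, ww f P e z) / Fintype.card I) ≤ MM f P z := by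
          unfold MM
          rw [← mul_div_assoc, Finset.mul_sum]
          exact div_le_div_of_nonneg_right (Finset.sum_le_sum fun e _ => P_ww hP hz e) hn.le
        have hYn := YY_nn (f := f) (b := b) hP z (βm z)
        calc a z ^ 2 = a z * (y * P z) := by rw [← haP]; ring
          _ ≤ (YY f b P z (βm z) * ((∑ e, ww f P e z) / Fintype.card I)) * (y * P z) :=
              mul_le_mul_of_nonneg_right h1 (mul_nonneg y0 (hP z))
          _ = (y * YY f b P z (βm z)) * (P z * ((∑ e, ww f P e z) / Fintype.card I)) := by ring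
          _ ≤ (y * YY f b P z (βm z)) * MM f P z :=
              mul_le_mul_of_nonneg_left h2 (mul_nonneg y0 hYn)
      · have hz0 : P z = 0 := le_antisymm (not_lt.1 hz) (hP z)
        rw [haP, hz0, mul_zero]
        have := mul_nonneg (mul_nonneg y0 (YY_nn (f := f) (b := b) hP z (βm z)))
          (MM_nn (f := f) hP z)
        simpa using this
    have h3 := Finset.sum_sq_le_sum_mul_sum_of_sq_le_mul Finset.univ
      (fun z _ => mul_nonneg y0 (YY_nn (f := f) (b := b) hP z (βm z)))
      (fun z _ => MM_nn (f := f) hP z) (fun z _ => key z)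
    rw [← hy, ← hM, ← Finset.mul_sum, ← hJ] at h3
    have h4 : y * y ≤ y * (JJ f b P βm * M) := by
      calc y * y = y ^ 2 := by ring
        _ ≤ y * JJ f b P βm * M := h3
        _ = y * (JJ f b P βm * M) := by ring
    exact le_of_mul_le_mul_left h4 hypos
  · -- (2)
    obtain ⟨K, hK⟩ : ∃ K : ℝ, K = (∑ e, ∑ z, ∑ z', min (P z' * f e z ^ 2) (P z * f e z' ^ 2)) /
      Fintype.card I := ⟨_, rfl⟩
    have hM' : M = (∑ e, ∑ z, ∑ z', max (P z' * f e z ^ 2) (P z * f e z' ^ 2)) /
        Fintype.card I := by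
      rw [hM]
      unfold MM
      rw [← Finset.sum_div, Finset.sum_comm]
    have hMK : M + K ≤ 2 := by
      rw [hM', hK, ← add_div, div_le_iff₀ hn, ← Finset.sum_add_distrib]
      have h1 : ∀ e, (∑ z, ∑ z', max (P z' * f e z ^ 2) (P z * f e z' ^ 2)) +
          (∑ z, ∑ z', min (P z' * f e z ^ 2) (P z * f e z' ^ 2)) ≤ 2 := by
        intro e
        rw [← Finset.sum_add_distrib]
        have h2 : ∀ z, (∑ z', max (P z' * f e z ^ 2) (P z * f e z' ^ 2)) +
            (∑ z', min (P z' * f e z ^ 2) (P z * f e z' ^ 2)) =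
            f e z ^ 2 + P z * ∑ z', f e z' ^ 2 := by
          intro z
          rw [← Finset.sum_add_distrib]
          have h3 : ∀ z', max (P z' * f e z ^ 2) (P z * f e z' ^ 2) +
              min (P z' * f e z ^ 2) (P z * f e z' ^ 2) = P z' * f e z ^ 2 + P z * f e z' ^ 2 :=
            fun z' => max_add_min _ _
          rw [Finset.sum_congr rfl fun z' _ => h3 z', Finset.sum_add_distrib, ← Finset.sum_mul,
            ← Finset.mul_sum, hP1, one_mul]
        rw [Finset.sum_congr rfl fun z _ => h2 z, Finset.sum_add_distrib, ← Finset.sum_mul, hP1,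
          one_mul]
        have := hf1 e
        linarith
      calc ∑ e, ((∑ z, ∑ z', max (P z' * f e z ^ 2) (P z * f e z' ^ 2)) +
            ∑ z, ∑ z', min (P z' * f e z ^ 2) (P z * f e z' ^ 2)) ≤ ∑ _e : I, (2 : ℝ) :=
            Finset.sum_le_sum fun e _ => h1 e
        _ = 2 * Fintype.card I := by
            rw [Finset.sum_const, nsmul_eq_mul, Finset.card_univ]; ring
    have hMKy : y ^ 2 ≤ M * K := by
      -- the affinities
      obtain ⟨g, hg⟩ : ∃ g : I → ℝ, g = fun e => ∑ z, Real.sqrt (P z) * f e z := ⟨_, rfl⟩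
      have h1 : Real.sqrt y * Fintype.card I ≤ ∑ e, g e := by
        have e1 : ∑ e, g e = ∑ z, Real.sqrt (P z) * ∑ e, f e z := by
          rw [hg, Finset.sum_comm]
          exact Finset.sum_congr rfl fun z _ => by rw [Finset.mul_sum]
        have e2 : ∀ z, (∑ e, f e z) = (∑ β', AA f b z β') * Fintype.card I := by
          intro z
          unfold AA
          rw [← Finset.sum_div, div_mul_cancel₀ _ hn.ne', Finset.sum_comm]
          refine Finset.sum_congr rfl fun e _ => ?_
          rw [Finset.sum_ite_eq]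
          simp
        have e3 : ∀ z, Real.sqrt (a z) ≤ ∑ β', AA f b z β' := by
          intro z
          have nn : ∀ β', 0 ≤ AA f b z β' := fun β' => AA_nn hf0 b z β'
          rw [Real.sqrt_le_left (Finset.sum_nonneg fun β' _ => nn β')]
          rw [ha]
          simp only
          rw [pow_two, Finset.sum_mul]
          refine Finset.sum_le_sum fun β' _ => ?_
          rw [pow_two]
          exact mul_le_mul_of_nonneg_left (Finset.single_le_sum (fun β'' _ => nn β'')
            (Finset.mem_univ β')) (nn β')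
        rw [e1]
        calc Real.sqrt y * Fintype.card I
            = ∑ z, Real.sqrt (P z) * (Real.sqrt (a z) * Fintype.card I) := by
              have : ∀ z, Real.sqrt (P z) * (Real.sqrt (a z) * Fintype.card I) =
                  Real.sqrt y * Fintype.card I * P z := by
                intro z
                rw [haP, Real.sqrt_mul y0]
                have := Real.mul_self_sqrt (hP z)
                calc Real.sqrt (P z) * (Real.sqrt y * Real.sqrt (P z) * Fintype.card I)
                    = Real.sqrt y * Fintype.card I * (Real.sqrt (P z) * Real.sqrt (P z)) := by ring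
                  _ = _ := by rw [this]
              rw [Finset.sum_congr rfl fun z _ => this z, ← Finset.mul_sum, hP1, mul_one]
          _ ≤ ∑ z, Real.sqrt (P z) * ∑ e, f e z := by
              refine Finset.sum_le_sum fun z _ => ?_
              rw [e2]
              exact mul_le_mul_of_nonneg_left (mul_le_mul_of_nonneg_right (e3 z) hn.le)
                (Real.sqrt_nonneg _)
      have h2 : (∑ e, g e) ^ 2 ≤ Fintype.card I * ∑ e, g e ^ 2 := by
        have := sq_sum_le_card_mul_sum_sq (s := (Finset.univ : Finset I)) (f := g)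
        rwa [Finset.card_univ] at this
      have h3 : y * Fintype.card I ≤ ∑ e, g e ^ 2 := by
        have h4 : (Real.sqrt y * Fintype.card I) ^ 2 ≤ (∑ e, g e) ^ 2 :=
          pow_le_pow_left₀ (mul_nonneg (Real.sqrt_nonneg _) hn.le) h1 2
        rw [mul_pow, Real.sq_sqrt y0] at h4
        have h5 : (Fintype.card I : ℝ) * (y * Fintype.card I) ≤
            Fintype.card I * ∑ e, g e ^ 2 := by
          calc (Fintype.card I : ℝ) * (y * Fintype.card I) = y * (Fintype.card I : ℝ) ^ 2 := by ring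
            _ ≤ _ := h4.trans h2
        exact le_of_mul_le_mul_left h5 hn
      have h6 : (∑ e, g e ^ 2) ^ 2 ≤ (M * Fintype.card I) * (K * Fintype.card I) := by
        have e1 : ∑ e, g e ^ 2 = ∑ p : I × Z × Z,
            (Real.sqrt (P p.2.1) * f p.1 p.2.1) * (Real.sqrt (P p.2.2) * f p.1 p.2.2) := by
          rw [Fintype.sum_prod_type]
          refine Finset.sum_congr rfl fun e _ => ?_
          rw [Fintype.sum_prod_type, hg]
          simp only
          rw [pow_two, Finset.sum_mul_sum]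
        have e2 : M * Fintype.card I = ∑ p : I × Z × Z,
            max (P p.2.2 * f p.1 p.2.1 ^ 2) (P p.2.1 * f p.1 p.2.2 ^ 2) := by
          rw [hM', div_mul_cancel₀ _ hn.ne', Fintype.sum_prod_type]
          exact Finset.sum_congr rfl fun e _ => by rw [Fintype.sum_prod_type]
        have e3 : K * Fintype.card I = ∑ p : I × Z × Z,
            min (P p.2.2 * f p.1 p.2.1 ^ 2) (P p.2.1 * f p.1 p.2.2 ^ 2) := by
          rw [hK, div_mul_cancel₀ _ hn.ne', Fintype.sum_prod_type]
          exact Finset.sum_congr rfl fun e _ => by rw [Fintype.sum_prod_type]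
        rw [e1, e2, e3]
        refine Finset.sum_sq_le_sum_mul_sum_of_sq_le_mul _ (fun p _ => ?_) (fun p _ => ?_)
          (fun p _ => le_of_eq ?_)
        · exact le_max_of_le_left (mul_nonneg (hP _) (sq_nonneg _))
        · exact le_min (mul_nonneg (hP _) (sq_nonneg _)) (mul_nonneg (hP _) (sq_nonneg _))
        · rw [max_mul_min]
          have s1 := Real.sq_sqrt (hP p.2.1)
          have s2 := Real.sq_sqrt (hP p.2.2)
          calc (Real.sqrt (P p.2.1) * f p.1 p.2.1 * (Real.sqrt (P p.2.2) * f p.1 p.2.2)) ^ 2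
              = Real.sqrt (P p.2.1) ^ 2 * Real.sqrt (P p.2.2) ^ 2 * f p.1 p.2.1 ^ 2 *
                f p.1 p.2.2 ^ 2 := by ring
            _ = _ := by rw [s1, s2]; ring
      have h7 : (y * Fintype.card I) ^ 2 ≤ (∑ e, g e ^ 2) ^ 2 :=
        pow_le_pow_left₀ (mul_nonneg y0 hn.le) h3 2
      have h8 : y ^ 2 * (Fintype.card I : ℝ) ^ 2 ≤ (M * K) * (Fintype.card I : ℝ) ^ 2 := by
        calc y ^ 2 * (Fintype.card I : ℝ) ^ 2 = (y * Fintype.card I) ^ 2 := by ring
          _ ≤ _ := h7.trans h6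
          _ = _ := by ring
      exact le_of_mul_le_mul_right h8 (by positivity)
    have : M * K ≤ M * (2 - M) := mul_le_mul_of_nonneg_left (by linarith) M0
    nlinarith

end Pool.Agent.P325pa
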