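import Mathlib
import Pool.Agent.Lib.P325pa.Defs

/-!
# P325pa.Ext (0.8 h): one label per vertex is enough

`form G` is a nonnegative combination of squares of linear functions (`push G f u b` is linear in `f`), hence convex.
STEP: for `f ≥ 0` and a vertex `v₀` there is a label `a₀` such that `form G f ≤ form G f'`, where `f'` is `f` with
`f' v₀ a = if a = a₀ then t else 0`, `t = ∑ a, f v₀ a`. Proof: if `t = 0` then `f v₀ = 0` and `f' = f`. Otherwise
`f = ∑ a₀, (f v₀ a₀ / t) • f'_(a₀)` (weights with sum `1`), so `push f u b = ∑ a₀, q a₀ * push f'_(a₀) u b`,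
`push ^ 2 ≤ ∑ a₀, q a₀ * push f'_(a₀) ^ 2` (`inner_mul_le_norm_mul_norm` or `ConvexOn.map_sum_le` for `x ^ 2`, or
`Finset.sum_mul_sq_le_sq_mul_sq`), so `form G f ≤ ∑ a₀, q a₀ * form G f'_(a₀)`, and some term of a weighted average is
at least the average (`Finset.exists_le_of_sum_le` or `Finset.exists_max_image`).
Then induct on a finite set `S` of vertices: there is `x` such that `form G f ≤ form G f_S`, where `f_S v a =
if v ∈ S then (if a = x v then ∑ a', f v a' else 0) else f v a` (the totals `∑ a, f v a` do not change). `S = univ`.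
-/

open Finset
open scoped BigOperators Classical

namespace Pool.Agent.P325pa

/-- All the mass of the vertex `v₀` is moved to the label `a₀`. -/
noncomputable def repl (G : Game) (f : G.V → G.A → ℝ) (v₀ : G.V) (a₀ : G.A) : G.V → G.A → ℝ :=
  fun v a => if v = v₀ then (if a = a₀ then ∑ a', f v₀ a' else 0) else f v a

theorem push_sum (G : Game) {ι : Type*} (s : Finset ι) (q : ι → ℝ) (g : ι → G.V → G.A → ℝ)
    (u : G.U) (b : G.B) :
    push G (fun v a => ∑ i ∈ s, q i * g i v a) u b = ∑ i ∈ s, q i * push G (g i) u b := by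
  unfold push
  simp only [Finset.mul_sum]
  rw [Finset.sum_comm]
  refine Finset.sum_congr rfl fun e _ => ?_
  by_cases h : G.dst e = u
  · simp only [if_pos h]
    simp only [Finset.mul_sum]
    rw [Finset.sum_comm]
    refine Finset.sum_congr rfl fun a _ => ?_
    by_cases h2 : G.map e a = b
    · simp only [if_pos h2]
    · simp only [if_neg h2, mul_zero, Finset.sum_const_zero]
  · simp only [if_neg h, mul_zero, Finset.sum_const_zero]

theorem form_convex (G : Game) {ι : Type*} (s : Finset ι) (q : ι → ℝ) (hq : ∀ i ∈ s, 0 ≤ q i)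
    (hq1 : ∑ i ∈ s, q i = 1) (g : ι → G.V → G.A → ℝ) :
    form G (fun v a => ∑ i ∈ s, q i * g i v a) ≤ ∑ i ∈ s, q i * form G (g i) := by
  unfold form
  simp only [Finset.mul_sum]
  rw [Finset.sum_comm]
  refine Finset.sum_le_sum fun u _ => ?_
  have h1 : ∀ b, push G (fun v a => ∑ i ∈ s, q i * g i v a) u b ^ 2 ≤
      ∑ i ∈ s, q i * push G (g i) u b ^ 2 := by
    intro b
    rw [push_sum]
    have := (Even.convexOn_pow (𝕜 := ℝ) even_two).map_sum_le hq hq1
      (p := fun i => push G (g i) u b) (fun i _ => Set.mem_univ _)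
    simpa only [smul_eq_mul] using this
  have hc : (0 : ℝ) ≤ (Fintype.card G.E : ℝ) * deg G u := by positivity
  calc (∑ b, push G (fun v a => ∑ i ∈ s, q i * g i v a) u b ^ 2) /
        ((Fintype.card G.E : ℝ) * deg G u)
      ≤ (∑ b, ∑ i ∈ s, q i * push G (g i) u b ^ 2) / ((Fintype.card G.E : ℝ) * deg G u) := by
        apply div_le_div_of_nonneg_right _ hc
        exact Finset.sum_le_sum fun b _ => h1 b
    _ = ∑ i ∈ s, q i * ((∑ b, push G (g i) u b ^ 2) / ((Fintype.card G.E : ℝ) * deg G u)) := by
        rw [Finset.sum_comm, Finset.sum_div]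
        refine Finset.sum_congr rfl fun i _ => ?_
        rw [← Finset.mul_sum, mul_div_assoc]

/-- One vertex. -/
theorem exists_repl (G : Game) (f : G.V → G.A → ℝ) (hf : ∀ v a, 0 ≤ f v a) (v₀ : G.V) :
    ∃ a₀ : G.A, form G f ≤ form G (repl G f v₀ a₀) := by
  set t := ∑ a', f v₀ a' with ht
  have ht0 : 0 ≤ t := Finset.sum_nonneg fun a _ => hf v₀ a
  rcases ht0.eq_or_lt with h0 | h0
  · refine ⟨Classical.arbitrary _, le_of_eq ?_⟩
    congr 1
    funext v a
    unfold repl
    have h1 : ∀ a, f v₀ a = 0 := by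
      intro a
      exact (Finset.sum_eq_zero_iff_of_nonneg (fun a _ => hf v₀ a)).mp (ht ▸ h0.symm) a
        (Finset.mem_univ a)
    by_cases hv : v = v₀
    · subst hv
      rw [if_pos rfl, h1 a, ← ht, ← h0]
      simp
    · rw [if_neg hv]
  · obtain ⟨a₀, ha₀⟩ := Finite.exists_max (fun a => form G (repl G f v₀ a))
    refine ⟨a₀, ?_⟩
    set q : G.A → ℝ := fun a => f v₀ a / t with hq
    have hq0 : ∀ a ∈ (univ : Finset G.A), 0 ≤ q a := fun a _ => div_nonneg (hf v₀ a) h0.le
    have hq1 : ∑ a, q a = 1 := by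
      rw [hq, ← Finset.sum_div, ← ht]
      exact div_self h0.ne'
    have hfe : f = fun v a => ∑ i, q i * repl G f v₀ i v a := by
      funext v a
      unfold repl
      by_cases hv : v = v₀
      · subst hv
        simp only [if_true, mul_ite, mul_zero]
        rw [Finset.sum_ite_eq, if_pos (Finset.mem_univ a), ← ht, hq]
        exact (div_mul_cancel₀ _ h0.ne').symm
      · simp only [if_neg hv]
        rw [← Finset.sum_mul, hq1, one_mul]
    calc form G f = form G (fun v a => ∑ i, q i * repl G f v₀ i v a) := by rw [← hfe]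
      _ ≤ ∑ i, q i * form G (repl G f v₀ i) := form_convex G univ q hq0 hq1 _
      _ ≤ ∑ i, q i * form G (repl G f v₀ a₀) :=
          Finset.sum_le_sum fun i hi => mul_le_mul_of_nonneg_left (ha₀ i) (hq0 i hi)
      _ = form G (repl G f v₀ a₀) := by rw [← Finset.sum_mul, hq1, one_mul]

/-- The mass of the vertices of `S` is moved to the labels `x`. -/
noncomputable def fS (G : Game) (f : G.V → G.A → ℝ) (S : Finset G.V) (x : G.V → G.A) :
    G.V → G.A → ℝ :=
  fun v a => if v ∈ S then (if a = x v then ∑ a', f v a' else 0) else f v a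

theorem exists_fS (G : Game) (f : G.V → G.A → ℝ) (hf : ∀ v a, 0 ≤ f v a) (S : Finset G.V) :
    ∃ x : G.V → G.A, form G f ≤ form G (fS G f S x) := by
  induction S using Finset.induction_on with
  | empty =>
    refine ⟨fun _ => Classical.arbitrary _, le_of_eq ?_⟩
    congr 1
  | insert v₀ S hv₀ ih =>
    obtain ⟨x, hx⟩ := ih
    have hnn : ∀ v a, 0 ≤ fS G f S x v a := by
      intro v a
      unfold fS
      split_ifs
      · exact Finset.sum_nonneg fun a _ => hf v a
      · exact le_rfl
      · exact hf v a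
    obtain ⟨a₀, ha₀⟩ := exists_repl G (fS G f S x) hnn v₀
    refine ⟨Function.update x v₀ a₀, hx.trans (ha₀.trans (le_of_eq ?_))⟩
    congr 1
    funext v a
    unfold repl fS
    by_cases hv : v = v₀
    · subst hv
      simp only [if_true, if_neg hv₀, Finset.mem_insert_self, Function.update_self]
    · rw [if_neg hv]
      simp only [Finset.mem_insert, hv, false_or, Function.update_of_ne hv]

theorem exists_label (G : Game) (f : G.V → G.A → ℝ) (hf : ∀ v a, 0 ≤ f v a) :
    ∃ x : G.V → G.A, form G f ≤ form G (pt G (fun v => ∑ a, f v a) x) := by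
  obtain ⟨x, hx⟩ := exists_fS G f hf univ
  refine ⟨x, hx.trans (le_of_eq ?_)⟩
  congr 1
  funext v a
  simp [fS, pt]

end Pool.Agent.P325pa
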