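import Mathlib

/-!
# P325pa.Num: numbers for the lower bound

`b0 = √(2 v - v ^ 2) = 2 √d / (d + 1)` for `v = 2 / (d + 1)`.
-/

open Finset

namespace Pool.Agent.P325pa

namespace NumAux

theorem sqrt_eq (d : ℕ) :
    √(2 * (2 / ((d : ℝ) + 1)) - (2 / ((d : ℝ) + 1)) ^ 2) = 2 * √(d : ℝ) / ((d : ℝ) + 1) := by
  have hp : (0 : ℝ) < (d : ℝ) + 1 := by positivity
  have e : 2 * (2 / ((d : ℝ) + 1)) - (2 / ((d : ℝ) + 1)) ^ 2 = (2 * √(d : ℝ) / ((d : ℝ) + 1)) ^ 2 := by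
    have hs : √(d : ℝ) ^ 2 = d := Real.sq_sqrt (Nat.cast_nonneg d)
    have e2 : (2 * √(d : ℝ) / ((d : ℝ) + 1)) ^ 2 = 4 * d / ((d : ℝ) + 1) ^ 2 := by
      rw [div_pow, mul_pow, hs]
      norm_num
    rw [e2]
    field_simp
    ring
  rw [e, Real.sqrt_sq (by positivity)]

/-- the lower bound of the right side -/
theorem rhs_ge (k n : ℕ) (hn : 1 ≤ n) (h2n : 2 * n ≤ k + 1) (d : ℕ) (m : ℝ) (hm : 0 ≤ m)
    (hb : 2 * √(d : ℝ) * m ≤ 1) :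
    (2 * √(d : ℝ) * m) ^ (k + 1) / (2 * ((k : ℝ) + 1)) ≤
      ((2 * n).choose n : ℝ) * (d : ℝ) ^ n * m ^ (2 * n) / 2 := by
  have hb0 : 0 ≤ 2 * √(d : ℝ) * m := by positivity
  have hn' : (0 : ℝ) < n := by exact_mod_cast hn
  have h1 : (4 : ℝ) ^ n ≤ 2 * n * ((2 * n).choose n : ℝ) := by
    have h := Nat.four_pow_le_two_mul_self_mul_centralBinom n (by omega)
    rw [Nat.centralBinom] at h
    exact_mod_cast h
  have h2 : (2 * √(d : ℝ) * m) ^ (k + 1) ≤ (2 * √(d : ℝ) * m) ^ (2 * n) :=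
    pow_le_pow_of_le_one hb0 hb h2n
  have h3 : (2 * √(d : ℝ) * m) ^ (2 * n) = 4 ^ n * ((d : ℝ) ^ n * m ^ (2 * n)) := by
    rw [mul_pow, mul_pow, pow_mul, pow_mul (√(d : ℝ)), Real.sq_sqrt (Nat.cast_nonneg d)]
    norm_num
    ring
  have h4 : (0 : ℝ) ≤ (d : ℝ) ^ n * m ^ (2 * n) := by positivity
  have h5 : (2 * √(d : ℝ) * m) ^ (2 * n) ≤
      2 * n * (((2 * n).choose n : ℝ) * (d : ℝ) ^ n * m ^ (2 * n)) := by
    rw [h3]
    calc 4 ^ n * ((d : ℝ) ^ n * m ^ (2 * n))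
        ≤ 2 * n * ((2 * n).choose n : ℝ) * ((d : ℝ) ^ n * m ^ (2 * n)) :=
          mul_le_mul_of_nonneg_right h1 h4
      _ = _ := by ring
  have h6 : (2 : ℝ) * n ≤ (k : ℝ) + 1 := by exact_mod_cast h2n
  set X : ℝ := ((2 * n).choose n : ℝ) * (d : ℝ) ^ n * m ^ (2 * n) with hX
  have hX0 : 0 ≤ X := by positivity
  rw [div_le_div_iff₀ (by positivity) (by norm_num)]
  nlinarith [mul_le_mul_of_nonneg_right h6 hX0]

theorem eventually_small (r b : ℝ) (hr0 : 0 ≤ r) (hr1 : r < 1) (hb : 0 < b) :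
    ∃ k₀ : ℕ, ∀ k ≥ k₀, r ^ k ≤ b / (2 * ((k : ℝ) + 1)) := by
  have habs : |r| < 1 := by rwa [abs_of_nonneg hr0]
  have t1 := tendsto_pow_const_mul_const_pow_of_abs_lt_one 1 habs
  have t0 := tendsto_pow_const_mul_const_pow_of_abs_lt_one 0 habs
  have t := t1.add t0
  rw [add_zero] at t
  have h := (t.eventually (gt_mem_nhds (show (0 : ℝ) < b / 2 by positivity))).exists_forall_of_atTop
  obtain ⟨k₀, hk₀⟩ := h
  refine ⟨k₀, fun k hk => ?_⟩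
  have h2 := hk₀ k hk
  simp only [pow_one, pow_zero, one_mul] at h2
  have hk1 : (0 : ℝ) < (k : ℝ) + 1 := by positivity
  rw [le_div_iff₀ (by positivity)]
  nlinarith

end NumAux

theorem num (d : ℕ) (hd : 1 ≤ d) (θ : ℝ) (h0 : 0 < θ) (h1 : θ < 1) :
    ∃ R : ℕ, 1 ≤ R ∧ ∃ k₀ : ℕ, ∀ k ≥ k₀,
      ((1 - θ) * √(2 * (2 / (d + 1)) - (2 / (d + 1)) ^ 2)) ^ k ≤
        ((2 * ((k + 1) / 2)).choose ((k + 1) / 2) : ℝ) * (d : ℝ) ^ ((k + 1) / 2) *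
          ((R : ℝ) / ((R + 1) * (d + 1))) ^ (2 * ((k + 1) / 2)) / 2 := by
  obtain ⟨R, hR⟩ := exists_nat_gt (2 / θ)
  have hRpos : (0 : ℝ) < R := lt_trans (by positivity) hR
  have hR1 : 1 ≤ R := by exact_mod_cast (Nat.cast_pos.1 hRpos)
  refine ⟨R, hR1, ?_⟩
  have hdp : (0 : ℝ) < d := by exact_mod_cast hd
  have hsd : 0 < √(d : ℝ) := Real.sqrt_pos.2 hdp
  have hd1 : (0 : ℝ) < (d : ℝ) + 1 := by positivity
  set b0 : ℝ := 2 * √(d : ℝ) / ((d : ℝ) + 1) with hb0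
  have hb0p : 0 < b0 := by positivity
  have hb01 : b0 ≤ 1 := by
    rw [hb0, div_le_one hd1]
    nlinarith [sq_nonneg (√(d : ℝ) - 1), Real.sq_sqrt hdp.le]
  set m : ℝ := (R : ℝ) / ((R + 1) * (d + 1)) with hm
  have hmp : 0 < m := by positivity
  set b : ℝ := 2 * √(d : ℝ) * m with hb
  have hbp : 0 < b := by positivity
  have hbeq : b = (R : ℝ) / (R + 1) * b0 := by
    rw [hb, hm, hb0]
    field_simp
  have hR2 : 1 - θ / 2 ≤ (R : ℝ) / (R + 1) := by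
    rw [le_div_iff₀ (by positivity)]
    rw [div_lt_iff₀ h0] at hR
    nlinarith
  have hR3 : (R : ℝ) / (R + 1) ≤ 1 := by
    rw [div_le_one (by positivity)]
    linarith
  have hb1 : b ≤ 1 := by
    rw [hbeq]
    calc (R : ℝ) / (R + 1) * b0 ≤ 1 * 1 := mul_le_mul hR3 hb01 hb0p.le zero_le_one
      _ = 1 := one_mul 1
  set r : ℝ := (1 - θ) / (1 - θ / 2) with hr
  have hθ2 : 0 < 1 - θ / 2 := by linarith
  have hr0 : 0 ≤ r := div_nonneg (by linarith) hθ2.le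
  have hr1 : r < 1 := by
    rw [hr, div_lt_one hθ2]
    linarith
  have hrb : (1 - θ) * b0 ≤ r * b := by
    rw [hbeq, hr]
    have : (1 - θ) / (1 - θ / 2) * ((R : ℝ) / (R + 1) * b0)
        ≥ (1 - θ) / (1 - θ / 2) * ((1 - θ / 2) * b0) :=
      mul_le_mul_of_nonneg_left (mul_le_mul_of_nonneg_right hR2 hb0p.le) hr0
    calc (1 - θ) * b0 = (1 - θ) / (1 - θ / 2) * ((1 - θ / 2) * b0) := by
          rw [← mul_assoc, div_mul_cancel₀ _ hθ2.ne']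
      _ ≤ _ := this
  obtain ⟨k₀, hk₀⟩ := NumAux.eventually_small r b hr0 hr1 hbp
  refine ⟨max k₀ 1, fun k hk => ?_⟩
  have hk1 : 1 ≤ k := (le_max_right _ _).trans hk
  have hkk : k₀ ≤ k := (le_max_left _ _).trans hk
  have hs := hk₀ k hkk
  rw [NumAux.sqrt_eq d, ← hb0]
  have g1 : ((1 - θ) * b0) ^ k ≤ (r * b) ^ k :=
    pow_le_pow_left₀ (mul_nonneg (by linarith) hb0p.le) hrb k
  have g2 : (r * b) ^ k ≤ b / (2 * ((k : ℝ) + 1)) * b ^ k := by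
    rw [mul_pow]
    exact mul_le_mul_of_nonneg_right hs (pow_nonneg hbp.le k)
  have g3 : b / (2 * ((k : ℝ) + 1)) * b ^ k = b ^ (k + 1) / (2 * ((k : ℝ) + 1)) := by
    rw [pow_succ]
    ring
  have g4 := NumAux.rhs_ge k ((k + 1) / 2) (by omega) (by omega) d m hmp.le hb1
  calc ((1 - θ) * b0) ^ k ≤ (r * b) ^ k := g1
    _ ≤ b / (2 * ((k : ℝ) + 1)) * b ^ k := g2
    _ = b ^ (k + 1) / (2 * ((k : ℝ) + 1)) := g3
    _ ≤ _ := g4

end Pool.Agent.P325pa
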