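import Mathlib
import Pool.Agent.Lib.P325pa.SysDef

/-!
# P325pa.SysP (0.8 h): products of item systems

`sys_one`: one item, masses `1`, `up = some 0`. `sys_prod`: items `S.Z × T.Z`, masses and labels are products / pairs,
`up (e, e') (z, z') = some (i + i')` if `S.up e z = some i` and `T.up e' z' = some i'`, `none` otherwise
(`(S.up e z).bind fun i => (T.up e' z').map fun i' => i + i'`). `rel`: multiply the two relations,
`(1 - i) + (k - i') = k + 1 - (i + i')` for `i ≤ 1`, `i' ≤ k`. `mass` for `i ≤ k + 1`: the sum over the pairs is at least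
`∑ [S.up = some 1, T.up = some (i - 1)] + ∑ [S.up = some 0, T.up = some i]` (first part only if `i ≥ 1`, second only if
`i ≤ k`; disjoint sets of pairs, `Finset.sum_product`), at least `(d m) (k.choose (i-1) d ^ (i-1) m ^ k) + m (k.choose i
d ^ i m ^ k) = ((k+1).choose i) d ^ i m ^ (k+1)` (Pascal). `sys_pow`: induction.
-/

open Finset
open scoped BigOperators Classical

namespace Pool.Agent.P325pa

theorem sys_one (d m : ℝ) : Nonempty (Sys one d m 0) := by
  refine ⟨{ Z := Unit, P := fun _ _ => 1, Q := fun _ _ => 1, P0 := ?_, Q0 := ?_, P1 := ?_,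
            Q1 := ?_, α := fun _ _ => (), β := fun _ _ => (), up := fun _ _ => some 0,
            ok := ?_, rel := ?_, mass := ?_ }⟩
  · intro v z; exact zero_le_one
  · intro v z; exact zero_le_one
  · intro v; simp
  · intro v; simp
  · intro e z i h; rfl
  · intro e z i h
    have h0 : 0 = i := Option.some.inj h
    subst h0
    exact ⟨le_rfl, rfl⟩
  · intro e i hi
    have h0 : i = 0 := by omega
    subst h0
    simp

namespace SysPAux

variable {G H : Game} {d m : ℝ} {k : ℕ}

private noncomputable def upp (S : Sys G d m 1) (T : Sys H d m k) (e : G.E × H.E)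
    (z : S.Z × T.Z) : Option ℕ :=
  (S.up e.1 z.1).bind fun i => (T.up e.2 z.2).map fun i' => i + i'

private theorem upp_some (S : Sys G d m 1) (T : Sys H d m k) {e : G.E × H.E}
    {z : S.Z × T.Z} {j : ℕ} (h : upp S T e z = some j) :
    ∃ i i', S.up e.1 z.1 = some i ∧ T.up e.2 z.2 = some i' ∧ i + i' = j := by
  unfold upp at h
  rw [Option.bind_eq_some_iff] at h
  obtain ⟨i, hi, h⟩ := h
  rw [Option.map_eq_some_iff] at h
  obtain ⟨i', hi', h⟩ := h
  exact ⟨i, i', hi, hi', h⟩

private theorem upp_of (S : Sys G d m 1) (T : Sys H d m k) {e : G.E × H.E}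
    {z : S.Z × T.Z} {i i' : ℕ} (h : S.up e.1 z.1 = some i) (h' : T.up e.2 z.2 = some i') :
    upp S T e z = some (i + i') := by
  unfold upp
  rw [h, h']
  rfl

/-- the mass of a pair of classes -/
private theorem pair_sum (S : Sys G d m 1) (T : Sys H d m k) (e : G.E × H.E) (i i' : ℕ) :
    (∑ z, if S.up e.1 z = some i then S.P (G.src e.1) z else 0) *
      (∑ z, if T.up e.2 z = some i' then T.P (H.src e.2) z else 0) =
    ∑ z : S.Z × T.Z, if S.up e.1 z.1 = some i ∧ T.up e.2 z.2 = some i' then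
      S.P (G.src e.1) z.1 * T.P (H.src e.2) z.2 else 0 := by
  rw [Finset.sum_mul_sum, ← Finset.univ_product_univ, Finset.sum_product]
  refine Finset.sum_congr rfl fun a _ => Finset.sum_congr rfl fun b _ => ?_
  by_cases h1 : S.up e.1 a = some i <;> by_cases h2 : T.up e.2 b = some i' <;> simp [h1, h2]

private theorem mass_aux (S : Sys G d m 1) (T : Sys H d m k) (hd : 0 < d) (hm : 0 ≤ m)
    (e : G.E × H.E) (i : ℕ) (hi : i ≤ k + 1) :
    ((k + 1).choose i : ℝ) * d ^ i * m ^ (k + 1) ≤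
      ∑ z : S.Z × T.Z, if upp S T e z = some i then
        S.P (G.src e.1) z.1 * T.P (H.src e.2) z.2 else 0 := by
  have nn : ∀ z : S.Z × T.Z, 0 ≤ S.P (G.src e.1) z.1 * T.P (H.src e.2) z.2 :=
    fun z => mul_nonneg (S.P0 _ _) (T.P0 _ _)
  have s0 := S.mass e.1 0 (by omega)
  have s1 := S.mass e.1 1 le_rfl
  rw [Nat.choose_zero_right, pow_zero, pow_one] at s0
  rw [Nat.choose_one_right, pow_one, pow_one] at s1
  push_cast at s0 s1
  rw [one_mul, one_mul] at s0
  rw [one_mul] at s1
  rcases Nat.eq_zero_or_pos i with h0 | h0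
  · subst h0
    have t0 := T.mass e.2 0 (by omega)
    rw [Nat.choose_zero_right, pow_zero] at t0
    push_cast at t0
    rw [one_mul, one_mul] at t0
    have h1 := mul_le_mul s0 t0 (pow_nonneg hm k) (hm.trans s0)
    rw [pair_sum] at h1
    rw [Nat.choose_zero_right, pow_zero]
    push_cast
    rw [one_mul, one_mul, pow_succ']
    refine h1.trans (Finset.sum_le_sum fun z _ => ?_)
    by_cases h : S.up e.1 z.1 = some 0 ∧ T.up e.2 z.2 = some 0
    · rw [if_pos h, if_pos (upp_of S T h.1 h.2)]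
    · rw [if_neg h]
      split_ifs
      · exact nn z
      · exact le_rfl
  · obtain ⟨j, rfl⟩ : ∃ j, i = j + 1 := ⟨i - 1, by omega⟩
    have t1 := T.mass e.2 j (by omega)
    have hT0 : 0 ≤ (k.choose j : ℝ) * d ^ j * m ^ k := by positivity
    have h1 := mul_le_mul s1 t1 hT0 ((mul_nonneg hd.le hm).trans s1)
    rw [pair_sum] at h1
    have h2 : m * ((k.choose (j + 1) : ℝ) * d ^ (j + 1) * m ^ k) ≤
        ∑ z : S.Z × T.Z, if S.up e.1 z.1 = some 0 ∧ T.up e.2 z.2 = some (j + 1) then
          S.P (G.src e.1) z.1 * T.P (H.src e.2) z.2 else 0 := by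
      by_cases hjk : j + 1 ≤ k
      · have t2 := T.mass e.2 (j + 1) hjk
        have hT1 : 0 ≤ (k.choose (j + 1) : ℝ) * d ^ (j + 1) * m ^ k := by positivity
        have h3 := mul_le_mul s0 t2 hT1 (hm.trans s0)
        rw [pair_sum] at h3
        exact h3
      · rw [Nat.choose_eq_zero_of_lt (by omega)]
        push_cast
        rw [zero_mul, zero_mul, mul_zero]
        refine Finset.sum_nonneg fun z _ => ?_
        split_ifs
        · exact nn z
        · exact le_rfl
    have h4 : (((k + 1).choose (j + 1) : ℕ) : ℝ) * d ^ (j + 1) * m ^ (k + 1) =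
        d * m * ((k.choose j : ℝ) * d ^ j * m ^ k) +
          m * ((k.choose (j + 1) : ℝ) * d ^ (j + 1) * m ^ k) := by
      rw [Nat.choose_succ_succ]
      push_cast
      ring
    rw [h4]
    refine (add_le_add h1 h2).trans ?_
    rw [← Finset.sum_add_distrib]
    refine Finset.sum_le_sum fun z _ => ?_
    by_cases a1 : S.up e.1 z.1 = some 1 ∧ T.up e.2 z.2 = some j
    · have a2 : ¬ (S.up e.1 z.1 = some 0 ∧ T.up e.2 z.2 = some (j + 1)) := by
        rintro ⟨b1, -⟩
        rw [a1.1] at b1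
        exact absurd (Option.some.inj b1) one_ne_zero
      have a3 : upp S T e z = some (j + 1) := by
        rw [upp_of S T a1.1 a1.2, add_comm]
      rw [if_pos a1, if_neg a2, if_pos a3, add_zero]
    · by_cases a2 : S.up e.1 z.1 = some 0 ∧ T.up e.2 z.2 = some (j + 1)
      · have a3 : upp S T e z = some (j + 1) := by
          rw [upp_of S T a2.1 a2.2, zero_add]
        rw [if_neg a1, if_pos a2, if_pos a3, zero_add]
      · rw [if_neg a1, if_neg a2, add_zero]
        split_ifs
        · exact nn z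
        · exact le_rfl

private theorem sum_prod_le {α β : Type} [Fintype α] [Fintype β] (f : α → ℝ) (g : β → ℝ)
    (g0 : ∀ b, 0 ≤ g b) (hf : ∑ a, f a ≤ 1) (hg : ∑ b, g b ≤ 1) :
    ∑ z : α × β, f z.1 * g z.2 ≤ 1 := by
  rw [← Finset.univ_product_univ, Finset.sum_product]
  have h : ∑ a, ∑ b, f a * g b = (∑ a, f a) * ∑ b, g b := (Finset.sum_mul_sum _ _ _ _).symm
  have h2 := mul_le_mul hf hg (Finset.sum_nonneg fun b _ => g0 b) zero_le_one
  rw [one_mul] at h2
  exact (le_of_eq h).trans h2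

end SysPAux

open SysPAux

theorem sys_prod (G H : Game) (d m : ℝ) (hd : 0 < d) (hm : 0 ≤ m) (k : ℕ) (S : Sys G d m 1)
    (T : Sys H d m k) : Nonempty (Sys (prod G H) d m (k + 1)) := by
  refine ⟨{ Z := S.Z × T.Z,
            P := fun v z => S.P v.1 z.1 * T.P v.2 z.2,
            Q := fun u z => S.Q u.1 z.1 * T.Q u.2 z.2, P0 := ?_, Q0 := ?_, P1 := ?_,
            Q1 := ?_, α := fun v z => (S.α v.1 z.1, T.α v.2 z.2),
            β := fun u z => (S.β u.1 z.1, T.β u.2 z.2), up := fun e z => upp S T e z,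
            ok := ?_, rel := ?_, mass := ?_ }⟩
  · intro v z; exact mul_nonneg (S.P0 _ _) (T.P0 _ _)
  · intro u z; exact mul_nonneg (S.Q0 _ _) (T.Q0 _ _)
  · intro v
    exact sum_prod_le _ _ (T.P0 v.2) (S.P1 v.1) (T.P1 v.2)
  · intro u
    exact sum_prod_le _ _ (T.Q0 u.2) (S.Q1 u.1) (T.Q1 u.2)
  · intro e z j h
    obtain ⟨i, i', h1, h2, -⟩ := upp_some S T h
    exact Prod.ext (S.ok e.1 z.1 i h1) (T.ok e.2 z.2 i' h2)
  · intro e z j h
    obtain ⟨i, i', h1, h2, rfl⟩ := upp_some S T h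
    obtain ⟨a1, a2⟩ := S.rel e.1 z.1 i h1
    obtain ⟨b1, b2⟩ := T.rel e.2 z.2 i' h2
    refine ⟨by omega, ?_⟩
    have e1 : k + 1 - (i + i') = (1 - i) + (k - i') := by omega
    show S.P (G.src e.1) z.1 * T.P (H.src e.2) z.2 * d ^ (k + 1 - (i + i')) =
      S.Q (G.dst e.1) z.1 * T.Q (H.dst e.2) z.2 * d ^ (i + i')
    rw [e1, pow_add, pow_add]
    calc S.P (G.src e.1) z.1 * T.P (H.src e.2) z.2 * (d ^ (1 - i) * d ^ (k - i'))
        = (S.P (G.src e.1) z.1 * d ^ (1 - i)) * (T.P (H.src e.2) z.2 * d ^ (k - i')) := by ring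
      _ = (S.Q (G.dst e.1) z.1 * d ^ i) * (T.Q (H.dst e.2) z.2 * d ^ i') := by rw [a2, b2]
      _ = _ := by ring
  · intro e i hi
    exact mass_aux S T hd hm e i hi

theorem sys_pow (G : Game) (d m : ℝ) (hd : 0 < d) (hm : 0 ≤ m) (S : Sys G d m 1) (k : ℕ) :
    Nonempty (Sys (pow G k) d m k) := by
  induction k with
  | zero => exact sys_one d m
  | succ k ih =>
    obtain ⟨T⟩ := ih
    exact sys_prod G (pow G k) d m hd hm k S T

end Pool.Agent.P325pa
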