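import Mathlib
import Pool.Agent.Lib.P325pa.SysDef
import Pool.Agent.Lib.P325pa.Samp
import Pool.Agent.Lib.P325pa.Basic

/-!
# P325pa.SysV (0.6 h): the value of a game with an item system

Apply `sample` with `X = G.V ⊕ G.U`, masses `P v` on the left and `Q u` on the right, `s e = inl (src e)`,
`t e = inr (dst e)`, `w e = 1`, `ok e z := G.map e (α (src e) z) = β (dst e) z`; the labeling `v ↦ α v (zz (inl v))`,
`u ↦ β u (zz (inr u))` satisfies every `e` counted on the right side, so `∑ e, ∑ z, [..] (dd ..)⁻¹ ≤ card E * value G`.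
For an edge `e` and an item `z` with `up e z = some n` (`k = 2 n`): `P * d ^ n = Q * d ^ n`, so `P = Q`; if `P > 0` then
`dd P Q z ≤ ∑ (P j / P z + Q j / Q z) ≤ 1 / P z + 1 / Q z = 2 / P z`, `(dd ..)⁻¹ ≥ P z / 2`. Sum with `mass`, `i = n`
(`dd > 0`: the term `j = z` is `1`).
-/

open Finset
open scoped BigOperators Classical

namespace Pool.Agent.P325pa

namespace SysVAux

variable {Z : Type} [Fintype Z]

lemma dd_nonneg {p q : Z → ℝ} (hp : ∀ j, 0 ≤ p j) (hq : ∀ j, 0 ≤ q j) {z : Z} : 0 ≤ dd p q z :=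
  sum_nonneg fun j _ => le_max_of_le_left (div_nonneg (hp j) (hp z))

lemma dd_inv {p q : Z → ℝ} (hp : ∀ j, 0 ≤ p j) (hq : ∀ j, 0 ≤ q j) (p1 : ∑ j, p j ≤ 1)
    (q1 : ∑ j, q j ≤ 1) {z : Z} (hz : 0 < p z) (he : p z = q z) : p z / 2 ≤ (dd p q z)⁻¹ := by
  have hpos : 0 < dd p q z := by
    have h1 : (1 : ℝ) ≤ dd p q z := by
      have h2 : max (p z / p z) (q z / q z) ≤ dd p q z :=
        single_le_sum (f := fun j => max (p j / p z) (q j / q z))
          (fun j _ => le_max_of_le_left (div_nonneg (hp j) (hp z))) (mem_univ z)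
      rw [div_self hz.ne'] at h2
      exact (le_max_left _ _).trans h2
    linarith
  have h1 : dd p q z ≤ 2 / p z := by
    calc dd p q z ≤ ∑ j, (p j / p z + q j / p z) := by
          refine sum_le_sum fun j _ => ?_
          rw [← he]
          have a := div_nonneg (hp j) hz.le
          have b := div_nonneg (hq j) hz.le
          exact max_le (by linarith) (by linarith)
      _ = (∑ j, p j) / p z + (∑ j, q j) / p z := by
          rw [sum_add_distrib, sum_div, sum_div]
      _ ≤ 1 / p z + 1 / p z :=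
          add_le_add (div_le_div_of_nonneg_right p1 hz.le) (div_le_div_of_nonneg_right q1 hz.le)
      _ = 2 / p z := by ring
  have h2 := inv_anti₀ hpos h1
  rwa [inv_div] at h2

end SysVAux

theorem sys_value (G : Game) (d m : ℝ) (hd : 0 < d) (n : ℕ) (S : Sys G d m (2 * n)) :
    ((2 * n).choose n : ℝ) * d ^ n * m ^ (2 * n) / 2 ≤ value G := by
  let PP : G.V ⊕ G.U → S.Z → ℝ := Sum.elim S.P S.Q
  have hPP : ∀ x i, 0 ≤ PP x i := by
    intro x i
    rcases x with v | u
    · exact S.P0 v i
    · exact S.Q0 u i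
  obtain ⟨z, hz⟩ := sample (fun e : G.E => (Sum.inl (G.src e) : G.V ⊕ G.U))
    (fun e => Sum.inr (G.dst e)) PP hPP (fun _ => 1) (fun _ => zero_le_one)
    (fun e i => G.map e (S.α (G.src e) i) = S.β (G.dst e) i)
  set c : ℝ := ((2 * n).choose n : ℝ) * d ^ n * m ^ (2 * n) / 2 with hc
  let x : G.V → G.A := fun v => S.α v (z (Sum.inl v))
  let y : G.U → G.B := fun u => S.β u (z (Sum.inr u))
  have hcard : (0 : ℝ) < Fintype.card G.E := by exact_mod_cast Fintype.card_pos
  have h1 : (Fintype.card G.E : ℝ) * c ≤ ∑ e : G.E, (1 : ℝ) * ∑ i, (if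
      G.map e (S.α (G.src e) i) = S.β (G.dst e) i ∧ 0 < PP (Sum.inl (G.src e)) i ∧
        0 < PP (Sum.inr (G.dst e)) i then
        (dd (PP (Sum.inl (G.src e))) (PP (Sum.inr (G.dst e))) i)⁻¹ else 0) := by
    have h2 : (Fintype.card G.E : ℝ) * c = ∑ _e : G.E, c := by
      rw [sum_const, card_univ, nsmul_eq_mul]
    rw [h2]
    refine sum_le_sum fun e _ => ?_
    rw [one_mul]
    have h3 := S.mass e n (by omega)
    have h4 : c ≤ ∑ i, (if S.up e i = some n then S.P (G.src e) i / 2 else 0) := by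
      have h5 : ∑ i, (if S.up e i = some n then S.P (G.src e) i / 2 else 0) =
          (∑ i, if S.up e i = some n then S.P (G.src e) i else 0) / 2 := by
        rw [sum_div]
        refine sum_congr rfl fun i _ => ?_
        split_ifs
        · rfl
        · simp
      rw [h5, hc]
      linarith
    refine h4.trans (sum_le_sum fun i _ => ?_)
    have hdd : 0 ≤ dd (PP (Sum.inl (G.src e))) (PP (Sum.inr (G.dst e))) i :=
      SysVAux.dd_nonneg (hPP _) (hPP _)
    have hR : 0 ≤ (if G.map e (S.α (G.src e) i) = S.β (G.dst e) i ∧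
        0 < PP (Sum.inl (G.src e)) i ∧ 0 < PP (Sum.inr (G.dst e)) i then
        (dd (PP (Sum.inl (G.src e))) (PP (Sum.inr (G.dst e))) i)⁻¹ else 0) := by
      split_ifs
      · exact inv_nonneg.mpr hdd
      · exact le_refl 0
    by_cases hup : S.up e i = some n
    · rw [if_pos hup]
      have hrel := (S.rel e i n hup).2
      have h6 : 2 * n - n = n := by omega
      rw [h6] at hrel
      have heq : S.P (G.src e) i = S.Q (G.dst e) i :=
        mul_right_cancel₀ (pow_pos hd n).ne' hrel
      rcases (S.P0 (G.src e) i).eq_or_lt with h0 | h0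
      · rw [← h0, zero_div]
        exact hR
      · have h0q : 0 < S.Q (G.dst e) i := by rw [← heq]; exact h0
        rw [if_pos ⟨S.ok e i n hup, h0, h0q⟩]
        exact SysVAux.dd_inv (hPP (Sum.inl (G.src e))) (hPP (Sum.inr (G.dst e))) (S.P1 _) (S.Q1 _)
          h0 heq
    · rw [if_neg hup]
      exact hR
  have h2 : ∑ e : G.E, (1 : ℝ) * (if z (Sum.inl (G.src e)) = z (Sum.inr (G.dst e)) ∧
      G.map e (S.α (G.src e) (z (Sum.inl (G.src e)))) =
        S.β (G.dst e) (z (Sum.inl (G.src e))) then 1 else 0) ≤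
      Fintype.card G.E * satFrac G x y := by
    unfold satFrac
    rw [mul_div_cancel₀ _ hcard.ne']
    refine sum_le_sum fun e _ => ?_
    rw [one_mul]
    by_cases h : z (Sum.inl (G.src e)) = z (Sum.inr (G.dst e)) ∧
      G.map e (S.α (G.src e) (z (Sum.inl (G.src e)))) = S.β (G.dst e) (z (Sum.inl (G.src e)))
    · rw [if_pos h]
      have h3 : G.map e (x (G.src e)) = y (G.dst e) := by
        show G.map e (S.α (G.src e) (z (Sum.inl (G.src e)))) =
          S.β (G.dst e) (z (Sum.inr (G.dst e)))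
        rw [h.2, h.1]
      rw [if_pos h3]
    · rw [if_neg h]
      split_ifs
      · exact zero_le_one
      · exact le_refl 0
  have h3 := h1.trans (hz.trans h2)
  exact (le_of_mul_le_mul_left h3 hcard).trans (le_value G x y)

end Pool.Agent.P325pa
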