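import Mathlib
import Pool.Agent.Lib.P325pa.SysP
import Pool.Agent.Lib.P325pa.SysV
import Pool.Agent.Lib.P325pa.Cay
import Pool.Agent.Lib.P325pa.Num

/-!
# P325pa.Low: the lower bound
-/

open Finset
open scoped BigOperators Classical

namespace Pool.Agent.P325pa

theorem value_pow_succ_le (G : Game) (k : ℕ) : value (pow G (k + 1)) ≤ value (pow G k) :=
  value_prod_le G (pow G k)

theorem tensor_replicate (G : Game) (k : ℕ) : tensor (List.replicate k G) = pow G k := by
  induction k with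
  | zero => rfl
  | succ k ih => rw [List.replicate_succ, tensor, ih, pow]

theorem lower (D : ℕ) (hD : 2 ≤ D) (θ : ℝ) (h0 : 0 < θ) (h1 : θ < 1) :
    ∃ G : Game, IsUnique G ∧ value G ≤ 2 / D ∧ ∃ k₀ : ℕ, ∀ k ≥ k₀,
      ((1 - θ) * √(2 * (2 / D) - (2 / D) ^ 2)) ^ k ≤ value (tensor (List.replicate k G)) := by
  obtain ⟨d, rfl⟩ : ∃ d, D = d + 1 := ⟨D - 1, by omega⟩
  have hd : 1 ≤ d := by omega
  obtain ⟨R, hR, k₀, hk⟩ := num d hd θ h0 h1
  obtain ⟨G, hG, hv, ⟨S⟩⟩ := exists_base d R hd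
  refine ⟨G, hG, by push_cast; exact hv, k₀, fun k hkk => ?_⟩
  have hd' : (0 : ℝ) < d := by exact_mod_cast hd
  obtain ⟨T⟩ := sys_pow G d (R / ((R + 1) * (d + 1))) hd' (by positivity) S (2 * ((k + 1) / 2))
  have h2 := sys_value _ _ _ hd' _ T
  have h3 : value (pow G (2 * ((k + 1) / 2))) ≤ value (pow G k) := by
    rcases Nat.even_or_odd k with h | h
    · obtain ⟨j, rfl⟩ := h
      have : 2 * ((j + j + 1) / 2) = j + j := by omega
      rw [this]
    · obtain ⟨j, rfl⟩ := h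
      have : 2 * ((2 * j + 1 + 1) / 2) = 2 * j + 1 + 1 := by omega
      rw [this]
      exact value_pow_succ_le G _
  have h4 := hk k hkk
  rw [tensor_replicate]
  push_cast
  exact h4.trans (h2.trans h3)

end Pool.Agent.P325pa
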