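import Mathlib
import Pool.Agent.Lib.P325pa.Basic

/-!
# P325pa.Mult (1 h): the collision value of a product (Dinur-Steurer)

The unique game version is `Pool.Agent.Lib.P325r.Prod` (`scaled`, `coll_prod_le`): adapt it, `map` in place of `perm`.
`coll_prod_le`: let `x : V × V' → A × A'`. Put `Z = H.U × H.B` and
`h (u', b') v a = (∑ e', if H.dst e' = u' ∧ (x (v, H.src e')).1 = a ∧ H.map e' (x (v, H.src e')).2 = b' then 1 else 0) /
√(m' * deg H u')`. Then
(a) `form (prod G H) (pt _ 1 x) = ∑ z, form G (h z)`: `push (prod G H) (pt _ 1 x) (u, u') (b, b') / √(m' deg u') =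
push G (h (u', b')) u b` (both count the pairs `(e, e')` with ends `u, u'` and `map e (x ..).1 = b`,
`map e' (x ..).2 = b'`), `deg (prod G H) (u, u') = deg G u * deg H u'`, `card E = m * m'` (vertices of degree `0` have
`push = 0` and division by `0` is `0` on both sides);
(b) for every `v`: `∑ z, (∑ a, h z v a) ^ 2 = form H (pt H 1 (fun v' => (x (v, v')).2)) ≤ coll H`.
If `coll H = 0` then `h = 0` by (b); otherwise apply `VBound` to `h / √(coll H)` (see `P325r.scaled`).
`coll_tensor_le`: induction on the list, `coll_one_le`, `coll_nonneg`.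
-/

open Finset
open scoped BigOperators Classical

namespace Pool.Agent.P325pa

namespace MultAux

theorem push_smul (G : Game) (t : ℝ) (f : G.V → G.A → ℝ) (u : G.U) (b : G.B) :
    push G (fun v a => t * f v a) u b = t * push G f u b := by
  unfold push
  rw [Finset.mul_sum]
  refine Finset.sum_congr rfl fun e _ => ?_
  by_cases h : G.dst e = u
  · rw [if_pos h, if_pos h, Finset.mul_sum]
    refine Finset.sum_congr rfl fun a _ => ?_
    by_cases h2 : G.map e a = b
    · rw [if_pos h2, if_pos h2]
    · rw [if_neg h2, if_neg h2, mul_zero]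
  · rw [if_neg h, if_neg h, mul_zero]

theorem form_smul (G : Game) (t : ℝ) (f : G.V → G.A → ℝ) :
    form G (fun v a => t * f v a) = t ^ 2 * form G f := by
  unfold form
  rw [Finset.mul_sum]
  refine Finset.sum_congr rfl fun w _ => ?_
  rw [← mul_div_assoc, Finset.mul_sum]
  congr 1
  refine Finset.sum_congr rfl fun β _ => ?_
  rw [push_smul]
  ring

theorem scaled (G : Game) (c : ℝ) (hc : VBound G c)
    (Z : Type) [Fintype Z] (h : Z → G.V → G.A → ℝ) (hn : ∀ z u α, 0 ≤ h z u α) (c0 : ℝ) (h0 : 0 ≤ c0)
    (hs : ∀ u, ∑ z, (∑ α, h z u α) ^ 2 ≤ c0) : ∑ z, form G (h z) ≤ c * c0 := by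
  rcases h0.eq_or_lt with h1 | h1
  · have hz : ∀ z u α, h z u α = 0 := by
      intro z u α
      have h2 : ∑ z, (∑ α, h z u α) ^ 2 = 0 :=
        le_antisymm ((hs u).trans h1.symm.le) (Finset.sum_nonneg fun _ _ => sq_nonneg _)
      have h3 := (Finset.sum_eq_zero_iff_of_nonneg (fun _ _ => sq_nonneg _)).1 h2 z (mem_univ z)
      have h4 : ∑ α, h z u α = 0 := pow_eq_zero_iff (two_ne_zero) |>.1 h3
      exact (Finset.sum_eq_zero_iff_of_nonneg (fun α _ => hn z u α)).1 h4 α (mem_univ α)
    have h5 : ∀ z, form G (h z) = 0 := by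
      intro z
      unfold form push
      simp [hz]
    rw [Finset.sum_congr rfl fun z _ => h5 z, Finset.sum_const_zero, ← h1, mul_zero]
  · have hq : (0 : ℝ) < Real.sqrt c0 := Real.sqrt_pos.2 h1
    have hF : Feas G (fun z u α => (Real.sqrt c0)⁻¹ * h z u α) := by
      refine ⟨fun z u α => mul_nonneg (inv_nonneg.2 hq.le) (hn z u α), fun u => ?_⟩
      have h2 : ∑ z, (∑ α, (Real.sqrt c0)⁻¹ * h z u α) ^ 2 = c0⁻¹ * ∑ z, (∑ α, h z u α) ^ 2 := by
        rw [Finset.mul_sum]
        refine Finset.sum_congr rfl fun z _ => ?_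
        rw [← Finset.mul_sum, mul_pow, inv_pow, Real.sq_sqrt h0]
      rw [h2]
      calc c0⁻¹ * ∑ z, (∑ α, h z u α) ^ 2 ≤ c0⁻¹ * c0 :=
            mul_le_mul_of_nonneg_left (hs u) (inv_nonneg.2 h0)
        _ = 1 := inv_mul_cancel₀ h1.ne'
    have h3 := hc Z _ hF
    have h4 : ∀ z, form G (fun u α => (Real.sqrt c0)⁻¹ * h z u α) = c0⁻¹ * form G (h z) := by
      intro z
      rw [form_smul, inv_pow, Real.sq_sqrt h0]
    rw [Finset.sum_congr rfl fun z _ => h4 z, ← Finset.mul_sum] at h3
    have h5 := mul_le_mul_of_nonneg_left h3 h0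
    rw [← mul_assoc, mul_inv_cancel₀ h1.ne', one_mul] at h5
    linarith

theorem push_pt (G : Game) (t : G.V → ℝ) (x : G.V → G.A) (u : G.U) (b : G.B) :
    push G (pt G t x) u b = ∑ e, if G.dst e = u then
      (if G.map e (x (G.src e)) = b then t (G.src e) else 0) else 0 := by
  unfold push pt
  refine Finset.sum_congr rfl fun e _ => ?_
  by_cases h : G.dst e = u
  · rw [if_pos h, if_pos h, Finset.sum_eq_single (x (G.src e))]
    · rw [if_pos rfl]
    · intro a _ ha
      rw [if_neg ha, ite_self]
    · intro h4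
      exact absurd (mem_univ _) h4
  · rw [if_neg h, if_neg h]

theorem deg_prod (G H : Game) (u : G.U) (u' : H.U) :
    deg (prod G H) (u, u') = deg G u * deg H u' := by
  unfold deg
  rw [← Finset.card_product]
  refine Finset.card_bij' (s := univ.filter fun e : (prod G H).E => (prod G H).dst e = (u, u'))
    (t := (univ.filter fun e => G.dst e = u) ×ˢ (univ.filter fun e => H.dst e = u'))
    (fun e _ => (e : G.E × H.E)) (fun e _ => e) ?_ ?_ (fun _ _ => rfl) (fun _ _ => rfl)
  · rintro ⟨e, e'⟩ he
    have h1 : ((G.dst e, H.dst e') : G.U × H.U) = (u, u') := (Finset.mem_filter.1 he).2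
    rw [Prod.mk.injEq] at h1
    exact Finset.mem_product.2 ⟨Finset.mem_filter.2 ⟨mem_univ _, h1.1⟩,
      Finset.mem_filter.2 ⟨mem_univ _, h1.2⟩⟩
  · rintro ⟨e, e'⟩ he
    have h1 := Finset.mem_product.1 he
    have h2 := (Finset.mem_filter.1 h1.1).2
    have h3 := (Finset.mem_filter.1 h1.2).2
    exact Finset.mem_filter.2 ⟨mem_univ _, Prod.ext h2 h3⟩

theorem card_prod (G H : Game) :
    (Fintype.card (prod G H).E : ℝ) = (Fintype.card G.E : ℝ) * Fintype.card H.E := by
  have : Fintype.card (prod G H).E = Fintype.card G.E * Fintype.card H.E :=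
    Fintype.card_prod G.E H.E
  rw [this]
  push_cast
  rfl

theorem push_prod (G H : Game) (x : G.V × H.V → G.A × H.A) (u : G.U) (u' : H.U) (b : G.B)
    (b' : H.B) :
    push (prod G H) (pt (prod G H) 1 x) (u, u') (b, b') =
      ∑ e, if G.dst e = u then (∑ e', if H.dst e' = u' then
        (if G.map e (x (G.src e, H.src e')).1 = b ∧ H.map e' (x (G.src e, H.src e')).2 = b'
          then (1 : ℝ) else 0) else 0) else 0 := by
  refine (push_pt (prod G H) 1 x (u, u') (b, b')).trans ?_
  refine (Fintype.sum_prod_type (α₁ := G.E) (α₂ := H.E) _).trans ?_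
  refine Finset.sum_congr rfl fun e _ => ?_
  by_cases h2 : G.dst e = u
  · rw [if_pos h2]
    refine Finset.sum_congr rfl fun e' _ => ?_
    simp only [prod, Prod.mk.injEq, h2, true_and, Pi.one_apply]
  · rw [if_neg h2]
    refine Finset.sum_eq_zero fun e' _ => ?_
    rw [if_neg]
    intro h3
    exact h2 (congrArg Prod.fst h3)

end MultAux

open MultAux

theorem coll_prod_le (G H : Game) (c : ℝ) (hc0 : 0 ≤ c) (hc : VBound G c) :
    coll (prod G H) ≤ c * coll H := by
  refine Real.iSup_le (fun x => ?_) (mul_nonneg hc0 (coll_nonneg H))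
  change G.V × H.V → G.A × H.A at x
  obtain ⟨q, hq⟩ : ∃ q : H.U → ℝ, q = fun u' => Real.sqrt ((Fintype.card H.E : ℝ) * deg H u') :=
    ⟨_, rfl⟩
  have hq2 : ∀ u', q u' ^ 2 = (Fintype.card H.E : ℝ) * deg H u' := by
    intro u'
    rw [hq]
    exact Real.sq_sqrt (by positivity)
  have hq0 : ∀ u', 0 ≤ q u' := by
    intro u'
    rw [hq]
    exact Real.sqrt_nonneg _
  obtain ⟨h, hh⟩ : ∃ h : H.U × H.B → G.V → G.A → ℝ, h = fun z v a =>
      (∑ e', if H.dst e' = z.1 then
        (if (x (v, H.src e')).1 = a ∧ H.map e' (x (v, H.src e')).2 = z.2 then (1 : ℝ) else 0)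
          else 0) / q z.1 :=
    ⟨_, rfl⟩
  have hn : ∀ z v a, 0 ≤ h z v a := by
    intro z v a
    rw [hh]
    refine div_nonneg (Finset.sum_nonneg fun e' _ => ?_) (hq0 _)
    split_ifs <;> norm_num
  -- the second coordinate
  have hs : ∀ v, ∑ z, (∑ a, h z v a) ^ 2 ≤ coll H := by
    intro v
    refine le_trans (le_of_eq ?_) (form_le_coll H (fun v' => (x (v, v')).2))
    rw [Fintype.sum_prod_type]
    unfold form
    refine Finset.sum_congr rfl fun u' _ => ?_
    rw [Finset.sum_div]
    refine Finset.sum_congr rfl fun b' _ => ?_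
    have h1 : ∑ a, h (u', b') v a = push H (pt H 1 (fun v' => (x (v, v')).2)) u' b' / q u' := by
      rw [hh, push_pt]
      simp only
      rw [← Finset.sum_div, Finset.sum_comm]
      congr 1
      refine Finset.sum_congr rfl fun e' _ => ?_
      by_cases h2 : H.dst e' = u'
      · simp only [if_pos h2, Pi.one_apply]
        rw [Finset.sum_eq_single (x (v, H.src e')).1]
        · simp only [true_and]
        · intro a _ ha
          rw [if_neg]
          intro h4
          exact ha h4.1.symm
        · intro h4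
          exact absurd (mem_univ _) h4
      · simp only [if_neg h2, Finset.sum_const_zero]
    rw [h1, div_pow, hq2]
  refine le_trans (le_of_eq ?_) (scaled G c hc (H.U × H.B) h hn (coll H) (coll_nonneg H) hs)
  -- the two forms
  have h1 : ∀ u u' b b', push G (h (u', b')) u b =
      push (prod G H) (pt (prod G H) 1 x) (u, u') (b, b') / q u' := by
    intro u u' b b'
    rw [push_prod]
    unfold push
    rw [hh, Finset.sum_div]
    refine Finset.sum_congr rfl fun e _ => ?_
    by_cases h2 : G.dst e = u
    · rw [if_pos h2, if_pos h2]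
      have h3 : ∀ a, (if G.map e a = b then
          (∑ e', if H.dst e' = u' then
            (if (x (G.src e, H.src e')).1 = a ∧ H.map e' (x (G.src e, H.src e')).2 = b' then (1 : ℝ)
              else 0) else 0) / q u' else 0) =
          (∑ e', if H.dst e' = u' then
            (if (x (G.src e, H.src e')).1 = a ∧ G.map e a = b ∧
              H.map e' (x (G.src e, H.src e')).2 = b' then (1 : ℝ) else 0) else 0) / q u' := by
        intro a
        by_cases h4 : G.map e a = b
        · rw [if_pos h4]
          simp only [h4, true_and]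
        · rw [if_neg h4]
          simp only [h4, false_and, and_false, if_false, ite_self, Finset.sum_const_zero,
            zero_div]
      simp only
      rw [Finset.sum_congr rfl fun a _ => h3 a, ← Finset.sum_div, Finset.sum_comm]
      congr 1
      refine Finset.sum_congr rfl fun e' _ => ?_
      by_cases h5 : H.dst e' = u'
      · simp only [if_pos h5]
        rw [Finset.sum_eq_single (x (G.src e, H.src e')).1]
        · simp only [true_and]
        · intro a _ ha
          rw [if_neg]
          intro h4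
          exact ha h4.1.symm
        · intro h4
          exact absurd (mem_univ _) h4
      · simp only [if_neg h5, Finset.sum_const_zero]
    · rw [if_neg h2, if_neg h2, zero_div]
  have h2 : ∑ z, form G (h z) = ∑ u', ∑ b', ∑ u, ∑ b,
      push (prod G H) (pt (prod G H) 1 x) (u, u') (b, b') ^ 2 /
        (((Fintype.card G.E : ℝ) * Fintype.card H.E) * (deg G u * deg H u')) := by
    rw [Fintype.sum_prod_type]
    refine Finset.sum_congr rfl fun u' _ => Finset.sum_congr rfl fun b' _ => ?_
    unfold form
    refine Finset.sum_congr rfl fun u _ => ?_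
    rw [Finset.sum_div]
    refine Finset.sum_congr rfl fun b _ => ?_
    rw [h1, div_pow, hq2, div_div]
    congr 1
    ring
  have h3 : form (prod G H) (pt (prod G H) 1 x) = ∑ u, ∑ u', ∑ b, ∑ b',
      push (prod G H) (pt (prod G H) 1 x) (u, u') (b, b') ^ 2 /
        (((Fintype.card G.E : ℝ) * Fintype.card H.E) * (deg G u * deg H u')) := by
    unfold form
    refine (Fintype.sum_prod_type (α₁ := G.U) (α₂ := H.U) _).trans ?_
    refine Finset.sum_congr rfl fun u _ => Finset.sum_congr rfl fun u' _ => ?_
    rw [Finset.sum_div, deg_prod, card_prod]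
    refine (Fintype.sum_prod_type (α₁ := G.B) (α₂ := H.B) _).trans ?_
    push_cast
    rfl
  refine h3.trans ?_
  rw [h2, Finset.sum_comm]
  refine Finset.sum_congr rfl fun u' _ => ?_
  have h4 : ∀ u, ∑ b, ∑ b', push (prod G H) (pt (prod G H) 1 x) (u, u') (b, b') ^ 2 /
        (((Fintype.card G.E : ℝ) * Fintype.card H.E) * (deg G u * deg H u')) =
      ∑ b', ∑ b, push (prod G H) (pt (prod G H) 1 x) (u, u') (b, b') ^ 2 /
        (((Fintype.card G.E : ℝ) * Fintype.card H.E) * (deg G u * deg H u')) :=
    fun u => Finset.sum_comm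
  rw [Finset.sum_congr rfl fun u _ => h4 u, Finset.sum_comm]

theorem coll_tensor_le (κ : Game → ℝ) (h0 : ∀ G, 0 ≤ κ G) (hκ : ∀ G, VBound G (κ G)) (L : List Game) :
    coll (tensor L) ≤ (L.map κ).prod := by
  induction L with
  | nil =>
    rw [List.map_nil, List.prod_nil]
    exact coll_one_le
  | cons G L ih =>
    rw [List.map_cons, List.prod_cons]
    exact (coll_prod_le G (tensor L) (κ G) (h0 G) (hκ G)).trans
      (mul_le_mul_of_nonneg_left ih (h0 G))

end Pool.Agent.P325pa
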