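import Mathlib
import Pool.Agent.Lib.P325pa.Defs

/-!
# P325pa.Tang: elementary inequalities for `hh t = 2 t / (1 + t ^ 2)`
-/

open Finset
open scoped BigOperators

namespace Pool.Agent.P325pa

theorem hh_nonneg (t : ℝ) (h : 0 ≤ t) : 0 ≤ hh t := by
  unfold hh
  positivity

theorem hh_le_one (t : ℝ) : hh t ≤ 1 := by
  unfold hh
  rw [div_le_one (by positivity)]
  nlinarith [sq_nonneg (t - 1)]

namespace TangAux

/-- the tangent of the concave function lies above it -/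
theorem hh_le_tangent (J t0 : ℝ) (hJ : 0 ≤ J) (h0 : 0 ≤ t0) (h0' : t0 ≤ 1) :
    hh J ≤ hh t0 + 2 * (1 - t0 ^ 2) / (1 + t0 ^ 2) ^ 2 * (J - t0) := by
  have p1 : 0 < 1 + J ^ 2 := by positivity
  have p2 : 0 < 1 + t0 ^ 2 := by positivity
  have e : hh t0 + 2 * (1 - t0 ^ 2) / (1 + t0 ^ 2) ^ 2 * (J - t0) - hh J
      = 2 * ((J - t0) ^ 2 * (J + 2 * t0 - t0 ^ 2 * J)) / ((1 + t0 ^ 2) ^ 2 * (1 + J ^ 2)) := by
    unfold hh
    field_simp
    ring
  have h1 : 0 ≤ J + 2 * t0 - t0 ^ 2 * J := by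
    have : t0 ^ 2 ≤ 1 := by nlinarith
    nlinarith
  have h2 : 0 ≤ 2 * ((J - t0) ^ 2 * (J + 2 * t0 - t0 ^ 2 * J)) / ((1 + t0 ^ 2) ^ 2 * (1 + J ^ 2)) := by
    positivity
  linarith

end TangAux

theorem tangent (y J M t0 : ℝ) (hJ : 0 ≤ J) (h1 : y ≤ J * M) (h2 : y ^ 2 + M ^ 2 ≤ 2 * M)
    (h0 : 0 ≤ t0) (h0' : t0 ≤ 1) :
    y ≤ hh t0 + 2 * (1 - t0 ^ 2) / (1 + t0 ^ 2) ^ 2 * (J - t0) := by
  have hslope : 0 ≤ 2 * (1 - t0 ^ 2) / (1 + t0 ^ 2) ^ 2 := by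
    have : t0 ^ 2 ≤ 1 := by nlinarith
    have h3 : 0 ≤ 1 - t0 ^ 2 := by linarith
    positivity
  rcases le_or_gt J 1 with hJ1 | hJ1
  · refine le_trans ?_ (TangAux.hh_le_tangent J t0 hJ h0 h0')
    have p1 : 0 < 1 + J ^ 2 := by positivity
    unfold hh
    rw [le_div_iff₀ p1]
    rcases le_or_gt y J with hy | hy
    · nlinarith [mul_nonneg hJ (sub_nonneg.2 hJ1), sq_nonneg J, mul_nonneg hJ hJ,
        mul_le_mul_of_nonneg_right hy p1.le]
    · rcases hJ.eq_or_lt with hJ0 | hJ0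
      · rw [← hJ0] at h1 hy
        linarith
      · -- `(y - J)^2 ≤ J^2 (M-1)^2 ≤ J^2 (1 - y^2)`
        have hM : J ≤ J * M := by linarith
        have a1 : 0 ≤ y - J := by linarith
        have a2 : y - J ≤ J * (M - 1) := by linarith
        have a3 : (y - J) ^ 2 ≤ (J * (M - 1)) ^ 2 := by
          exact pow_le_pow_left₀ a1 a2 2
        have a4 : (M - 1) ^ 2 ≤ 1 - y ^ 2 := by nlinarith
        have a5 : (J * (M - 1)) ^ 2 ≤ J ^ 2 * (1 - y ^ 2) := by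
          rw [mul_pow]
          exact mul_le_mul_of_nonneg_left a4 (sq_nonneg J)
        have a6 : y * (y * (1 + J ^ 2)) ≤ y * (2 * J) := by nlinarith
        exact le_of_mul_le_mul_left a6 (by linarith)
  · have hy1 : y ≤ 1 := by nlinarith [sq_nonneg (M - 1), sq_nonneg (y - 1)]
    have h3 := TangAux.hh_le_tangent 1 t0 zero_le_one h0 h0'
    have h4 : hh 1 = 1 := by unfold hh; norm_num
    have h5 : 2 * (1 - t0 ^ 2) / (1 + t0 ^ 2) ^ 2 * (1 - t0)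
        ≤ 2 * (1 - t0 ^ 2) / (1 + t0 ^ 2) ^ 2 * (J - t0) :=
      mul_le_mul_of_nonneg_left (by linarith) hslope
    linarith

end Pool.Agent.P325pa
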