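import Mathlib
import Pool.Agent.Lib.P325pa.Basic
import Pool.Agent.Lib.P325pa.Ext
import Pool.Agent.Lib.P325pa.Samp
import Pool.Agent.Lib.P325pa.Core
import Pool.Agent.Lib.P325pa.Tang

/-!
# P325pa.Round (1 h): the relaxation is at most `hh (value)`

`vbound`: let `f` be feasible over `Z`. If `Z` is empty the sum is `0 ≤ hh (value G)`. By `exists_label` choose `x z` for
every `z`: it is enough to bound `∑ z, form G (pt G (t z) (x z))`, `t z v = ∑ a, f z v a ≥ 0`, `∑ z, t z v ^ 2 ≤ 1`.
For a right vertex `u` with `deg G u > 0` apply `core` to `I = {e // G.dst e = u}`, `f e z = t z (G.src e)`,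
`b e z = G.map e (x z (G.src e))`: `P u`, `β u`, `M u`. With `y u = ∑ z, ∑ b, (push .. u b / deg u) ^ 2`:
`∑ z, form G (pt ..) = ∑ u, (deg u / m) * y u` (`m = card E`; degree `0` contributes `0`), and by `tangent` with
`t0 = value G`, `c = 2 (1 - t0 ^ 2) / (1 + t0 ^ 2) ^ 2 ≥ 0`: `y u ≤ hh t0 + c (J u - t0)`. `∑ u, deg u / m = 1`. So
`∑ z, form .. ≤ hh t0 + c ((∑ u, (deg u / m) * J u) - t0)` and it is enough that `(∑ u, deg u * J u) / m ≤ value G`.
Apply `sample` with `X = G.V ⊕ G.U`, masses `t z v ^ 2` on the left, `P u z` on the right (`0` if `deg u = 0`), `w = 1`,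
`ok e z := G.map e (x z (G.src e)) = β (G.dst e) z`: it gives `zz : X → Z`; the labeling `v ↦ x (zz (inl v)) v`,
`u ↦ β u (zz (inr u))` satisfies every `e` with `zz (inl (src e)) = zz (inr (dst e))` and `ok`. The left side of `sample`
is `∑ e, ∑ z, .. = ∑ u, deg u * J u` (`Finset.sum_fiberwise`, sums over the subtype `{e // dst e = u}`;
`dd P Q` is symmetric: `dd Q P = dd P Q`, `max_comm`).
-/

open Finset
open scoped BigOperators Classical

namespace Pool.Agent.P325pa

namespace RoundAux

theorem push_pt (G : Game) (t : G.V → ℝ) (x : G.V → G.A) (u : G.U) (b : G.B) :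
    push G (pt G t x) u b = ∑ e, if G.dst e = u then
      (if G.map e (x (G.src e)) = b then t (G.src e) else 0) else 0 := by
  unfold push pt
  refine Finset.sum_congr rfl fun e _ => ?_
  by_cases h : G.dst e = u
  · rw [if_pos h, if_pos h, Finset.sum_eq_single (x (G.src e))]
    · rw [if_pos rfl]
    · intro a _ ha
      rw [if_neg ha, ite_self]
    · intro h4
      exact absurd (mem_univ _) h4
  · rw [if_neg h, if_neg h]

/-- sums over the edges at a vertex -/
theorem sum_sub (G : Game) (u : G.U) (F : G.E → ℝ) :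
    (∑ e : {e : G.E // G.dst e = u}, F e.1) = ∑ e, if G.dst e = u then F e else 0 := by
  rw [← Finset.sum_filter]
  exact (Finset.sum_subtype (univ.filter fun e => G.dst e = u) (by simp) F).symm

theorem card_sub (G : Game) (u : G.U) :
    Fintype.card {e : G.E // G.dst e = u} = deg G u := by
  unfold deg
  exact Fintype.card_subtype _

theorem sum_deg (G : Game) : ∑ u, (deg G u : ℝ) = Fintype.card G.E := by
  unfold deg
  have h : ∑ u : G.U, (univ.filter (fun e => G.dst e = u)).card = Fintype.card G.E := by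
    rw [← Finset.card_eq_sum_card_fiberwise (f := G.dst) (s := univ) (t := univ)
      (fun _ _ => by simp)]
    rfl
  exact_mod_cast h

theorem form_eq (G : Game) (f : G.V → G.A → ℝ) :
    form G f = ∑ u, ((deg G u : ℝ) / Fintype.card G.E) * ∑ b, (push G f u b / deg G u) ^ 2 := by
  unfold form
  refine Finset.sum_congr rfl fun u _ => ?_
  have hm : (Fintype.card G.E : ℝ) ≠ 0 := by
    exact_mod_cast Fintype.card_ne_zero
  by_cases h : (deg G u : ℝ) = 0
  · rw [h]
    simp
  · rw [Finset.mul_sum, Finset.sum_div]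
    refine Finset.sum_congr rfl fun b _ => ?_
    field_simp

end RoundAux

open RoundAux

theorem vbound (G : Game) : VBound G (hh (value G)) := by
  intro Z _ f hf
  rcases isEmpty_or_nonempty Z with hZ | hZ
  · rw [Finset.univ_eq_empty, Finset.sum_empty]
    exact hh_nonneg _ (value_nonneg G)
  have hx0 : ∀ z, ∃ x : G.V → G.A, form G (f z) ≤ form G (pt G (fun v => ∑ a, f z v a) x) :=
    fun z => exists_label G (f z) (hf.1 z)
  choose x hx using hx0
  obtain ⟨t, ht⟩ : ∃ t : Z → G.V → ℝ, t = fun z v => ∑ a, f z v a := ⟨_, rfl⟩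
  have ht0 : ∀ z v, 0 ≤ t z v := by
    intro z v
    rw [ht]
    exact Finset.sum_nonneg fun a _ => hf.1 z v a
  have ht1 : ∀ v, ∑ z, t z v ^ 2 ≤ 1 := by
    intro v
    rw [ht]
    exact hf.2 v
  have hxt : ∀ z, form G (f z) ≤ form G (pt G (t z) (x z)) := by
    intro z
    rw [ht]
    exact hx z
  have hm0 : (0 : ℝ) < Fintype.card G.E := by
    exact_mod_cast Fintype.card_pos
  -- the main inequality at every right vertex
  have hcore : ∀ u : G.U, ∃ (P : Z → ℝ) (β : Z → G.B) (M : ℝ), (∀ z, 0 ≤ P z) ∧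
      (0 < deg G u →
        (∑ z, ∑ b, (push G (pt G (t z) (x z)) u b / deg G u) ^ 2 ≤
          ((∑ e, if G.dst e = u then ∑ z, (if G.map e (x z (G.src e)) = β z ∧ 0 < P z ∧
            0 < t z (G.src e) ^ 2 then (dd P (fun z' => t z' (G.src e) ^ 2) z)⁻¹ else 0) else 0) /
              deg G u) * M) ∧
        (∑ z, ∑ b, (push G (pt G (t z) (x z)) u b / deg G u) ^ 2) ^ 2 + M ^ 2 ≤ 2 * M) := by
    intro u
    by_cases hd : 0 < deg G u
    · have hne : Nonempty {e : G.E // G.dst e = u} := by
        rw [← card_sub] at hd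
        exact Fintype.card_pos_iff.1 hd
      obtain ⟨P, β, M, h1, h2, h3⟩ := core (I := {e : G.E // G.dst e = u}) (Z := Z) (B := G.B)
        (fun e z => t z (G.src e.1)) (fun e z => ht0 z _) (fun e => ht1 _)
        (fun e z => G.map e.1 (x z (G.src e.1)))
      have hp : ∀ z b, push G (pt G (t z) (x z)) u b =
          ∑ e : {e : G.E // G.dst e = u}, if G.map e.1 (x z (G.src e.1)) = b then
            t z (G.src e.1) else 0 := by
        intro z b
        rw [push_pt, sum_sub G u (fun e => if G.map e (x z (G.src e)) = b then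
            t z (G.src e) else 0)]
      have hy : ∑ z, ∑ b, (push G (pt G (t z) (x z)) u b / deg G u) ^ 2 =
          ∑ z, ∑ β', ((∑ e : {e : G.E // G.dst e = u}, if G.map e.1 (x z (G.src e.1)) = β' then
            t z (G.src e.1) else 0) / Fintype.card {e : G.E // G.dst e = u}) ^ 2 := by
        rw [card_sub]
        simp only [hp]
      have hJ : JJ (I := {e : G.E // G.dst e = u}) (fun e z => t z (G.src e.1))
          (fun e z => G.map e.1 (x z (G.src e.1))) P β =
          (∑ e, if G.dst e = u then ∑ z, (if G.map e (x z (G.src e)) = β z ∧ 0 < P z ∧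
            0 < t z (G.src e) ^ 2 then (dd P (fun z' => t z' (G.src e) ^ 2) z)⁻¹ else 0) else 0) /
              deg G u := by
        unfold JJ
        rw [card_sub, sum_sub G u (fun e => ∑ z, (if G.map e (x z (G.src e)) = β z ∧ 0 < P z ∧
            0 < t z (G.src e) ^ 2 then (dd P (fun z' => t z' (G.src e) ^ 2) z)⁻¹ else 0))]
      refine ⟨P, β, M, h1, fun _ => ⟨?_, ?_⟩⟩
      · rw [hy, ← hJ]
        exact h2
      · rw [hy]
        exact h3
    · exact ⟨fun _ => 0, fun _ => Classical.arbitrary _, 0, fun _ => le_rfl, fun h => absurd h hd⟩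
  choose P β M hP hc using hcore
  obtain ⟨S, hS⟩ : ∃ S : G.E → ℝ, S = fun e => ∑ z, (if G.map e (x z (G.src e)) = β (G.dst e) z ∧
      0 < P (G.dst e) z ∧ 0 < t z (G.src e) ^ 2 then
        (dd (P (G.dst e)) (fun z' => t z' (G.src e) ^ 2) z)⁻¹ else 0) := ⟨_, rfl⟩
  have hdd : ∀ (p q : Z → ℝ), (∀ z, 0 ≤ p z) → (∀ z, 0 ≤ q z) → ∀ z, 0 ≤ dd p q z := by
    intro p q hp hq z
    unfold dd
    exact Finset.sum_nonneg fun j _ => le_max_of_le_left (div_nonneg (hp j) (hp z))
  have hS0 : ∀ e, 0 ≤ S e := by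
    intro e
    rw [hS]
    refine Finset.sum_nonneg fun z _ => ?_
    split_ifs
    · exact inv_nonneg.2 (hdd _ _ (hP _) (fun _ => sq_nonneg _) z)
    · exact le_rfl
  obtain ⟨J, hJ⟩ : ∃ J : G.U → ℝ, J = fun u => (∑ e, if G.dst e = u then S e else 0) / deg G u :=
    ⟨_, rfl⟩
  have hJ0 : ∀ u, 0 ≤ J u := by
    intro u
    rw [hJ]
    refine div_nonneg (Finset.sum_nonneg fun e _ => ?_) (Nat.cast_nonneg _)
    split_ifs
    · exact hS0 e
    · exact le_rfl
  obtain ⟨y, hy⟩ : ∃ y : G.U → ℝ, y = fun u => ∑ z, ∑ b,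
      (push G (pt G (t z) (x z)) u b / deg G u) ^ 2 := ⟨_, rfl⟩
  obtain ⟨c, hcc⟩ : ∃ c : ℝ, c = 2 * (1 - value G ^ 2) / (1 + value G ^ 2) ^ 2 := ⟨_, rfl⟩
  have hc0 : 0 ≤ c := by
    rw [hcc]
    have h1 : value G ^ 2 ≤ 1 := by nlinarith [value_nonneg G, value_le_one G]
    have h2 : 0 ≤ 1 - value G ^ 2 := by linarith
    positivity
  have hyu : ∀ u, 0 < deg G u → y u ≤ hh (value G) + c * (J u - value G) := by
    intro u hu
    have h1 := (hc u hu).1
    have h2 := (hc u hu).2
    have hJu : (∑ e, if G.dst e = u then ∑ z, (if G.map e (x z (G.src e)) = β u z ∧ 0 < P u z ∧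
            0 < t z (G.src e) ^ 2 then (dd (P u) (fun z' => t z' (G.src e) ^ 2) z)⁻¹ else 0) else 0) =
        ∑ e, if G.dst e = u then S e else 0 := by
      refine Finset.sum_congr rfl fun e _ => ?_
      by_cases h : G.dst e = u
      · rw [if_pos h, if_pos h, hS]
        simp only [h]
      · rw [if_neg h, if_neg h]
    rw [hJu] at h1
    rw [hcc, hy]
    refine tangent _ (J u) (M u) (value G) (hJ0 u) ?_ h2 (value_nonneg G) (value_le_one G)
    rw [hJ]
    exact h1
  -- the sum
  have hsum1 : ∑ z, form G (pt G (t z) (x z)) = ∑ u, ((deg G u : ℝ) / Fintype.card G.E) * y u := by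
    rw [Finset.sum_congr rfl fun z _ => form_eq G (pt G (t z) (x z)), Finset.sum_comm]
    refine Finset.sum_congr rfl fun u _ => ?_
    rw [← Finset.mul_sum, hy]
  have hdegJ : ∀ u, (deg G u : ℝ) * J u = ∑ e, if G.dst e = u then S e else 0 := by
    intro u
    by_cases hd : 0 < deg G u
    · rw [hJ]
      simp only
      rw [mul_div_cancel₀]
      exact_mod_cast hd.ne'
    · have hd0 : deg G u = 0 := by omega
      rw [hd0, Nat.cast_zero, zero_mul]
      symm
      refine Finset.sum_eq_zero fun e _ => ?_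
      rw [if_neg]
      intro he
      unfold deg at hd0
      have := Finset.card_eq_zero.1 hd0
      have h3 : e ∈ univ.filter (fun e => G.dst e = u) := Finset.mem_filter.2 ⟨mem_univ _, he⟩
      rw [this] at h3
      exact absurd h3 (Finset.notMem_empty _)
  have hJS : ∑ u, (deg G u : ℝ) * J u = ∑ e, S e := by
    rw [Finset.sum_congr rfl fun u _ => hdegJ u, Finset.sum_comm]
    refine Finset.sum_congr rfl fun e _ => ?_
    rw [Finset.sum_ite_eq, if_pos (mem_univ _)]
  -- the sampling
  obtain ⟨zz, hzz⟩ := sample (X := G.V ⊕ G.U) (Z := Z) (E := G.E) (fun e => Sum.inr (G.dst e))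
    (fun e => Sum.inl (G.src e)) (Sum.elim (fun v z => t z v ^ 2) P)
    (by
      rintro (v | u) i
      · exact sq_nonneg _
      · exact hP u i) (fun _ => 1) (fun _ => zero_le_one)
    (fun e z => G.map e (x z (G.src e)) = β (G.dst e) z)
  simp only [one_mul, Sum.elim_inl, Sum.elim_inr] at hzz
  have hS2 : ∑ e, S e ≤ Fintype.card G.E * value G := by
    have h1 : ∑ e, S e ≤ ∑ e, if G.map e (x (zz (Sum.inl (G.src e))) (G.src e)) =
        β (G.dst e) (zz (Sum.inr (G.dst e))) then (1 : ℝ) else 0 := by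
      refine le_trans (le_of_eq ?_) (hzz.trans (Finset.sum_le_sum fun e _ => ?_))
      · exact Finset.sum_congr rfl fun e _ => congrFun hS e
      · by_cases h2 : zz (Sum.inr (G.dst e)) = zz (Sum.inl (G.src e)) ∧
            G.map e (x (zz (Sum.inr (G.dst e))) (G.src e)) = β (G.dst e) (zz (Sum.inr (G.dst e)))
        · rw [if_pos h2, if_pos]
          rw [← h2.1]
          exact h2.2
        · rw [if_neg h2]
          split_ifs
          · exact zero_le_one
          · exact le_rfl
    have h2 := le_value G (fun v => x (zz (Sum.inl v)) v) (fun u => β u (zz (Sum.inr u)))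
    unfold satFrac at h2
    rw [div_le_iff₀ hm0] at h2
    refine h1.trans (h2.trans (le_of_eq (mul_comm _ _)))
  have hd1 : ∑ u, (deg G u : ℝ) / Fintype.card G.E = 1 := by
    rw [← Finset.sum_div, sum_deg]
    exact div_self hm0.ne'
  have hstep : ∑ u, ((deg G u : ℝ) / Fintype.card G.E) * y u ≤
      ∑ u, ((deg G u : ℝ) / Fintype.card G.E) * (hh (value G) + c * (J u - value G)) := by
    refine Finset.sum_le_sum fun u _ => ?_
    by_cases hd : 0 < deg G u
    · exact mul_le_mul_of_nonneg_left (hyu u hd) (by positivity)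
    · have hd0 : deg G u = 0 := by omega
      rw [hd0]
      simp
  have hfin : ∑ u, ((deg G u : ℝ) / Fintype.card G.E) * (hh (value G) + c * (J u - value G)) =
      hh (value G) + c * ((∑ e, S e) / Fintype.card G.E - value G) := by
    have h1 : ∀ u, ((deg G u : ℝ) / Fintype.card G.E) * (hh (value G) + c * (J u - value G)) =
        ((deg G u : ℝ) / Fintype.card G.E) * (hh (value G) - c * value G) +
          (c / Fintype.card G.E) * ((deg G u : ℝ) * J u) := by
      intro u
      ring
    rw [Finset.sum_congr rfl fun u _ => h1 u, Finset.sum_add_distrib, ← Finset.sum_mul, hd1,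
      ← Finset.mul_sum, hJS]
    ring
  have hle : (∑ e, S e) / Fintype.card G.E ≤ value G := by
    rw [div_le_iff₀ hm0]
    exact hS2.trans (le_of_eq (mul_comm _ _))
  calc ∑ z, form G (f z) ≤ ∑ z, form G (pt G (t z) (x z)) := Finset.sum_le_sum fun z _ => hxt z
    _ = ∑ u, ((deg G u : ℝ) / Fintype.card G.E) * y u := hsum1
    _ ≤ _ := hstep
    _ = hh (value G) + c * ((∑ e, S e) / Fintype.card G.E - value G) := hfin
    _ ≤ hh (value G) := by
      have := mul_nonneg hc0 (sub_nonneg.2 hle)
      nlinarith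

end Pool.Agent.P325pa
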