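import Mathlib
import Pool.Agent.Lib.P325pa.Mult
import Pool.Agent.Lib.P325pa.Round

/-!
# P325pa.Upper (0.3 h): the upper bound

`value (tensor L) ≤ √(coll (tensor L)) ≤ √(∏ hh (value G)) = ∏ √(hh (value G))`.
-/

open Finset
open scoped BigOperators

namespace Pool.Agent.P325pa

theorem upper (L : List Game) : value (tensor L) ≤ (L.map fun G => √(hh (value G))).prod := by
  have h1 : coll (tensor L) ≤ (L.map fun G => hh (value G)).prod :=
    coll_tensor_le (fun G => hh (value G)) (fun G => hh_nonneg _ (value_nonneg G))
      (fun G => vbound G) L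
  have h2 : ∀ L : List Game, √((L.map fun G => hh (value G)).prod) =
      (L.map fun G => √(hh (value G))).prod := by
    intro L
    induction L with
    | nil => simp
    | cons G L ih =>
      rw [List.map_cons, List.prod_cons, Real.sqrt_mul (hh_nonneg _ (value_nonneg G)), ih,
        List.map_cons, List.prod_cons]
  rw [← h2]
  exact Real.le_sqrt_of_sq_le ((value_sq_le _).trans h1)

end Pool.Agent.P325pa
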